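import Pool.Agent.FF891.Shap

/-!
# FF891.Spars: small events of Bernoulli shifts over free groups are sparse

If the average degree of the random set of vertices given by an event of probability `p > 0` is at least `2 (1 + δ)`,
then `exp (- 3 n / δ) ≤ p`.
-/

set_option autoImplicit false

open MeasureTheory ProbabilityTheory
open scoped symmDiff Topology

namespace Pool.Agent.FF891

open Real (negMulLog)

variable {n : ℕ} {Ω : Type} [MeasurableSpace Ω] (P : Measure Ω) [IsProbabilityMeasure P]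

theorem real_sh (γ : FreeGroup (Fin n)) {D : Set (FreeGroup (Fin n) → Ω)} (hD : MeasurableSet D) :
    (nu n P).real (sh γ ⁻¹' D) = (nu n P).real D := by
  unfold Measure.real
  rw [(mps P γ).measure_preimage hD.nullMeasurableSet]

theorem inter_close {D E : Set (FreeGroup (Fin n) → Ω)} (hD : MeasurableSet D)
    (hE : MeasurableSet E) {ε : ℝ} (h : (nu n P).real (D ∆ E) ≤ ε) (s : FreeGroup (Fin n)) :
    |(nu n P).real (D ∩ sh s ⁻¹' D) - (nu n P).real (E ∩ sh s ⁻¹' E)| ≤ 2 * ε := by
  have h2 := abs_real_sub_le (nu n P) (D ∩ sh s ⁻¹' D) (E ∩ sh s ⁻¹' E)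
  refine h2.trans ?_
  have h4 : (D ∩ sh s ⁻¹' D) ∆ (E ∩ sh s ⁻¹' E) ⊆ (D ∆ E) ∪ sh s ⁻¹' (D ∆ E) := by
    rintro x (⟨⟨h5, h6⟩, h7⟩ | ⟨⟨h5, h6⟩, h7⟩)
    · by_cases h8 : x ∈ E
      · right
        left
        exact ⟨h6, fun h9 => h7 ⟨h8, h9⟩⟩
      · left
        left
        exact ⟨h5, h8⟩
    · by_cases h8 : x ∈ D
      · right
        right
        exact ⟨h6, fun h9 => h7 ⟨h8, h9⟩⟩
      · left
        right
        exact ⟨h5, h8⟩
  refine (measureReal_mono h4).trans ((measureReal_union_le _ _).trans ?_)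
  rw [real_sh P s (hD.symmDiff hE)]
  linarith

/-- the entropy inequality -/
theorem entropy_ineq {D : Set (FreeGroup (Fin n) → Ω)} (hD : MeasurableSet D) :
    ∑ i : Fin n, (2 * negMulLog ((nu n P).real D) -
      (negMulLog ((nu n P).real (D ∩ sh (dir (i, true)) ⁻¹' D)) +
        2 * negMulLog ((nu n P).real D - (nu n P).real (D ∩ sh (dir (i, true)) ⁻¹' D)))) ≤
      negMulLog ((nu n P).real D) := by
  classical
  have hpos : ∀ m : ℕ, (0 : ℝ) < 1 / ((m : ℝ) + 1) := fun m => Nat.one_div_pos_of_nat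
  choose K S hS hKS using fun m : ℕ => exists_cyl P hD (hpos m)
  set E : ℕ → Set (FreeGroup (Fin n) → Ω) := fun m => cylinder (α := fun _ => Ω) (K m) (S m) with hE
  have hEm : ∀ m, MeasurableSet (E m) := fun m => (hS m).cylinder (K m)
  have hlim : Filter.Tendsto (fun m : ℕ => 1 / ((m : ℝ) + 1)) Filter.atTop (𝓝 0) :=
    tendsto_one_div_add_atTop_nhds_zero_nat
  have tp : Filter.Tendsto (fun m => (nu n P).real (E m)) Filter.atTop (𝓝 ((nu n P).real D)) := by
    rw [tendsto_iff_dist_tendsto_zero]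
    refine squeeze_zero (fun _ => dist_nonneg) (fun m => ?_) hlim
    rw [dist_comm, Real.dist_eq]
    exact (abs_real_sub_le _ D (E m)).trans (hKS m)
  have tq : ∀ i : Fin n, Filter.Tendsto (fun m => (nu n P).real (E m ∩ sh (dir (i, true)) ⁻¹' E m))
      Filter.atTop (𝓝 ((nu n P).real (D ∩ sh (dir (i, true)) ⁻¹' D))) := by
    intro i
    rw [tendsto_iff_dist_tendsto_zero]
    have hlim2 : Filter.Tendsto (fun m : ℕ => 2 * (1 / ((m : ℝ) + 1))) Filter.atTop (𝓝 0) := by
      have := hlim.const_mul 2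
      rwa [mul_zero] at this
    refine squeeze_zero (fun _ => dist_nonneg) (fun m => ?_) hlim2
    rw [dist_comm, Real.dist_eq]
    exact inter_close P hD (hEm m) (hKS m) _
  have hc : ∀ {f : ℕ → ℝ} {a : ℝ}, Filter.Tendsto f Filter.atTop (𝓝 a) →
      Filter.Tendsto (fun m => negMulLog (f m)) Filter.atTop (𝓝 (negMulLog a)) := by
    intro f a h
    exact (Real.continuous_negMulLog.tendsto a).comp h
  have t1 : Filter.Tendsto (fun m => ∑ i : Fin n, (2 * negMulLog ((nu n P).real (E m)) -
      (negMulLog ((nu n P).real (E m ∩ sh (dir (i, true)) ⁻¹' E m)) +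
        2 * negMulLog ((nu n P).real (E m) - (nu n P).real (E m ∩ sh (dir (i, true)) ⁻¹' E m)))))
      Filter.atTop (𝓝 (∑ i : Fin n, (2 * negMulLog ((nu n P).real D) -
      (negMulLog ((nu n P).real (D ∩ sh (dir (i, true)) ⁻¹' D)) +
        2 * negMulLog ((nu n P).real D - (nu n P).real (D ∩ sh (dir (i, true)) ⁻¹' D)))))) := by
    refine tendsto_finset_sum _ fun i _ => ?_
    exact ((hc tp).const_mul 2).sub ((hc (tq i)).add ((hc (tp.sub (tq i))).const_mul 2))
  exact le_of_tendsto_of_tendsto' t1 (hc tp) fun m => entropy_cyl P (hEm m) dep_cyl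

theorem term_ge {p q : ℝ} (hp : 0 < p) (hq : 0 ≤ q) (hqp : q ≤ p) :
    -(q * Real.log p) - 3 * p ≤ 2 * negMulLog p - (negMulLog q + 2 * negMulLog (p - q)) := by
  have h1 : negMulLog q = q / p * negMulLog p + p * negMulLog (q / p) := by
    rw [← Real.negMulLog_mul, mul_div_cancel₀ _ hp.ne']
  have h2 : negMulLog (p - q) = (p - q) / p * negMulLog p + p * negMulLog ((p - q) / p) := by
    rw [← Real.negMulLog_mul, mul_div_cancel₀ _ hp.ne']
  have h3 : negMulLog (q / p) ≤ 1 := (negMulLog_bd (div_nonneg hq hp.le)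
    ((div_le_one hp).2 hqp)).2
  have h4 : negMulLog ((p - q) / p) ≤ 1 := (negMulLog_bd (div_nonneg (by linarith) hp.le)
    ((div_le_one hp).2 (by linarith))).2
  have h5 : 2 * negMulLog p - (q / p * negMulLog p + 2 * ((p - q) / p * negMulLog p)) =
      -(q * Real.log p) := by
    unfold Real.negMulLog
    field_simp
    ring
  rw [h1, h2]
  have h6 : p * negMulLog (q / p) ≤ p := by nlinarith
  have h7 : p * negMulLog ((p - q) / p) ≤ p := by nlinarith
  linarith

/-- small events are sparse -/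
theorem sparse {D : Set (FreeGroup (Fin n) → Ω)} (hD : MeasurableSet D) {δ : ℝ} (hδ : 0 < δ)
    (hp : 0 < (nu n P).real D)
    (hq : (1 + δ) * (nu n P).real D ≤
      ∑ i : Fin n, (nu n P).real (D ∩ sh (dir (i, true)) ⁻¹' D)) :
    Real.exp (-(3 * n / δ)) ≤ (nu n P).real D := by
  set p := (nu n P).real D with hpdef
  have hp1 : p ≤ 1 := measureReal_le_one
  have hlog : Real.log p ≤ 0 := Real.log_nonpos hp.le hp1
  have h1 := entropy_ineq P hD
  rw [← hpdef] at h1
  have h2 : ∑ i : Fin n, (-((nu n P).real (D ∩ sh (dir (i, true)) ⁻¹' D) * Real.log p) - 3 * p) ≤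
      negMulLog p := by
    refine le_trans (Finset.sum_le_sum fun i _ => ?_) h1
    exact term_ge hp measureReal_nonneg (measureReal_mono Set.inter_subset_left)
  rw [Finset.sum_sub_distrib, Finset.sum_neg_distrib, ← Finset.sum_mul, Finset.sum_const,
    Finset.card_univ, Fintype.card_fin, nsmul_eq_mul] at h2
  set s := ∑ i : Fin n, (nu n P).real (D ∩ sh (dir (i, true)) ⁻¹' D) with hs
  unfold Real.negMulLog at h2
  have h3 : δ * p * (-Real.log p) ≤ (s - p) * (-Real.log p) := by
    apply mul_le_mul_of_nonneg_right _ (by linarith)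
    linarith
  have h4 : (s - p) * (-Real.log p) ≤ n * (3 * p) := by linarith
  have h5 : δ * p * (-Real.log p) ≤ n * (3 * p) := h3.trans h4
  have h6 : -Real.log p ≤ 3 * n / δ := by
    rw [le_div_iff₀ hδ]
    have h7 : (-Real.log p * δ) * p ≤ (3 * n) * p := by linarith
    exact le_of_mul_le_mul_right h7 hp
  have h7 : -(3 * n / δ) ≤ Real.log p := by linarith
  calc Real.exp (-(3 * n / δ)) ≤ Real.exp (Real.log p) := Real.exp_le_exp.2 h7
    _ = p := Real.exp_log hp

/-! ### The core of the neighbourhood of a random set -/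

section

variable {P}

open Classical in
/-- the directions in which the neighbour of `1` is in the random set `U` -/
noncomputable def nb (U : Set (FreeGroup (Fin n) → Ω)) (w : FreeGroup (Fin n) → Ω) :
    Finset (Fin n × Bool) := Finset.univ.filter fun s => sh (dir s)⁻¹ w ∈ U

omit [MeasurableSpace Ω] in
theorem mem_nb {U : Set (FreeGroup (Fin n) → Ω)} {w : FreeGroup (Fin n) → Ω} {s : Fin n × Bool} :
    s ∈ nb U w ↔ sh (dir s)⁻¹ w ∈ U := by
  classical
  unfold nb
  rw [Finset.mem_filter]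
  simp

/-- iterated removal of the vertices of degree at most one from the `k`-neighbourhood of `D` -/
noncomputable def pr (D : Set (FreeGroup (Fin n) → Ω)) (k : ℕ) : ℕ → Set (FreeGroup (Fin n) → Ω)
  | 0 => ⋃ s ∈ ball n k, sh s⁻¹ ⁻¹' D
  | m + 1 => {w | w ∈ pr D k m ∧ 2 ≤ (nb (pr D k m) w).card}

/-- the core -/
noncomputable def core (D : Set (FreeGroup (Fin n) → Ω)) (k : ℕ) : Set (FreeGroup (Fin n) → Ω) :=
  ⋂ m, pr D k m

/-- the vertices of degree at least three of the core -/
noncomputable def core3 (D : Set (FreeGroup (Fin n) → Ω)) (k : ℕ) : Set (FreeGroup (Fin n) → Ω) :=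
  {w | w ∈ core D k ∧ 3 ≤ (nb (core D k) w).card}

theorem card_nb_eq (U : Set (FreeGroup (Fin n) → Ω)) (w : FreeGroup (Fin n) → Ω) :
    ((nb U w).card : ℝ) = ∑ s : Fin n × Bool, (sh (dir s)⁻¹ ⁻¹' U).indicator (fun _ => (1 : ℝ)) w := by
  classical
  rw [Finset.card_eq_sum_ones, Nat.cast_sum]
  unfold nb
  rw [Finset.sum_filter]
  refine Finset.sum_congr rfl fun s _ => ?_
  by_cases h : sh (dir s)⁻¹ w ∈ U
  · rw [if_pos h, Set.indicator_of_mem (show w ∈ sh (dir s)⁻¹ ⁻¹' U from h)]
    simp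
  · rw [if_neg h, Set.indicator_of_notMem (show w ∉ sh (dir s)⁻¹ ⁻¹' U from h)]

theorem measurable_sh (γ : FreeGroup (Fin n)) :
    Measurable (sh γ : (FreeGroup (Fin n) → Ω) → (FreeGroup (Fin n) → Ω)) :=
  measurable_pi_lambda _ fun δ => measurable_pi_apply (γ⁻¹ * δ)

theorem measurable_card_nb {U : Set (FreeGroup (Fin n) → Ω)} (hU : MeasurableSet U) :
    Measurable (fun w => ((nb U w).card : ℝ)) := by
  simp only [card_nb_eq]
  refine Finset.measurable_sum _ fun s _ => ?_
  exact measurable_const.indicator (measurable_sh _ hU)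

theorem measurableSet_nb {U : Set (FreeGroup (Fin n) → Ω)} (hU : MeasurableSet U) (j : ℕ) :
    MeasurableSet {w | w ∈ U ∧ j ≤ (nb U w).card} := by
  have h1 : {w | w ∈ U ∧ j ≤ (nb U w).card} = U ∩ {w | (j : ℝ) ≤ ((nb U w).card : ℝ)} := by
    ext w
    simp only [Set.mem_ofPred_eq, Set.mem_inter_iff, Nat.cast_le]
  rw [h1]
  exact hU.inter (measurableSet_le measurable_const (measurable_card_nb hU))

theorem measurableSet_pr {D : Set (FreeGroup (Fin n) → Ω)} (hD : MeasurableSet D) (k m : ℕ) :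
    MeasurableSet (pr D k m) := by
  induction m with
  | zero =>
    unfold pr
    exact Finset.measurableSet_biUnion _ fun s _ => measurable_sh _ hD
  | succ m ih => exact measurableSet_nb ih 2

theorem measurableSet_core {D : Set (FreeGroup (Fin n) → Ω)} (hD : MeasurableSet D) (k : ℕ) :
    MeasurableSet (core D k) := MeasurableSet.iInter fun m => measurableSet_pr hD k m

theorem measurableSet_core3 {D : Set (FreeGroup (Fin n) → Ω)} (hD : MeasurableSet D) (k : ℕ) :
    MeasurableSet (core3 D k) := measurableSet_nb (measurableSet_core hD k) 3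

omit [MeasurableSpace Ω] in
theorem pr_anti (D : Set (FreeGroup (Fin n) → Ω)) (k : ℕ) : Antitone (pr D k) :=
  antitone_nat_of_succ_le fun m _ hw => hw.1

omit [MeasurableSpace Ω] in
/-- all degrees of the core are at least two -/
theorem two_le_core {D : Set (FreeGroup (Fin n) → Ω)} {k : ℕ} {w : FreeGroup (Fin n) → Ω}
    (hw : w ∈ core D k) : 2 ≤ (nb (core D k) w).card := by
  classical
  -- every direction outside of `nb (core D k) w` is lost at some time
  have h1 : ∀ s : Fin n × Bool, ∃ m, s ∉ nb (core D k) w → s ∉ nb (pr D k m) w := by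
    intro s
    by_cases h : s ∈ nb (core D k) w
    · exact ⟨0, fun h' => absurd h h'⟩
    · rw [mem_nb] at h
      unfold core at h
      rw [Set.mem_iInter] at h
      push Not at h
      obtain ⟨m, hm⟩ := h
      exact ⟨m, fun _ => fun h' => hm (mem_nb.1 h')⟩
  choose m hm using h1
  set M := Finset.univ.sup m with hM
  have h2 : nb (pr D k M) w ⊆ nb (core D k) w := by
    intro s hs
    by_contra h
    apply hm s h
    rw [mem_nb] at hs ⊢
    exact pr_anti D k (Finset.le_sup (f := m) (Finset.mem_univ s)) hs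
  have h3 : w ∈ pr D k (M + 1) := Set.mem_iInter.1 hw (M + 1)
  exact h3.2.trans (Finset.card_le_card h2)

omit [MeasurableSpace Ω] in
/-- the core contains all sets of minimal degree two in the neighbourhood of `D` -/
theorem mem_core {D : Set (FreeGroup (Fin n) → Ω)} {k : ℕ} {w : FreeGroup (Fin n) → Ω}
    {T : Set (FreeGroup (Fin n))}
    (h1 : ∀ t ∈ T, ∃ s : FreeGroup (Fin n), s.norm ≤ k ∧ sh (t * s)⁻¹ w ∈ D)
    (h2 : ∀ t ∈ T, 2 ≤ Nat.card {s : Fin n × Bool // t * dir s ∈ T}) :
    ∀ t ∈ T, sh t⁻¹ w ∈ core D k := by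
  classical
  have key : ∀ m, ∀ t ∈ T, sh t⁻¹ w ∈ pr D k m := by
    intro m
    induction m with
    | zero =>
      intro t ht
      obtain ⟨s, hs, hs'⟩ := h1 t ht
      unfold pr
      rw [Set.mem_iUnion₂]
      refine ⟨s, mem_ball.2 hs, ?_⟩
      rw [Set.mem_preimage, sh_mul, ← mul_inv_rev]
      exact hs'
    | succ m ih =>
      intro t ht
      refine ⟨ih t ht, (h2 t ht).trans ?_⟩
      rw [Nat.subtype_card (Finset.univ.filter fun s : Fin n × Bool => t * dir s ∈ T)
        (fun s => by simp)]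
      refine Finset.card_le_card fun s hs => ?_
      rw [Finset.mem_filter] at hs
      rw [mem_nb, sh_mul, ← mul_inv_rev]
      exact ih _ hs.2
  intro t ht
  exact Set.mem_iInter.2 fun m => key m t ht

omit [MeasurableSpace Ω] in
theorem mem_core3 {D : Set (FreeGroup (Fin n) → Ω)} {k : ℕ} {w : FreeGroup (Fin n) → Ω}
    {T : Set (FreeGroup (Fin n))}
    (h1 : ∀ t ∈ T, ∃ s : FreeGroup (Fin n), s.norm ≤ k ∧ sh (t * s)⁻¹ w ∈ D)
    (h2 : ∀ t ∈ T, 2 ≤ Nat.card {s : Fin n × Bool // t * dir s ∈ T})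
    {t : FreeGroup (Fin n)} (ht : t ∈ T)
    (h3 : 3 ≤ Nat.card {s : Fin n × Bool // t * dir s ∈ T}) :
    sh t⁻¹ w ∈ core3 D k := by
  classical
  refine ⟨mem_core h1 h2 t ht, h3.trans ?_⟩
  rw [Nat.subtype_card (Finset.univ.filter fun s : Fin n × Bool => t * dir s ∈ T)
    (fun s => by simp)]
  refine Finset.card_le_card fun s hs => ?_
  rw [Finset.mem_filter] at hs
  rw [mem_nb, sh_mul, ← mul_inv_rev]
  exact mem_core h1 h2 _ hs.2

end

/-- the double count of the degrees of the core -/
theorem core_deg {D : Set (FreeGroup (Fin n) → Ω)} (hD : MeasurableSet D) (k : ℕ) :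
    2 * (nu n P).real (core D k) + (nu n P).real (core3 D k) ≤
      2 * ∑ i : Fin n, (nu n P).real (core D k ∩ sh (dir (i, true)) ⁻¹' core D k) := by
  classical
  set C := core D k with hC
  have hCm : MeasurableSet C := measurableSet_core hD k
  have hC3m : MeasurableSet (core3 D k) := measurableSet_core3 hD k
  have hs : ∀ s : Fin n × Bool, MeasurableSet (C ∩ sh (dir s)⁻¹ ⁻¹' C) :=
    fun s => hCm.inter (measurable_sh _ hCm)
  have h1 : 2 * (nu n P).real C + (nu n P).real (core3 D k) =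
      ∫ w, (2 * C.indicator (fun _ => (1 : ℝ)) w + (core3 D k).indicator (fun _ => (1 : ℝ)) w)
        ∂(nu n P) := by
    rw [integral_add (((integrable_const _).indicator hCm).const_mul _)
      ((integrable_const _).indicator hC3m), integral_const_mul, integral_indicator_const _ hCm,
      integral_indicator_const _ hC3m]
    simp only [smul_eq_mul, mul_one]
  have h2 : ∑ s : Fin n × Bool, (nu n P).real (C ∩ sh (dir s)⁻¹ ⁻¹' C) =
      ∫ w, ∑ s : Fin n × Bool, (C ∩ sh (dir s)⁻¹ ⁻¹' C).indicator (fun _ => (1 : ℝ)) w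
        ∂(nu n P) := by
    rw [integral_finsetSum]
    · refine Finset.sum_congr rfl fun s _ => ?_
      rw [integral_indicator_const _ (hs s), smul_eq_mul, mul_one]
    · exact fun s _ => (integrable_const _).indicator (hs s)
  have h3 : 2 * ∑ i : Fin n, (nu n P).real (C ∩ sh (dir (i, true)) ⁻¹' C) =
      ∑ s : Fin n × Bool, (nu n P).real (C ∩ sh (dir s)⁻¹ ⁻¹' C) := by
    rw [Fintype.sum_prod_type, Finset.mul_sum]
    refine Finset.sum_congr rfl fun i _ => ?_
    rw [Fintype.sum_bool]
    have e1 : (dir ((i, false) : Fin n × Bool))⁻¹ = dir (i, true) := by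
      simp [dir]
    have e2 : (nu n P).real (C ∩ sh (dir (i, true))⁻¹ ⁻¹' C) =
        (nu n P).real (C ∩ sh (dir (i, true)) ⁻¹' C) := by
      rw [← real_sh P (dir (i, true)) (hs (i, true))]
      congr 1
      ext w
      simp only [Set.mem_preimage, Set.mem_inter_iff]
      rw [sh_mul, inv_mul_cancel, sh_id]
      exact and_comm
    rw [e1, e2]
    ring
  rw [h1, h3, h2]
  refine integral_mono ?_ ?_ fun w => ?_
  · exact (((integrable_const _).indicator hCm).const_mul _).add
      ((integrable_const _).indicator hC3m)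
  · exact integrable_finsetSum _ fun s _ => (integrable_const _).indicator (hs s)
  · simp only []
    by_cases hw : w ∈ C
    · have h4 : ∑ s : Fin n × Bool, (C ∩ sh (dir s)⁻¹ ⁻¹' C).indicator (fun _ => (1 : ℝ)) w =
          ((nb C w).card : ℝ) := by
        rw [card_nb_eq]
        refine Finset.sum_congr rfl fun s _ => ?_
        by_cases h5 : w ∈ sh (dir s)⁻¹ ⁻¹' C
        · rw [Set.indicator_of_mem h5,
            Set.indicator_of_mem (show w ∈ C ∩ sh (dir s)⁻¹ ⁻¹' C from ⟨hw, h5⟩)]
        · rw [Set.indicator_of_notMem h5,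
            Set.indicator_of_notMem (show w ∉ C ∩ sh (dir s)⁻¹ ⁻¹' C from fun h => h5 h.2)]
      rw [h4, Set.indicator_of_mem hw]
      by_cases h3 : w ∈ core3 D k
      · rw [Set.indicator_of_mem h3]
        have : (3 : ℝ) ≤ (nb C w).card := by exact_mod_cast h3.2
        linarith
      · rw [Set.indicator_of_notMem h3]
        have : (2 : ℝ) ≤ (nb C w).card := by exact_mod_cast two_le_core hw
        linarith
    · have h3 : w ∉ core3 D k := fun h => hw h.1
      rw [Set.indicator_of_notMem hw, Set.indicator_of_notMem h3]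
      have : 0 ≤ ∑ s : Fin n × Bool, (C ∩ sh (dir s)⁻¹ ⁻¹' C).indicator (fun _ => (1 : ℝ)) w :=
        Finset.sum_nonneg fun s _ => Set.indicator_nonneg (fun _ _ => zero_le_one) _
      linarith

/-- events whose occurrences are uniformly branching are null or not small -/
theorem branch_gap (n k : ℕ) : ∃ ρ : ℝ, 0 < ρ ∧
    ∀ D : Set (FreeGroup (Fin n) → Ω), MeasurableSet D →
    (∀ᵐ w ∂(nu n P), w ∈ D → ∃ T : Set (FreeGroup (Fin n)),
      (∀ t ∈ T, ∃ s : FreeGroup (Fin n), s.norm ≤ k ∧ sh (t * s)⁻¹ w ∈ D) ∧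
      (∀ t ∈ T, 2 ≤ Nat.card {s : Fin n × Bool // t * dir s ∈ T}) ∧
      ∃ t ∈ T, t.norm ≤ k ∧ 3 ≤ Nat.card {s : Fin n × Bool // t * dir s ∈ T}) →
    (nu n P).real D < ρ → (nu n P).real D = 0 := by
  classical
  set b : ℝ := ((ball n k).card : ℝ) with hb
  have hb1 : 1 ≤ b := by
    have : 1 ≤ (ball n k).card := Finset.card_pos.2 ⟨1, by rw [mem_ball]; simp⟩
    rw [hb]
    exact_mod_cast this
  have hb0 : 0 < b := by linarith
  set δ : ℝ := 1 / (2 * b ^ 2) with hδ
  have hδ0 : 0 < δ := by positivity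
  refine ⟨Real.exp (-(3 * n / δ)) / b, div_pos (Real.exp_pos _) hb0, fun D hD h hlt => ?_⟩
  have hC3m : MeasurableSet (core3 D k) := measurableSet_core3 hD k
  have hCm : MeasurableSet (core D k) := measurableSet_core hD k
  -- the event is covered by translates of the branching vertices of the core
  have h1 : (nu n P).real D ≤ b * (nu n P).real (core3 D k) := by
    have h2 : (nu n P).real D ≤ (nu n P).real (⋃ t ∈ ball n k, sh t⁻¹ ⁻¹' core3 D k) := by
      refine ENNReal.toReal_mono (measure_ne_top _ _) (measure_mono_ae ?_)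
      filter_upwards [h] with w hw hwD
      obtain ⟨T, h1, h2, t, ht, ht', h3⟩ := hw hwD
      change w ∈ ⋃ t ∈ ball n k, sh t⁻¹ ⁻¹' core3 D k
      rw [Set.mem_iUnion₂]
      exact ⟨t, mem_ball.2 ht', mem_core3 h1 h2 ht h3⟩
    refine h2.trans ((measureReal_biUnion_finset_le _ _).trans ?_)
    calc ∑ t ∈ ball n k, (nu n P).real (sh t⁻¹ ⁻¹' core3 D k)
        = ∑ _t ∈ ball n k, (nu n P).real (core3 D k) :=
          Finset.sum_congr rfl fun t _ => real_sh P _ hC3m
      _ = b * (nu n P).real (core3 D k) := by rw [Finset.sum_const, nsmul_eq_mul]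
      _ ≤ _ := le_rfl
  have h2 : (nu n P).real (core D k) ≤ b * (nu n P).real D := by
    have h3 : core D k ⊆ ⋃ s ∈ ball n k, sh s⁻¹ ⁻¹' D := fun w hw => Set.mem_iInter.1 hw 0
    refine (measureReal_mono h3 (measure_ne_top _ _)).trans
      ((measureReal_biUnion_finset_le _ _).trans ?_)
    calc ∑ t ∈ ball n k, (nu n P).real (sh t⁻¹ ⁻¹' D)
        = ∑ _t ∈ ball n k, (nu n P).real D :=
          Finset.sum_congr rfl fun t _ => real_sh P _ hD
      _ = b * (nu n P).real D := by rw [Finset.sum_const, nsmul_eq_mul]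
      _ ≤ _ := le_rfl
  have h3 := core_deg P hD k
  set c := (nu n P).real (core D k) with hc
  set c3 := (nu n P).real (core3 D k) with hc3
  set p := (nu n P).real D with hp
  have hc0 : 0 ≤ c := measureReal_nonneg
  have hc30 : 0 ≤ c3 := measureReal_nonneg
  have hp0 : 0 ≤ p := measureReal_nonneg
  rcases hc0.eq_or_lt with h4 | h4
  · -- the core is null
    have h5 : c3 = 0 := by
      have : c3 ≤ c := measureReal_mono (fun w hw => hw.1)
      linarith
    rw [h5, mul_zero] at h1
    linarith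
  · exfalso
    have h5 : c ≤ b ^ 2 * c3 := by nlinarith
    have h6 : δ * c ≤ c3 / 2 := by
      rw [hδ]
      rw [div_mul_eq_mul_div, div_le_div_iff₀ (by positivity) (by norm_num)]
      nlinarith
    have h7 : (1 + δ) * c ≤ ∑ i : Fin n, (nu n P).real (core D k ∩ sh (dir (i, true)) ⁻¹' core D k) := by
      linarith
    have h8 := sparse P hCm hδ0 h4 h7
    rw [lt_div_iff₀ hb0] at hlt
    linarith

end Pool.Agent.FF891
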