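import Pool.Agent.FF891.Gap2
import Pool.Agent.FF891.Spars

/-!
# FF891.Chain: interpolation between two independent labellings
-/

set_option autoImplicit false

open MeasureTheory ProbabilityTheory
open scoped symmDiff

namespace Pool.Agent.FF891

variable {n : ℕ} {M : Type} {ψ : X n → M}

/-- the event that `ψ` changes between the times `s` and `t` -/
def chg (ψ : X n → M) (s t : ℝ) : Set (FreeGroup (Fin n) → Om) := {w | ψ (yt s w) ≠ ψ (yt t w)}

theorem measurableSet_chg [Finite M] (hψ : ∀ m, MeasurableSet {x | ψ x = m}) (s t : ℝ) :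
    MeasurableSet (chg ψ s t) := by
  have h : chg ψ s t = (⋃ m : M, (yt s ⁻¹' {x | ψ x = m}) ∩ (yt t ⁻¹' {x | ψ x = m}))ᶜ := by
    ext p
    simp only [chg, Set.mem_ofPred_eq, Set.mem_compl_iff, Set.mem_iUnion, Set.mem_inter_iff,
      Set.mem_preimage, not_exists, not_and]
    constructor
    · intro h m h1 h2
      exact h (h1.trans h2.symm)
    · intro h h'
      exact h _ h' rfl
  rw [h]
  refine (MeasurableSet.iUnion fun m => ?_).compl
  exact ((mp_yt s).measurable (hψ m)).inter ((mp_yt t).measurable (hψ m))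

theorem chg_le [Fintype M] (hψ : ∀ m, MeasurableSet {x | ψ x = m})
    {K : M → Finset (FreeGroup (Fin n))} {S : (m : M) → Set ((i : K m) → unitInterval)}
    (hS : ∀ m, MeasurableSet (S m)) {ε : ℝ}
    (hε : ∀ m, (mu n).real ({x | ψ x = m} ∆ cylinder (α := fun _ => unitInterval) (K m) (S m)) ≤ ε)
    {s t : ℝ} (hst : s ≤ t) :
    (nu n PP).real (chg ψ s t) ≤ ∑ m : M, (2 * ε + (K m).card * (t - s)) := by
  classical
  set C : M → Set (X n) := fun m => cylinder (α := fun _ => unitInterval) (K m) (S m) with hC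
  set A : M → Set (X n) := fun m => {x | ψ x = m} with hA
  have hsub : chg ψ s t ⊆ ⋃ m : M, ((yt s ⁻¹' (A m ∆ C m) ∪ yt t ⁻¹' (A m ∆ C m)) ∪
      ⋃ g ∈ K m, {w | yt s w g ≠ yt t w g}) := by
    intro w hw
    by_contra hcon
    simp only [Set.mem_iUnion, Set.mem_union, not_exists, not_or] at hcon
    apply hw
    set m := ψ (yt s w) with hm
    obtain ⟨⟨h1, h2⟩, h3⟩ := hcon m
    have h4 : yt s w ∈ A m := rfl
    have h5 : yt s w ∈ C m := by
      by_contra h6
      exact h1 (Or.inl ⟨h4, h6⟩)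
    have h6 : yt t w ∈ C m := by
      rw [hC] at h5 ⊢
      rw [mem_cylinder] at h5 ⊢
      have h7 : (K m).restrict (yt t w) = (K m).restrict (yt s w) := by
        funext i
        by_contra h8
        exact h3 i.1 i.2 (fun h9 => h8 h9.symm)
      rwa [h7]
    have h7 : yt t w ∈ A m := by
      by_contra h8
      exact h2 (Or.inr ⟨h6, h8⟩)
    exact h7.symm
  refine (measureReal_mono hsub).trans ((measureReal_iUnion_fintype_le _).trans ?_)
  refine Finset.sum_le_sum fun m _ => ?_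
  have hm : MeasurableSet (A m ∆ C m) := (hψ m).symmDiff ((hS m).cylinder _)
  have h1 : ∀ u : ℝ, (nu n PP).real (yt u ⁻¹' (A m ∆ C m)) ≤ ε := by
    intro u
    refine le_trans (le_of_eq ?_) (hε m)
    unfold Measure.real
    rw [(mp_yt u).measure_preimage hm.nullMeasurableSet]
  have h2 : (nu n PP).real (⋃ g ∈ K m, {w : FreeGroup (Fin n) → Om | yt s w g ≠ yt t w g}) ≤
      (K m).card * (t - s) := by
    refine (measureReal_biUnion_finset_le _ _).trans ?_
    calc ∑ g ∈ K m, (nu n PP).real {w : FreeGroup (Fin n) → Om | yt s w g ≠ yt t w g}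
        ≤ ∑ _g ∈ K m, (t - s) := Finset.sum_le_sum fun g _ => neq_le hst g
      _ = (K m).card * (t - s) := by rw [Finset.sum_const, nsmul_eq_mul]
  have h3 := measureReal_union_le (μ := nu n PP) (yt s ⁻¹' (A m ∆ C m) ∪ yt t ⁻¹' (A m ∆ C m))
    (⋃ g ∈ K m, {w : FreeGroup (Fin n) → Om | yt s w g ≠ yt t w g})
  have h4 := measureReal_union_le (μ := nu n PP) (yt s ⁻¹' (A m ∆ C m)) (yt t ⁻¹' (A m ∆ C m))
  have h5 := h1 s
  have h6 := h1 t
  linarith

/-- arbitrarily small steps -/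
theorem small_steps [Finite M] (hψ : ∀ m, MeasurableSet {x | ψ x = m}) {ρ : ℝ} (hρ : 0 < ρ) :
    ∃ N : ℕ, 0 < N ∧ ∀ i : ℕ, (nu n PP).real (chg ψ (2 * i / N) (2 * (i + 1 : ℕ) / N)) < ρ := by
  classical
  have := Fintype.ofFinite M
  set c : ℝ := (Fintype.card M : ℝ) with hc
  have hc0 : 0 ≤ c := by positivity
  set ε : ℝ := ρ / (4 * (c + 1)) with hε
  have hε0 : 0 < ε := by positivity
  have hex : ∀ m : M, ∃ (K : Finset (FreeGroup (Fin n))) (S : Set ((i : K) → unitInterval)),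
      MeasurableSet S ∧
      (mu n).real ({x | ψ x = m} ∆ cylinder (α := fun _ => unitInterval) K S) ≤ ε :=
    fun m => exists_cyl (volume : Measure unitInterval) (hψ m) hε0
  choose K S hS hKS using hex
  set B : ℝ := ∑ m : M, ((K m).card : ℝ) with hB
  have hB0 : 0 ≤ B := Finset.sum_nonneg fun _ _ => by positivity
  obtain ⟨N, hN⟩ := exists_nat_gt (4 * B / ρ)
  have hN0 : 0 < (N : ℝ) := lt_of_le_of_lt (by positivity) hN
  refine ⟨N, by exact_mod_cast hN0, fun i => ?_⟩
  have hstep : (2 * (i : ℝ) / N) ≤ 2 * ((i + 1 : ℕ) : ℝ) / N := by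
    push_cast
    gcongr
    linarith
  refine lt_of_le_of_lt (chg_le hψ hS hKS hstep) ?_
  have h1 : 2 * ((i + 1 : ℕ) : ℝ) / N - 2 * (i : ℝ) / N = 2 / N := by
    push_cast
    ring
  rw [h1, Finset.sum_add_distrib, Finset.sum_const, nsmul_eq_mul, Finset.card_univ, ← hc,
    ← Finset.sum_mul, ← hB]
  have h2 : c * (2 * ε) ≤ ρ / 2 := by
    have h3 : (c + 1) * (2 * ε) = ρ / 2 := by
      rw [hε]
      field_simp
      norm_num
    nlinarith
  have h3 : B * (2 / N) < ρ / 2 := by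
    rw [div_lt_iff₀ hρ] at hN
    rw [mul_div_assoc', div_lt_iff₀ hN0]
    linarith
  linarith

/-- if small changes never happen, the map is constant -/
theorem const_of_gap [Finite M] (hψ : ∀ m, MeasurableSet {x | ψ x = m}) {ρ : ℝ} (hρ : 0 < ρ)
    (hgap : ∀ s t : ℝ, (nu n PP).real (chg ψ s t) < ρ → (nu n PP).real (chg ψ s t) = 0) :
    ∃ m, ∀ᵐ x ∂(mu n), ψ x = m := by
  classical
  obtain ⟨N, hN, hstep⟩ := small_steps hψ hρ
  have hN' : (N : ℝ) ≠ 0 := by exact_mod_cast hN.ne'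
  have hchain : ∀ i : ℕ, ∀ᵐ w ∂(nu n PP), ψ (yt 0 w) = ψ (yt (2 * i / N) w) := by
    intro i
    induction i with
    | zero =>
      refine Filter.Eventually.of_forall fun w => ?_
      simp
    | succ i ih =>
      have h1 := hgap _ _ (hstep i)
      have h2 : nu n PP (chg ψ (2 * i / N) (2 * (i + 1 : ℕ) / N)) = 0 := by
        rwa [Measure.real, ENNReal.toReal_eq_zero_iff, or_iff_left (measure_ne_top _ _)] at h1
      have h3 : ∀ᵐ w ∂(nu n PP), w ∉ chg ψ (2 * i / N) (2 * (i + 1 : ℕ) / N) :=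
        measure_eq_zero_iff_ae_notMem.1 h2
      filter_upwards [ih, h3] with w hw1 hw2
      rw [hw1]
      by_contra h4
      exact hw2 h4
  have hends : ∀ᵐ w ∂(nu n PP), ψ (yt 0 w) = ψ (yt 2 w) := by
    have h1 := hchain N
    have h2 : 2 * (N : ℝ) / N = 2 := by field_simp
    rwa [h2] at h1
  have h01 : ∀ m : M, mu n {x | ψ x = m} = 0 ∨ mu n {x | ψ x = m} = 1 := by
    intro m
    set A : Set (X n) := {x | ψ x = m} with hA
    have hAm : MeasurableSet A := hψ m
    set p := (mu n).real A with hp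
    have hp0 : 0 ≤ p := measureReal_nonneg
    have hp1 : p ≤ 1 := measureReal_le_one
    have hpA : ∀ t : ℝ, (nu n PP).real (yt t ⁻¹' A) = p := by
      intro t
      rw [hp]
      unfold Measure.real
      rw [(mp_yt t).measure_preimage hAm.nullMeasurableSet]
    have h1 : (nu n PP).real (yt 0 ⁻¹' A ∩ yt 2 ⁻¹' A) = p := by
      rw [← hpA 0]
      refine measureReal_congr ?_
      filter_upwards [hends] with w hw
      refine propext ⟨fun h => h.1, fun h => ⟨h, ?_⟩⟩
      change ψ (yt 2 w) = m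
      rw [← hw]
      exact h
    have h2 : ∀ δ : ℝ, 0 < δ → |p - p ^ 2| ≤ δ := by
      intro δ hδ
      obtain ⟨K, S, hS, hKS⟩ := exists_cyl (volume : Measure unitInterval) hAm
        (show 0 < δ / 4 by linarith)
      set C : Set (X n) := cylinder (α := fun _ => unitInterval) K S with hC
      have hCm : MeasurableSet C := hS.cylinder K
      have hKS' : (mu n).real (A ∆ C) ≤ δ / 4 := hKS
      have h3 := ends_indep (n := n) hS
      rw [← hC] at h3
      set c := (mu n).real C with hc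
      have hc0 : 0 ≤ c := measureReal_nonneg
      have hc1 : c ≤ 1 := measureReal_le_one
      have h4 : |p - c| ≤ δ / 4 := (abs_real_sub_le _ A C).trans hKS'
      have h5 := abs_real_sub_le (nu n PP) (yt 0 ⁻¹' A ∩ yt 2 ⁻¹' A) (yt 0 ⁻¹' C ∩ yt 2 ⁻¹' C)
      rw [h1, h3] at h5
      have h6 : (nu n PP).real ((yt 0 ⁻¹' A ∩ yt 2 ⁻¹' A) ∆ (yt 0 ⁻¹' C ∩ yt 2 ⁻¹' C)) ≤
          δ / 4 + δ / 4 := by
        have h7 : (yt 0 ⁻¹' A ∩ yt 2 ⁻¹' A) ∆ (yt 0 ⁻¹' C ∩ yt 2 ⁻¹' C) ⊆
            (yt 0 ⁻¹' (A ∆ C)) ∪ yt 2 ⁻¹' (A ∆ C) := by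
          rintro x (⟨⟨h5, h6⟩, h7⟩ | ⟨⟨h5, h6⟩, h7⟩)
          · by_cases h8 : x ∈ yt 0 ⁻¹' C
            · right
              left
              exact ⟨h6, fun h9 => h7 ⟨h8, h9⟩⟩
            · left
              left
              exact ⟨h5, h8⟩
          · by_cases h8 : x ∈ yt 0 ⁻¹' A
            · right
              right
              exact ⟨h6, fun h9 => h7 ⟨h8, h9⟩⟩
            · left
              right
              exact ⟨h5, h8⟩
        refine (measureReal_mono h7).trans ((measureReal_union_le _ _).trans ?_)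
        have h8 : ∀ t : ℝ, (nu n PP).real (yt t ⁻¹' (A ∆ C)) = (mu n).real (A ∆ C) := by
          intro t
          unfold Measure.real
          rw [(mp_yt t).measure_preimage (hAm.symmDiff hCm).nullMeasurableSet]
        rw [h8, h8]
        exact add_le_add hKS' hKS'
      have h7 := abs_le.1 (h5.trans h6)
      have h8 := abs_le.1 h4
      rw [abs_le]
      constructor
      · nlinarith [h7.1, h7.2, h8.1, h8.2]
      · nlinarith [h7.1, h7.2, h8.1, h8.2]
    have h3 : p - p ^ 2 = 0 := by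
      by_contra h4
      have h5 := h2 (|p - p ^ 2| / 2) (by
        have := abs_pos.2 h4
        linarith)
      have := abs_pos.2 h4
      linarith
    have h4 : p * (1 - p) = 0 := by linarith [h3, sq p]
    rcases mul_eq_zero.1 h4 with h5 | h5
    · left
      rwa [hp, Measure.real, ENNReal.toReal_eq_zero_iff, or_iff_left (measure_ne_top _ _)] at h5
    · right
      have h6 : p = 1 := by linarith
      rw [hp, Measure.real] at h6
      rw [← ENNReal.ofReal_toReal (measure_ne_top (mu n) A), h6, ENNReal.ofReal_one]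
  have hex : ∃ m : M, mu n {x | ψ x = m} = 1 := by
    by_contra h
    push Not at h
    have h0 : ∀ m : M, mu n {x | ψ x = m} = 0 := fun m => (h01 m).resolve_right (h m)
    have h1 : mu n (⋃ m : M, {x | ψ x = m}) = 0 := measure_iUnion_null h0
    have h2 : (⋃ m : M, {x | ψ x = m}) = Set.univ := by
      ext x
      simp
    rw [h2, measure_univ] at h1
    exact one_ne_zero h1
  obtain ⟨m, hm⟩ := hex
  exact ⟨m, (prob_compl_eq_zero_iff (hψ m)).2 hm⟩

/-! ### Branching problems -/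

/-- any two solutions with different `π`-values at `1` have different `π`-values near a uniformly
branching set: there is a set `T` within distance `k` of the set of differences, with at least two
neighbours in `T` of each of its elements, and an element of length at most `k` with at least three -/
def Branching (Q : LCL n) (π : Q.L → M) (k : ℕ) : Prop :=
  ∀ f g : FreeGroup (Fin n) → Q.L, Q.Solves f → Q.Solves g → π (f 1) ≠ π (g 1) →
    ∃ T : Set (FreeGroup (Fin n)),
      (∀ t ∈ T, ∃ s : FreeGroup (Fin n), s.norm ≤ k ∧ π (f (t * s)) ≠ π (g (t * s))) ∧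
      (∀ t ∈ T, 2 ≤ Nat.card {s : Fin n × Bool // t * dir s ∈ T}) ∧
      ∃ t ∈ T, t.norm ≤ k ∧ 3 ≤ Nat.card {s : Fin n × Bool // t * dir s ∈ T}

/-- the problem `Q` with labels in `π ⁻¹ {m}` -/
def LCL.restr (Q : LCL n) (π : Q.L → M) (m : M) : LCL n where
  L := {l : Q.L // π l = m}
  fin := by
    have := Q.fin
    infer_instance
  r := Q.r
  P := {F | (fun s => (F s).1) ∈ Q.P}

theorem branching_ae {Q : LCL n} {π : Q.L → M} [Finite M] {k : ℕ} (hB : Branching Q π k)
    {Φ : X n → FreeGroup (Fin n) → Q.L} (hΦ : IsFactor Q Φ) :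
    ∃ m, ∀ᵐ x ∂(mu n), ∀ δ, π (Φ x δ) = m := by
  classical
  have hfin := Q.fin
  set ψ : X n → M := fun x => π (Φ x 1) with hψdef
  have hψ : ∀ m, MeasurableSet {x | ψ x = m} := by
    intro m
    have h1 : {x | ψ x = m} = ⋃ l ∈ {l : Q.L | π l = m}, {x | Φ x 1 = l} := by
      ext x
      simp only [hψdef, Set.mem_ofPred_eq, Set.mem_iUnion, exists_prop, exists_eq_right']
    rw [h1]
    exact MeasurableSet.biUnion (Set.to_countable _) fun l _ => hΦ.meas 1 l
  obtain ⟨ρ, hρ, hgap⟩ := branch_gap PP n k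
  have hchg : ∀ (s t : ℝ) (g : FreeGroup (Fin n)) (w : FreeGroup (Fin n) → Om),
      sh g⁻¹ w ∈ chg ψ s t ↔ π (Φ (yt s w) g) ≠ π (Φ (yt t w) g) := by
    intro s t g w
    change π (Φ (yt s (sh g⁻¹ w)) 1) ≠ π (Φ (yt t (sh g⁻¹ w)) 1) ↔ _
    rw [yt_sh, yt_sh, hΦ.equi, hΦ.equi, sh_one, sh_one]
  have hg2 : ∀ s t : ℝ, (nu n PP).real (chg ψ s t) < ρ → (nu n PP).real (chg ψ s t) = 0 := by
    intro s t
    refine hgap (chg ψ s t) (measurableSet_chg hψ s t) ?_
    have a1 := (mp_yt (n := n) s).quasiMeasurePreserving.ae hΦ.sol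
    have a2 := (mp_yt (n := n) t).quasiMeasurePreserving.ae hΦ.sol
    filter_upwards [a1, a2] with w h1 h2 hwD
    obtain ⟨T, hT1, hT2, t', ht', hT3⟩ := hB _ _ h1 h2 hwD
    refine ⟨T, fun u hu => ?_, hT2, t', ht', hT3⟩
    obtain ⟨v, hv, hv'⟩ := hT1 u hu
    exact ⟨v, hv, (hchg s t (u * v) w).2 hv'⟩
  obtain ⟨m, hm⟩ := const_of_gap hψ hρ hg2
  refine ⟨m, ?_⟩
  rw [ae_all_iff]
  intro δ
  have h2 := (mp_sh δ⁻¹).quasiMeasurePreserving.ae hm
  filter_upwards [h2] with x hx
  change π (Φ (sh δ⁻¹ x) 1) = m at hx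
  rwa [hΦ.equi, sh_one] at hx

/-- a factor with `π`-values almost surely `m` gives a factor for the restricted problem -/
theorem restr_factor {Q : LCL n} {π : Q.L → M} {Φ : X n → FreeGroup (Fin n) → Q.L}
    (hΦ : IsFactor Q Φ) {m : M} (hm : ∀ᵐ x ∂(mu n), ∀ δ, π (Φ x δ) = m) :
    ∃ Ψ : X n → FreeGroup (Fin n) → (Q.restr π m).L, IsFactor (Q.restr π m) Ψ ∧
      ∀ x y, Φ y 1 = Φ x 1 → Ψ y 1 = Ψ x 1 := by
  classical
  obtain ⟨x₀, hx₀⟩ := hm.exists
  set d : (Q.restr π m).L := ⟨Φ x₀ 1, hx₀ 1⟩ with hd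
  set F : Q.L → (Q.restr π m).L := fun l => if h : π l = m then ⟨l, h⟩ else d with hF
  refine ⟨fun x δ => F (Φ x δ), ⟨fun δ l => ?_, fun γ x => ?_, ?_⟩, fun x y h => congrArg F h⟩
  · have hfin := Q.fin
    have h1 : {x | F (Φ x δ) = l} = ⋃ l' ∈ {l' : Q.L | F l' = l}, {x | Φ x δ = l'} := by
      ext x
      simp only [Set.mem_ofPred_eq, Set.mem_iUnion, exists_prop, exists_eq_right']
    rw [h1]
    exact MeasurableSet.biUnion (Set.to_countable _) fun l' _ => hΦ.meas δ l'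
  · funext δ
    change F (Φ (sh γ x) δ) = F (Φ x (γ⁻¹ * δ))
    rw [hΦ.equi]
    rfl
  · filter_upwards [hm, hΦ.sol] with x h1 h2
    intro δ
    have h3 := h2 δ
    change (fun s : {g : FreeGroup (Fin n) // g.norm ≤ Q.r} => (F (Φ x (δ * s.1))).1) ∈ Q.P
    have h4 : (fun s : {g : FreeGroup (Fin n) // g.norm ≤ Q.r} => (F (Φ x (δ * s.1))).1) =
        fun s : {g : FreeGroup (Fin n) // g.norm ≤ Q.r} => Φ x (δ * s.1) := by
      funext s
      rw [hF]
      simp only []
      rw [dif_pos (h1 _)]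
    rw [h4]
    exact h3

theorem factor_of_restr {Q : LCL n} {π : Q.L → M} {m : M}
    {Ψ : X n → FreeGroup (Fin n) → (Q.restr π m).L} (hΨ : IsFactor (Q.restr π m) Ψ) :
    IsFactor Q (fun x δ => (Ψ x δ).1) := by
  refine ⟨fun δ l => ?_, fun γ x => ?_, ?_⟩
  · by_cases h : π l = m
    · have h1 : {x | (Ψ x δ).1 = l} = {x | Ψ x δ = ⟨l, h⟩} := by
        ext x
        simp only [Set.mem_ofPred_eq]
        exact ⟨fun h' => Subtype.ext h', fun h' => congrArg Subtype.val h'⟩
      rw [h1]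
      exact hΨ.meas δ _
    · have h1 : {x | (Ψ x δ).1 = l} = ∅ := by
        ext x
        simp only [Set.mem_ofPred_eq, Set.mem_empty_iff_false, iff_false]
        intro h'
        exact h (h' ▸ (Ψ x δ).2)
      rw [h1]
      exact MeasurableSet.empty
  · funext δ
    change (Ψ (sh γ x) δ).1 = (Ψ x (γ⁻¹ * δ)).1
    rw [hΨ.equi]
    rfl
  · filter_upwards [hΨ.sol] with x hx
    exact hx

theorem fiid_iff {Q : LCL n} {π : Q.L → M} [Finite M] {k : ℕ} (hB : Branching Q π k) :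
    FIID Q ↔ ∃ m, FIID (Q.restr π m) := by
  constructor
  · rintro ⟨Φ, hΦ⟩
    obtain ⟨m, hm⟩ := branching_ae hB hΦ
    obtain ⟨Ψ, hΨ, _⟩ := restr_factor hΦ hm
    exact ⟨m, Ψ, hΨ⟩
  · rintro ⟨m, Ψ, hΨ⟩
    exact ⟨_, factor_of_restr hΨ⟩

theorem ffiid_iff {Q : LCL n} {π : Q.L → M} [Finite M] {k : ℕ} (hB : Branching Q π k) :
    FFIID Q ↔ ∃ m, FFIID (Q.restr π m) := by
  constructor
  · rintro ⟨Φ, hΦ, hc⟩
    obtain ⟨m, hm⟩ := branching_ae hB hΦ
    obtain ⟨Ψ, hΨ, h1⟩ := restr_factor hΦ hm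
    refine ⟨m, Ψ, hΨ, ?_⟩
    filter_upwards [hc] with x hx
    obtain ⟨R, hR⟩ := hx
    exact ⟨R, fun y hy => h1 x y (hR y hy)⟩
  · rintro ⟨m, Ψ, hΨ, hc⟩
    refine ⟨_, factor_of_restr hΨ, ?_⟩
    filter_upwards [hc] with x hx
    obtain ⟨R, hR⟩ := hx
    exact ⟨R, fun y hy => congrArg Subtype.val (hR y hy)⟩

theorem const_iff {Q : LCL n} {k : ℕ} (hB : Branching Q (fun l => l) k) :
    FIID Q ↔ ∃ l : Q.L, Q.Solves (fun _ => l) := by
  have hfin := Q.fin
  constructor
  · rintro ⟨Φ, hΦ⟩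
    obtain ⟨l, hl⟩ := branching_ae hB hΦ
    obtain ⟨x, hx1, hx2⟩ := (hl.and hΦ.sol).exists
    refine ⟨l, ?_⟩
    have h3 : Φ x = fun _ => l := funext hx1
    rwa [h3] at hx2
  · rintro ⟨l, hl⟩
    exact fiid_of_ffiid (ffiid_of_const hl)

/-- edge problems with constraints at distance at least three are branching -/
theorem edge_branching {E : Type} [Finite E] {C : Set (Fin n × Bool → E)}
    (hC : ∀ c ∈ C, ∀ c' ∈ C, c ≠ c' → 3 ≤ Nat.card {s : Fin n × Bool // c s ≠ c' s}) :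
    Branching (edgeLCL n E C) (fun l => l) 0 := by
  classical
  intro f g hf hg h1
  have hf' := edgeLCL_solves.1 hf
  have hg' := edgeLCL_solves.1 hg
  have h1' : f 1 ≠ g 1 := h1
  have key : ∀ t : FreeGroup (Fin n), f t ≠ g t →
      3 ≤ Nat.card {s : Fin n × Bool // t * dir s ∈ {v | f v ≠ g v}} := by
    intro t ht
    refine (hC _ (hf' t).1 _ (hg' t).1 ht).trans ?_
    refine Nat.card_le_card_of_injective (fun s => ⟨s.1, ?_⟩) ?_
    · intro h2
      apply s.2
      rw [(hf' t).2 s.1, (hg' t).2 s.1, h2]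
    · intro a b hab
      exact Subtype.ext (congrArg (fun z => z.1) hab)
  refine ⟨{v | f v ≠ g v}, fun t ht => ⟨1, by simp, ?_⟩, fun t ht => ?_, 1, h1', by simp, key 1 h1'⟩
  · rw [mul_one]
    exact ht
  · exact le_trans (by norm_num) (key t ht)

end Pool.Agent.FF891
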