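import Pool.Agent.FF891.Thin

/-!
# FF891.Concl: consequences of almost sure constancy
-/

set_option autoImplicit false

open MeasureTheory

namespace Pool.Agent.FF891

variable {n : ℕ} {M : Type}

/-- the `π`-values of every factor of iid solution are almost surely constant -/
def AllConst (Q : LCL n) (π : Q.L → M) : Prop :=
  ∀ Φ : X n → FreeGroup (Fin n) → Q.L, IsFactor Q Φ →
    ∃ m : M, ∀ᵐ x ∂(mu n), ∀ δ : FreeGroup (Fin n), π (Φ x δ) = m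

theorem AllConst.fiid_iff {Q : LCL n} {π : Q.L → M} (H : AllConst Q π) :
    FIID Q ↔ ∃ m, FIID (Q.restr π m) := by
  constructor
  · rintro ⟨Φ, hΦ⟩
    obtain ⟨m, hm⟩ := H Φ hΦ
    obtain ⟨Ψ, hΨ, _⟩ := restr_factor hΦ hm
    exact ⟨m, Ψ, hΨ⟩
  · rintro ⟨m, Ψ, hΨ⟩
    exact ⟨_, factor_of_restr hΨ⟩

theorem AllConst.ffiid_iff {Q : LCL n} {π : Q.L → M} (H : AllConst Q π) :
    FFIID Q ↔ ∃ m, FFIID (Q.restr π m) := by
  constructor
  · rintro ⟨Φ, hΦ, hc⟩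
    obtain ⟨m, hm⟩ := H Φ hΦ
    obtain ⟨Ψ, hΨ, h1⟩ := restr_factor hΦ hm
    refine ⟨m, Ψ, hΨ, ?_⟩
    filter_upwards [hc] with x hx
    obtain ⟨R, hR⟩ := hx
    exact ⟨R, fun y hy => h1 x y (hR y hy)⟩
  · rintro ⟨m, Ψ, hΨ, hc⟩
    refine ⟨_, factor_of_restr hΨ, ?_⟩
    filter_upwards [hc] with x hx
    obtain ⟨R, hR⟩ := hx
    exact ⟨R, fun y hy => congrArg Subtype.val (hR y hy)⟩

theorem AllConst.const_iff {Q : LCL n} {π : Q.L → M} (H : AllConst Q π)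
    (hπ : Function.Injective π) :
    (FIID Q ↔ FFIID Q) ∧ (FIID Q ↔ ∃ l : Q.L, Q.Solves fun _ => l) := by
  have h1 : FIID Q → ∃ l : Q.L, Q.Solves fun _ => l := by
    rintro ⟨Φ, hΦ⟩
    obtain ⟨m, hm⟩ := H Φ hΦ
    obtain ⟨x, hx1, hx2⟩ := (hm.and hΦ.sol).exists
    refine ⟨Φ x 1, ?_⟩
    have h3 : Φ x = fun _ => Φ x 1 := by
      funext δ
      exact hπ ((hx1 δ).trans (hx1 1).symm)
    rwa [h3] at hx2
  have h2 : (∃ l : Q.L, Q.Solves fun _ => l) → FFIID Q := fun ⟨l, hl⟩ => ffiid_of_const hl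
  exact ⟨⟨fun h => h2 (h1 h), fiid_of_ffiid⟩, ⟨h1, fun h => fiid_of_ffiid (h2 h)⟩⟩

theorem allConst_of_branching {Q : LCL n} {π : Q.L → M} [Finite M] {k : ℕ}
    (hB : Branching Q π k) : AllConst Q π := fun _ hΦ => branching_ae hB hΦ

theorem allConst_edge {E : Type} [Finite E] {C : Set (Fin n × Bool → E)} (hC : Dist2 C)
    (h : ¬ ∃ f g, ThinPair C f g) (π : (edgeLCL n E C).L → M) : AllConst (edgeLCL n E C) π := by
  obtain ⟨k, hk⟩ := exists_branching hC h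
  intro Φ hΦ
  have hfin : Finite (edgeLCL n E C).L := (edgeLCL n E C).fin
  obtain ⟨l, hl⟩ := branching_ae hk hΦ
  refine ⟨π l, ?_⟩
  filter_upwards [hl] with x hx δ
  exact congrArg π (hx δ)

end Pool.Agent.FF891
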