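import Pool.Agent.FF891.Val

/-!
# FF891.Crit: LCL problems solved along the critical forest
-/

set_option autoImplicit false

open MeasureTheory

namespace Pool.Agent.FF891

variable {n : ℕ} {Q : Type}

/-- the configuration at a vertex with bit `b`: the incoming edges of the types `ι false`, `ι true`
have the values `x₀`, `x₁`, the outgoing edge of type `ι b` has the value `y`, all other edges have
the default value `q i` of their type `i` -/
def conf (ι : Bool → Fin n) (q : Fin n → Q) (b : Bool) (x₀ x₁ y : Q) : Fin n × Bool → Q :=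
  fun s => if s.2 = true then (if s.1 = ι b then y else q s.1)
    else (if s.1 = ι false then x₀ else if s.1 = ι true then x₁ else q s.1)

/-- the value of the edge from `v` to `v a_i` -/
noncomputable def ev (ι : Bool → Fin n) (q : Fin n → Q) (ch : Bool → Q → Q → Q) (x : X n)
    (v : FreeGroup (Fin n)) (i : Fin n) : Q :=
  if i = ι (bit (x v)) then V (fun b => q (ι b)) ch (tr ι x v) else q i

/-- the solution -/
noncomputable def Phi (ι : Bool → Fin n) (q : Fin n → Q) (ch : Bool → Q → Q → Q) (x : X n)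
    (v : FreeGroup (Fin n)) : Fin n × Bool → Q :=
  fun s => if s.2 = true then ev ι q ch x v s.1 else ev ι q ch x (v * (FreeGroup.of s.1)⁻¹) s.1

theorem tr_sh (ι : Bool → Fin n) (γ : FreeGroup (Fin n)) (x : X n) (v : FreeGroup (Fin n)) :
    tr ι (sh γ x) v = tr ι x (γ⁻¹ * v) := by
  funext ℓ
  simp only [tr, sh_apply]
  rw [node_mul]

theorem tr_sub (ι : Bool → Fin n) (x : X n) (v : FreeGroup (Fin n)) (j : Bool) :
    (fun ℓ => tr ι x v (j :: ℓ)) = tr ι x (v * (FreeGroup.of (ι j))⁻¹) := rfl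

theorem tr_nil (ι : Bool → Fin n) (x : X n) (v : FreeGroup (Fin n)) :
    tr ι x v [] = bit (x v) := rfl

theorem tr_one (ι : Bool → Fin n) (x : X n) (v : FreeGroup (Fin n)) (j : Bool) :
    tr ι x v [j] = bit (x (v * (FreeGroup.of (ι j))⁻¹)) := rfl

theorem ev_sh (ι : Bool → Fin n) (q : Fin n → Q) (ch : Bool → Q → Q → Q)
    (γ : FreeGroup (Fin n)) (x : X n) (v : FreeGroup (Fin n)) (i : Fin n) :
    ev ι q ch (sh γ x) v i = ev ι q ch x (γ⁻¹ * v) i := by
  unfold ev
  rw [tr_sh, sh_apply]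

theorem Phi_sh (ι : Bool → Fin n) (q : Fin n → Q) (ch : Bool → Q → Q → Q)
    (γ : FreeGroup (Fin n)) (x : X n) : Phi ι q ch (sh γ x) = sh γ (Phi ι q ch x) := by
  funext v s
  simp only [Phi, sh_apply]
  rw [ev_sh, ev_sh, mul_assoc]

theorem Phi_edge (ι : Bool → Fin n) (q : Fin n → Q) (ch : Bool → Q → Q → Q) (x : X n)
    (v : FreeGroup (Fin n)) (s : Fin n × Bool) :
    Phi ι q ch x v s = Phi ι q ch x (v * dir s) (opp s) := by
  obtain ⟨i, b⟩ := s
  cases b
  · simp [Phi, dir, opp]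
  · simp [Phi, dir, opp]

theorem Phi_conf {ι : Bool → Fin n} (hι : Function.Injective ι) (q : Fin n → Q)
    (ch : Bool → Q → Q → Q) (W : Bool → Set Q) (hq : ∀ b, q (ι b) ∈ W b)
    (hch : ∀ b, ∀ x₀ ∈ W false, ∀ x₁ ∈ W true, ch b x₀ x₁ ∈ W b) (x : X n)
    (v : FreeGroup (Fin n)) {k : ℕ} (h : ¬ Alive k (tr ι x v)) :
    ∃ b, ∃ x₀ ∈ W false, ∃ x₁ ∈ W true, Phi ι q ch x v = conf ι q b x₀ x₁ (ch b x₀ x₁) := by
  have hne : ι false ≠ ι true := fun h => by simpa using hι h
  have hin : ∀ j : Bool, (if tr ι x v [j] = j then V (fun b => q (ι b)) ch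
      (fun ℓ => tr ι x v (j :: ℓ)) else q (ι j)) =
      ev ι q ch x (v * (FreeGroup.of (ι j))⁻¹) (ι j) := by
    intro j
    unfold ev
    rw [tr_one, tr_sub]
    by_cases hj : bit (x (v * (FreeGroup.of (ι j))⁻¹)) = j
    · rw [if_pos hj, if_pos (by rw [hj])]
    · rw [if_neg hj, if_neg (fun h => hj (hι h).symm)]
  have hW : ∀ j : Bool, ev ι q ch x (v * (FreeGroup.of (ι j))⁻¹) (ι j) ∈ W j := by
    intro j
    unfold ev
    split_ifs with h1
    · have h2 := V_mem (fun b => q (ι b)) ch W hq hch (tr ι x (v * (FreeGroup.of (ι j))⁻¹))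
      rw [tr_nil, ← hι h1] at h2
      exact h2
    · exact hq j
  refine ⟨bit (x v), ev ι q ch x (v * (FreeGroup.of (ι false))⁻¹) (ι false), hW false,
    ev ι q ch x (v * (FreeGroup.of (ι true))⁻¹) (ι true), hW true, ?_⟩
  have hV := V_rec (fun b => q (ι b)) ch h
  rw [hin false, hin true, tr_nil] at hV
  funext s
  obtain ⟨i, b⟩ := s
  cases b
  · simp only [Phi, conf, Bool.false_eq_true, if_false]
    by_cases h0 : i = ι false
    · rw [if_pos h0, h0]
    · rw [if_neg h0]
      by_cases h1 : i = ι true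
      · rw [if_pos h1, h1]
      · rw [if_neg h1]
        unfold ev
        rw [if_neg]
        intro h2
        cases hb : bit (x (v * (FreeGroup.of i)⁻¹))
        · rw [hb] at h2
          exact h0 h2
        · rw [hb] at h2
          exact h1 h2
  · simp only [Phi, conf, if_true]
    conv_lhs => unfold ev
    by_cases h0 : i = ι (bit (x v))
    · rw [if_pos h0, if_pos h0, hV]
    · rw [if_neg h0, if_neg h0]

/-- a radius which codes the value at `1` -/
theorem Phi_codes (ι : Bool → Fin n) (q : Fin n → Q) (ch : Bool → Q → Q → Q) (x : X n) (k : ℕ)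
    (h1 : ¬ Alive k (tr ι x 1)) (h2 : ∀ j : Bool, ¬ Alive k (tr ι x (FreeGroup.of (ι j))⁻¹)) :
    Codes (Phi ι q ch) x (k + 1) := by
  intro y hy
  have htr : ∀ v : FreeGroup (Fin n), v.norm ≤ 1 → ∀ ℓ : List Bool, ℓ.length ≤ k →
      tr ι y v ℓ = tr ι x v ℓ := by
    intro v hv ℓ hℓ
    unfold tr
    rw [hy _ ((node_norm_le ι v ℓ).trans (by omega))]
  have hval : ∀ v : FreeGroup (Fin n), v.norm ≤ 1 → ¬ Alive k (tr ι x v) →
      V (fun b => q (ι b)) ch (tr ι y v) = V (fun b => q (ι b)) ch (tr ι x v) := by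
    intro v hv hd
    have hd' : ¬ Alive k (tr ι y v) := by
      rw [alive_local k (htr v hv)]
      exact hd
    rw [V_eq _ ch hd, V_eq _ ch hd', val_local _ ch k (htr v hv)]
  have hbit : ∀ v : FreeGroup (Fin n), v.norm ≤ 1 → bit (y v) = bit (x v) := by
    intro v hv
    rw [hy v (by omega)]
  have hgen : ∀ i : Fin n, ((FreeGroup.of i)⁻¹).norm ≤ 1 := by
    intro i
    rw [FreeGroup.norm_inv_eq, FreeGroup.norm_of]
  funext s
  obtain ⟨i, b⟩ := s
  cases b
  · simp only [Phi, Bool.false_eq_true, if_false, one_mul]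
    unfold ev
    rw [hbit _ (hgen i)]
    split_ifs with hi
    · apply hval _ (hgen i)
      rw [hi]
      exact h2 _
    · rfl
  · simp only [Phi, if_true]
    unfold ev
    rw [hbit 1 (by simp)]
    split_ifs with hi
    · exact hval 1 (by simp) h1
    · rfl

theorem measurableSet_ev [Finite Q] (ι : Bool → Fin n) (q : Fin n → Q) (ch : Bool → Q → Q → Q)
    (v : FreeGroup (Fin n)) (i : Fin n) (l : Q) : MeasurableSet {x : X n | ev ι q ch x v i = l} := by
  have h : {x : X n | ev ι q ch x v i = l} =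
      ({x | i = ι (bit (x v))} ∩ (fun x : X n => tr ι x v) ⁻¹' {y | V (fun b => q (ι b)) ch y = l}) ∪
        ({x | i = ι (bit (x v))}ᶜ ∩ {x | q i = l}) := by
    ext x
    simp only [ev, Set.mem_ofPred_eq, Set.mem_union, Set.mem_inter_iff, Set.mem_compl_iff,
      Set.mem_preimage]
    by_cases hi : i = ι (bit (x v))
    · rw [if_pos hi]
      tauto
    · rw [if_neg hi]
      tauto
  have h1 : MeasurableSet {x : X n | i = ι (bit (x v))} := by
    have h2 : {x : X n | i = ι (bit (x v))} =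
        (fun x : X n => bit (x v)) ⁻¹' {b | i = ι b} := rfl
    rw [h2]
    exact (measurable_bit.comp (measurable_pi_apply v)) MeasurableSet.of_discrete
  rw [h]
  refine MeasurableSet.union (h1.inter ?_) (h1.compl.inter ?_)
  · exact (measurable_tr ι v) (measurableSet_V _ ch l)
  · exact MeasurableSet.const _

theorem measurableSet_Phi [Finite Q] (ι : Bool → Fin n) (q : Fin n → Q) (ch : Bool → Q → Q → Q)
    (v : FreeGroup (Fin n)) (l : Fin n × Bool → Q) :
    MeasurableSet {x : X n | Phi ι q ch x v = l} := by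
  have h : {x : X n | Phi ι q ch x v = l} = ⋂ s, {x : X n | Phi ι q ch x v s = l s} := by
    ext x
    simp only [Set.mem_ofPred_eq, Set.mem_iInter]
    exact funext_iff
  rw [h]
  refine MeasurableSet.iInter fun s => ?_
  obtain ⟨i, b⟩ := s
  cases b
  · simp only [Phi, Bool.false_eq_true, if_false]
    exact measurableSet_ev ι q ch _ i _
  · simp only [Phi, if_true]
    exact measurableSet_ev ι q ch _ i _

theorem ae_dead {ι : Bool → Fin n} (hι : Function.Injective ι) :
    ∀ᵐ x ∂(mu n), ∀ v : FreeGroup (Fin n), ∃ k, ¬ Alive k (tr ι x v) := by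
  rw [ae_all_iff]
  intro v
  rw [ae_iff]
  have h1 : ∀ k : ℕ, (mu n).real {x | ¬ ∃ k, ¬ Alive k (tr ι x v)} ≤ 4 / (k + 4) := by
    intro k
    refine le_trans ?_ (real_alive_le hι v k)
    refine measureReal_mono (fun x hx => ?_) (measure_ne_top _ _)
    simp only [Set.mem_ofPred_eq, not_exists, not_not] at hx ⊢
    exact hx k
  have h2 : (mu n).real {x | ¬ ∃ k, ¬ Alive k (tr ι x v)} ≤ 0 := by
    have h3 : Filter.Tendsto (fun k : ℕ => (4 : ℝ) / (k + 4)) Filter.atTop (nhds 0) := by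
      have h4 := (tendsto_const_div_atTop_nhds_zero_nat (4 : ℝ)).comp (Filter.tendsto_add_atTop_nat 4)
      refine h4.congr fun k => ?_
      simp
    exact ge_of_tendsto' h3 h1
  have h3 : (mu n).real {x | ¬ ∃ k, ¬ Alive k (tr ι x v)} = 0 := le_antisymm h2 measureReal_nonneg
  rwa [measureReal_eq_zero_iff] at h3

theorem crit [Finite Q] (C : Set (Fin n × Bool → Q)) (ι : Bool → Fin n)
    (hι : Function.Injective ι) (W : Bool → Set Q) (q : Fin n → Q) (hq : ∀ b, q (ι b) ∈ W b)
    (h : ∀ b, ∀ x₀ ∈ W false, ∀ x₁ ∈ W true, ∃ y ∈ W b, conf ι q b x₀ x₁ y ∈ C) :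
    ∃ Φ, IsFactor (edgeLCL n Q C) Φ ∧
      ∀ r : ℕ, 1 ≤ r → (mu n) {x | ¬ Codes Φ x r} ≤ ENNReal.ofReal (12 / r) := by
  classical
  have hch : ∃ ch : Bool → Q → Q → Q, ∀ b, ∀ x₀ ∈ W false, ∀ x₁ ∈ W true,
      ch b x₀ x₁ ∈ W b ∧ conf ι q b x₀ x₁ (ch b x₀ x₁) ∈ C := by
    refine ⟨fun b x₀ x₁ => if h' : x₀ ∈ W false ∧ x₁ ∈ W true then
      (h b x₀ h'.1 x₁ h'.2).choose else x₀, fun b x₀ h0 x₁ h1 => ?_⟩
    simp only
    rw [dif_pos ⟨h0, h1⟩]
    exact (h b x₀ h0 x₁ h1).choose_spec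
  obtain ⟨ch, hch⟩ := hch
  refine ⟨Phi ι q ch, ⟨measurableSet_Phi ι q ch, Phi_sh ι q ch, ?_⟩, ?_⟩
  · filter_upwards [ae_dead hι] with x hx
    refine edgeLCL_solves.2 fun v => ⟨?_, Phi_edge ι q ch x v⟩
    obtain ⟨k, hk⟩ := hx v
    obtain ⟨b, x₀, h0, x₁, h1, h2⟩ := Phi_conf hι q ch W hq
      (fun b x₀ h0 x₁ h1 => (hch b x₀ h0 x₁ h1).1) x v hk
    rw [h2]
    exact (hch b x₀ h0 x₁ h1).2
  · intro r hr
    obtain ⟨k, rfl⟩ := Nat.exists_eq_add_of_le' hr
    have h1 : {x : X n | ¬ Codes (Phi ι q ch) x (k + 1)} ⊆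
        {x | Alive k (tr ι x 1)} ∪ {x | Alive k (tr ι x (FreeGroup.of (ι false))⁻¹)} ∪
          {x | Alive k (tr ι x (FreeGroup.of (ι true))⁻¹)} := by
      intro x hx
      by_contra hcon
      simp only [Set.mem_union, Set.mem_ofPred_eq, not_or] at hcon
      apply hx
      apply Phi_codes ι q ch x k hcon.1.1
      intro j
      cases j
      · exact hcon.1.2
      · exact hcon.2
    have h2 : ∀ v : FreeGroup (Fin n), (mu n) {x | Alive k (tr ι x v)} ≤
        ENNReal.ofReal (4 / (k + 4)) := by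
      intro v
      rw [← ofReal_measureReal]
      exact ENNReal.ofReal_le_ofReal (real_alive_le hι v k)
    calc (mu n) {x | ¬ Codes (Phi ι q ch) x (k + 1)}
        ≤ ENNReal.ofReal (4 / (k + 4)) + ENNReal.ofReal (4 / (k + 4)) +
          ENNReal.ofReal (4 / (k + 4)) := by
          refine (measure_mono h1).trans ((measure_union_le _ _).trans ?_)
          refine add_le_add ((measure_union_le _ _).trans ?_) (h2 _)
          exact add_le_add (h2 _) (h2 _)
      _ = ENNReal.ofReal (12 / (k + 4)) := by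
          rw [← ENNReal.ofReal_add (by positivity) (by positivity),
            ← ENNReal.ofReal_add (by positivity) (by positivity)]
          congr 1
          ring
      _ ≤ ENNReal.ofReal (12 / ((k + 1 : ℕ) : ℝ)) := by
          apply ENNReal.ofReal_le_ofReal
          push_cast
          apply div_le_div_of_nonneg_left (by norm_num) (by positivity)
          linarith

theorem ffiid_of_tail {L : LCL n} {Φ : X n → FreeGroup (Fin n) → L.L} (hΦ : IsFactor L Φ)
    (h : ∀ r : ℕ, 1 ≤ r → (mu n) {x | ¬ Codes Φ x r} ≤ ENNReal.ofReal (12 / r)) : FFIID L := by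
  refine ⟨Φ, hΦ, ?_⟩
  rw [ae_iff]
  have h1 : ∀ r : ℕ, 1 ≤ r → (mu n) {x | ¬ ∃ R, Codes Φ x R} ≤ ENNReal.ofReal (12 / r) := by
    intro r hr
    refine le_trans (measure_mono ?_) (h r hr)
    intro x hx hc
    exact hx ⟨r, hc⟩
  have h2 : Filter.Tendsto (fun r : ℕ => ENNReal.ofReal ((12 : ℝ) / r)) Filter.atTop (nhds 0) := by
    have h3 := (ENNReal.continuous_ofReal.tendsto 0).comp
      (tendsto_const_div_atTop_nhds_zero_nat (12 : ℝ))
    rwa [ENNReal.ofReal_zero] at h3
  refine le_antisymm ?_ bot_le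
  refine ge_of_tendsto h2 ?_
  filter_upwards [Filter.eventually_ge_atTop 1] with r hr
  exact h1 r hr

end Pool.Agent.FF891
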