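import Mathlib

/-!
# FF891.Emb: every finitely generated free group embeds in every free group of rank at least two

Ping-pong for the elements `b^i a b^(-i)` of the free group on `a, b`, acting on the group itself.
-/

set_option autoImplicit false

namespace Pool.Agent.FF891

/-- the first letter of the reduced word -/
def hd {n : ℕ} (g : FreeGroup (Fin n)) : Option (Fin n × Bool) := g.toWord.head?

theorem hd_cons {n : ℕ} (x : Fin n × Bool) (g : FreeGroup (Fin n)) (h : hd g ≠ some (x.1, !x.2)) :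
    hd (FreeGroup.mk [x] * g) = some x := by
  unfold hd at h ⊢
  have h1 : (FreeGroup.mk [x] * g).toWord = FreeGroup.reduce (x :: g.toWord) := by
    rw [FreeGroup.toWord_mul, FreeGroup.toWord_mk, FreeGroup.reduce_singleton, List.singleton_append]
  rw [h1, FreeGroup.reduce.cons, FreeGroup.reduce_toWord]
  cases hw : g.toWord with
  | nil => rfl
  | cons y tl =>
    rw [hw] at h
    have h2 : ¬ (x.1 = y.1 ∧ x.2 = !y.2) := by
      rintro ⟨h3, h4⟩
      apply h
      rw [List.head?_cons, h3, h4, Bool.not_not]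
    show (if x.1 = y.1 ∧ x.2 = !y.2 then tl else x :: y :: tl).head? = some x
    rw [if_neg h2, List.head?_cons]

theorem mk_true {n : ℕ} (i : Fin n) : FreeGroup.mk [(i, true)] = FreeGroup.of i := rfl

theorem mk_false {n : ℕ} (i : Fin n) : FreeGroup.mk [(i, false)] = (FreeGroup.of i)⁻¹ := by
  rw [FreeGroup.of, FreeGroup.inv_mk]
  rfl

theorem hd_pow (g : FreeGroup (Fin 2)) (s : Bool) (h : hd g = some (0, s)) (k : ℕ) :
    hd (FreeGroup.of 1 ^ (k + 1) * g) = some (1, true) := by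
  induction k with
  | zero =>
    rw [zero_add, pow_one, ← mk_true]
    apply hd_cons
    rw [h]
    intro h1
    simp at h1
  | succ k ih =>
    rw [pow_succ', mul_assoc]
    nth_rewrite 1 [← mk_true]
    apply hd_cons
    rw [ih]
    intro h1
    simp at h1

/-- the elements `b^i a b^(-i)` -/
def gen (k : ℕ) (i : Fin k) : FreeGroup (Fin 2) :=
  FreeGroup.of 1 ^ (i : ℕ) * FreeGroup.of 0 * (FreeGroup.of 1 ^ (i : ℕ))⁻¹

theorem hd_ne {k : ℕ} {i j : Fin k} (hij : i ≠ j) (g : FreeGroup (Fin 2)) {s s' : Bool}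
    (h : hd ((FreeGroup.of 1 ^ (i : ℕ))⁻¹ * g) = some (0, s))
    (h' : hd ((FreeGroup.of 1 ^ (j : ℕ))⁻¹ * g) = some (0, s')) : False := by
  have key : ∀ (i j : Fin k) (s s' : Bool), i < j →
      hd ((FreeGroup.of 1 ^ (i : ℕ))⁻¹ * g) = some (0, s) →
      hd ((FreeGroup.of 1 ^ (j : ℕ))⁻¹ * g) = some (0, s') → False := by
    intro i j s s' hlt h h'
    obtain ⟨d, hd1⟩ : ∃ d : ℕ, (j : ℕ) = i + (d + 1) :=
      ⟨(j : ℕ) - i - 1, by have : (i : ℕ) < j := hlt; omega⟩
    have h1 := hd_pow _ s' h' d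
    have h2 : FreeGroup.of 1 ^ (d + 1) * ((FreeGroup.of 1 ^ (j : ℕ))⁻¹ * g) =
        (FreeGroup.of 1 ^ (i : ℕ))⁻¹ * g := by
      rw [hd1, pow_add (FreeGroup.of (1 : Fin 2)) (i : ℕ) (d + 1)]
      group
    rw [h2, h] at h1
    simp at h1
  rcases lt_or_gt_of_ne hij with hlt | hlt
  · exact key i j s s' hlt h h'
  · exact key j i s' s hlt h' h

theorem gen_injective (k : ℕ) [Nontrivial (Fin k)] :
    Function.Injective (FreeGroup.lift (gen k)) := by
  let X : Fin k → Set (FreeGroup (Fin 2)) := fun i =>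
    {g | hd ((FreeGroup.of 1 ^ (i : ℕ))⁻¹ * g) = some (0, true)}
  let Y : Fin k → Set (FreeGroup (Fin 2)) := fun i =>
    {g | hd ((FreeGroup.of 1 ^ (i : ℕ))⁻¹ * g) = some (0, false)}
  refine FreeGroup.injective_lift_of_ping_pong (gen k) X Y ?_ ?_ ?_ ?_ ?_ ?_
  · intro i
    refine ⟨FreeGroup.of 1 ^ (i : ℕ) * FreeGroup.of 0, ?_⟩
    show hd ((FreeGroup.of 1 ^ (i : ℕ))⁻¹ * (FreeGroup.of 1 ^ (i : ℕ) * FreeGroup.of 0)) = _
    rw [inv_mul_cancel_left, hd, FreeGroup.toWord_of]
    rfl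
  · intro i j hij
    rw [Function.onFun, Set.disjoint_left]
    intro g hg hg'
    exact hd_ne hij g hg hg'
  · intro i j hij
    rw [Function.onFun, Set.disjoint_left]
    intro g hg hg'
    exact hd_ne hij g hg hg'
  · intro i j
    rw [Set.disjoint_left]
    intro g hg hg'
    by_cases hij : i = j
    · subst hij
      have h1 : some ((0 : Fin 2), true) = some (0, false) := hg.symm.trans hg'
      simp at h1
    · exact hd_ne hij g hg hg'
  · intro i
    rintro _ ⟨g, hg, rfl⟩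
    show hd ((FreeGroup.of 1 ^ (i : ℕ))⁻¹ * (gen k i * g)) = some (0, true)
    have h1 : (FreeGroup.of 1 ^ (i : ℕ))⁻¹ * (gen k i * g) =
        FreeGroup.mk [(0, true)] * ((FreeGroup.of 1 ^ (i : ℕ))⁻¹ * g) := by
      rw [mk_true, gen]
      group
    rw [h1]
    exact hd_cons _ _ hg
  · intro i
    rintro _ ⟨g, hg, rfl⟩
    show hd ((FreeGroup.of 1 ^ (i : ℕ))⁻¹ * ((gen k i)⁻¹ * g)) = some (0, false)
    have h1 : (FreeGroup.of 1 ^ (i : ℕ))⁻¹ * ((gen k i)⁻¹ * g) =
        FreeGroup.mk [(0, false)] * ((FreeGroup.of 1 ^ (i : ℕ))⁻¹ * g) := by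
      rw [mk_false, gen]
      group
    rw [h1]
    exact hd_cons _ _ hg

theorem exists_emb (n m : ℕ) (hm : 2 ≤ m) :
    ∃ ι : FreeGroup (Fin n) →* FreeGroup (Fin m), Function.Injective ι := by
  have h1 : Function.Injective (FreeGroup.map (Fin.castLE (Nat.le_add_right n 2))) :=
    FreeGroup.map_injective (Fin.castLE_injective _)
  have h2 := gen_injective (n + 2)
  have h3 : Function.Injective (FreeGroup.map (Fin.castLE hm)) :=
    FreeGroup.map_injective (Fin.castLE_injective _)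
  exact ⟨((FreeGroup.map (Fin.castLE hm)).comp (FreeGroup.lift (gen (n + 2)))).comp
    (FreeGroup.map (Fin.castLE (Nat.le_add_right n 2))), (h3.comp h2).comp h1⟩

end Pool.Agent.FF891
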