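import Pool.Agent.FF891.Odd
import Pool.Agent.FF891.Emb

/-!
# FF891.Sph: the function `r ^ (-|g|)` and the sums over balls

If `2 n - 1 ≤ r ^ 2` and `1 ≤ r`, the sum of `r ^ (-|s g|)` over the elements `s` of the ball of radius `k` is at most
`2 (k + 1) ^ 2 r ^ k r ^ (-|g|)`.
-/

set_option autoImplicit false

namespace Pool.Agent.FF891

variable {n : ℕ}

theorem dir_opp (a : Fin n × Bool) : dir (opp a) = (dir a)⁻¹ := by
  obtain ⟨i, b⟩ := a
  cases b
  · simp [dir, opp]
  · simp [dir, opp]

theorem dir_opp_mul (a : Fin n × Bool) (g : FreeGroup (Fin n)) : dir a * (dir (opp a) * g) = g := by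
  rw [dir_opp, mul_inv_cancel_left]

theorem step_word (x : Fin n × Bool) (g : FreeGroup (Fin n)) :
    (dir x * g).toWord = FreeGroup.reduce (x :: g.toWord) := by
  rw [dir_eq_mk, FreeGroup.toWord_mul, FreeGroup.toWord_mk, FreeGroup.reduce_singleton,
    List.singleton_append]

theorem hd_step {a : Fin n × Bool} {g : FreeGroup (Fin n)} (h : hd g ≠ some a) :
    hd (dir (opp a) * g) = some (opp a) := by
  rw [dir_eq_mk]
  apply hd_cons
  change hd g ≠ some (opp (opp a))
  rwa [opp_opp]

theorem norm_fwd {a : Fin n × Bool} {g : FreeGroup (Fin n)} (h : hd g ≠ some a) :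
    (dir (opp a) * g).norm = g.norm + 1 := by
  unfold FreeGroup.norm
  rw [step_word, FreeGroup.reduce.cons, FreeGroup.reduce_toWord]
  unfold hd at h
  cases hw : g.toWord with
  | nil => rfl
  | cons y tl =>
    rw [hw, List.head?_cons] at h
    have h2 : ¬ ((opp a).1 = y.1 ∧ (opp a).2 = !y.2) := by
      rintro ⟨h3, h4⟩
      apply h
      congr 1
      refine Prod.ext h3.symm ?_
      have h4' : (!a.2) = !y.2 := h4
      exact (Bool.not_inj h4').symm
    show (if (opp a).1 = y.1 ∧ (opp a).2 = !y.2 then tl else opp a :: y :: tl).length = _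
    rw [if_neg h2]
    simp

theorem norm_bwd {a : Fin n × Bool} {g : FreeGroup (Fin n)} (h : hd g = some a) :
    (dir (opp a) * g).norm + 1 = g.norm := by
  unfold FreeGroup.norm
  rw [step_word, FreeGroup.reduce.cons, FreeGroup.reduce_toWord]
  unfold hd at h
  cases hw : g.toWord with
  | nil =>
    rw [hw] at h
    simp at h
  | cons y tl =>
    rw [hw, List.head?_cons] at h
    have h1 : y = a := Option.some_injective _ h
    subst h1
    have h2 : (opp y).1 = y.1 ∧ (opp y).2 = !y.2 := ⟨rfl, rfl⟩
    show (if (opp y).1 = y.1 ∧ (opp y).2 = !y.2 then tl else opp y :: y :: tl).length + 1 = _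
    rw [if_pos h2]
    simp

theorem hd_ne_of_bwd {a : Fin n × Bool} {g : FreeGroup (Fin n)} (h : hd g = some a) :
    hd (dir (opp a) * g) ≠ some (opp a) := by
  intro h1
  have h2 := norm_bwd h1
  rw [opp_opp, dir_opp_mul] at h2
  have h3 := norm_bwd h
  omega

/-- the sum over all reduced words of length `i` which do not start with `t` -/
noncomputable def Hs (r : ℝ) : ℕ → FreeGroup (Fin n) → Option (Fin n × Bool) → ℝ
  | 0, g, _ => r⁻¹ ^ g.norm
  | (i + 1), g, t => ∑ a ∈ Finset.univ.filter (fun a => some a ≠ t),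
      Hs r i (dir (opp a) * g) (some (opp a))

theorem Hs_succ (r : ℝ) (i : ℕ) (g : FreeGroup (Fin n)) (t : Option (Fin n × Bool)) :
    Hs r (i + 1) g t = ∑ a ∈ Finset.univ.filter (fun a => some a ≠ t),
      Hs r i (dir (opp a) * g) (some (opp a)) := rfl

theorem Hs_zero (r : ℝ) (g : FreeGroup (Fin n)) (t : Option (Fin n × Bool)) :
    Hs r 0 g t = r⁻¹ ^ g.norm := rfl

theorem Hs_nonneg {r : ℝ} (hr : 1 ≤ r) (i : ℕ) (g : FreeGroup (Fin n)) (t : Option (Fin n × Bool)) :
    0 ≤ Hs r i g t := by
  induction i generalizing g t with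
  | zero =>
    rw [Hs_zero]
    positivity
  | succ i ih =>
    rw [Hs_succ]
    exact Finset.sum_nonneg fun a _ => ih _ _

theorem card_filter_some (b : Fin n × Bool) :
    ((Finset.univ.filter (fun a : Fin n × Bool => some a ≠ some b)).card : ℝ) = 2 * n - 1 := by
  classical
  have h1 : Finset.univ.filter (fun a : Fin n × Bool => some a ≠ some b) =
      Finset.univ.erase b := by
    ext a
    simp
  rw [h1, Finset.card_erase_of_mem (Finset.mem_univ b), Finset.card_univ, Fintype.card_prod,
    Fintype.card_fin, Fintype.card_bool]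
  have h2 : 1 ≤ n * 2 := by
    have := b.1.pos
    omega
  push_cast [Nat.cast_sub h2]
  ring

theorem Hs_fwd {r : ℝ} (hr : 1 ≤ r) (hq : (2 * n - 1 : ℝ) ≤ r ^ 2) (i : ℕ)
    (g : FreeGroup (Fin n)) (b : Fin n × Bool) (h : ∀ a, hd g = some a → a = b) :
    Hs r i g (some b) ≤ r ^ i * r⁻¹ ^ g.norm := by
  induction i generalizing g b with
  | zero => rw [Hs_zero, pow_zero, one_mul]
  | succ i ih =>
    rw [Hs_succ]
    have h0 : 0 < r := by linarith
    calc ∑ a ∈ Finset.univ.filter (fun a => some a ≠ some b),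
          Hs r i (dir (opp a) * g) (some (opp a))
        ≤ ∑ _a ∈ Finset.univ.filter (fun a => some a ≠ some b),
          r ^ i * r⁻¹ ^ (g.norm + 1) := by
          refine Finset.sum_le_sum fun a ha => ?_
          have ha' : hd g ≠ some a := by
            intro h1
            rw [Finset.mem_filter] at ha
            exact ha.2 (congrArg some (h a h1))
          have h1 := ih (dir (opp a) * g) (opp a) (fun c hc => by
            rw [hd_step ha'] at hc
            exact (Option.some_injective _ hc).symm)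
          rwa [norm_fwd ha'] at h1
      _ = (2 * n - 1) * (r ^ i * r⁻¹ ^ (g.norm + 1)) := by
          rw [Finset.sum_const, nsmul_eq_mul, card_filter_some]
      _ ≤ r ^ 2 * (r ^ i * r⁻¹ ^ (g.norm + 1)) := by gcongr
      _ = r ^ (i + 1) * r⁻¹ ^ g.norm := by
          rw [pow_succ r⁻¹]
          field_simp
          rw [pow_succ]
          ring

theorem Hs_le {r : ℝ} (hn : 1 ≤ n) (hr : 1 ≤ r) (hq : (2 * n - 1 : ℝ) ≤ r ^ 2) (i : ℕ)
    (g : FreeGroup (Fin n)) (t : Option (Fin n × Bool)) :
    Hs r i g t ≤ 2 * (i + 1) * (r ^ i * r⁻¹ ^ g.norm) := by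
  classical
  induction i generalizing g t with
  | zero =>
    rw [Hs_zero, pow_zero, one_mul]
    have : 0 ≤ r⁻¹ ^ g.norm := by positivity
    push_cast
    linarith
  | succ i ih =>
    rw [Hs_succ]
    have h0 : 0 < r := by linarith
    have hn' : (1 : ℝ) ≤ n := by exact_mod_cast hn
    -- bound of each term
    have hterm : ∀ a : Fin n × Bool, Hs r i (dir (opp a) * g) (some (opp a)) ≤
        r ^ i * r⁻¹ ^ (g.norm + 1) +
          if hd g = some a then 2 * (i + 1) * (r ^ (i + 1) * r⁻¹ ^ g.norm) else 0 := by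
      intro a
      by_cases ha : hd g = some a
      · rw [if_pos ha]
        have h1 := ih (dir (opp a) * g) (some (opp a))
        have h2 : r⁻¹ ^ (dir (opp a) * g).norm = r * r⁻¹ ^ g.norm := by
          rw [← norm_bwd ha, pow_succ]
          field_simp
        rw [h2] at h1
        have h3 : 0 ≤ r ^ i * r⁻¹ ^ (g.norm + 1) := by positivity
        have h4 : 2 * ((i : ℝ) + 1) * (r ^ i * (r * r⁻¹ ^ g.norm)) =
            2 * (i + 1) * (r ^ (i + 1) * r⁻¹ ^ g.norm) := by
          rw [pow_succ]
          ring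
        linarith
      · rw [if_neg ha, add_zero]
        have h1 := Hs_fwd hr hq i (dir (opp a) * g) (opp a) (fun c hc => by
          rw [hd_step ha] at hc
          exact (Option.some_injective _ hc).symm)
        rwa [norm_fwd ha] at h1
    calc ∑ a ∈ Finset.univ.filter (fun a => some a ≠ t),
          Hs r i (dir (opp a) * g) (some (opp a))
        ≤ ∑ a : Fin n × Bool, Hs r i (dir (opp a) * g) (some (opp a)) :=
          Finset.sum_le_sum_of_subset_of_nonneg (Finset.filter_subset _ _)
            fun a _ _ => Hs_nonneg hr _ _ _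
      _ ≤ ∑ a : Fin n × Bool, (r ^ i * r⁻¹ ^ (g.norm + 1) +
          if hd g = some a then 2 * (i + 1) * (r ^ (i + 1) * r⁻¹ ^ g.norm) else 0) :=
          Finset.sum_le_sum fun a _ => hterm a
      _ ≤ 2 * n * (r ^ i * r⁻¹ ^ (g.norm + 1)) +
            2 * (i + 1) * (r ^ (i + 1) * r⁻¹ ^ g.norm) := by
          rw [Finset.sum_add_distrib]
          gcongr
          · rw [Finset.sum_const, nsmul_eq_mul, Finset.card_univ, Fintype.card_prod,
              Fintype.card_fin, Fintype.card_bool]
            push_cast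
            rw [mul_comm (n : ℝ) 2]
          · rcases h : hd g with _ | b
            · simp only [reduceCtorEq, if_false, Finset.sum_const_zero]
              positivity
            · have h5 : ∀ a : Fin n × Bool, (some b = some a) = (a = b) := by
                intro a
                simp [eq_comm]
              simp only [h5, Finset.sum_ite_eq', Finset.mem_univ, if_true]
              exact le_rfl
      _ ≤ 2 * (r ^ (i + 1) * r⁻¹ ^ g.norm) + 2 * (i + 1) * (r ^ (i + 1) * r⁻¹ ^ g.norm) := by
          have h6 : 2 * (n : ℝ) * (r ^ i * r⁻¹ ^ (g.norm + 1)) ≤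
              2 * r ^ 2 * (r ^ i * r⁻¹ ^ (g.norm + 1)) := by
            gcongr
            linarith
          have h7 : 2 * r ^ 2 * (r ^ i * r⁻¹ ^ (g.norm + 1)) =
              2 * (r ^ (i + 1) * r⁻¹ ^ g.norm) := by
            rw [pow_succ r⁻¹]
            field_simp
            rw [pow_succ]
            ring
          linarith
      _ = 2 * (((i + 1 : ℕ) : ℝ) + 1) * (r ^ (i + 1) * r⁻¹ ^ g.norm) := by
          push_cast
          ring

theorem sum_le_Hs {r : ℝ} (hr : 1 ≤ r) (i : ℕ) (g : FreeGroup (Fin n)) (t : Option (Fin n × Bool))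
    (F : Finset (FreeGroup (Fin n))) (hF : ∀ u ∈ F, u.norm = i ∧ (i = 0 ∨ hd u ≠ t)) :
    ∑ u ∈ F, r⁻¹ ^ (u⁻¹ * g).norm ≤ Hs r i g t := by
  classical
  induction i generalizing g t F with
  | zero =>
    rw [Hs_zero]
    have h1 : F ⊆ {1} := by
      intro u hu
      rw [Finset.mem_singleton]
      exact FreeGroup.norm_eq_zero.1 (hF u hu).1
    calc ∑ u ∈ F, r⁻¹ ^ (u⁻¹ * g).norm ≤ ∑ u ∈ ({1} : Finset (FreeGroup (Fin n))),
          r⁻¹ ^ (u⁻¹ * g).norm :=
          Finset.sum_le_sum_of_subset_of_nonneg h1 fun _ _ _ => by positivity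
      _ = r⁻¹ ^ g.norm := by simp
  | succ i ih =>
    rw [Hs_succ]
    have hex : ∀ u ∈ F, ∃ a, hd u = some a := by
      intro u hu
      have h1 := (hF u hu).1
      unfold hd
      cases hw : u.toWord with
      | nil =>
        rw [FreeGroup.norm, hw] at h1
        simp at h1
      | cons y tl => exact ⟨y, rfl⟩
    have hsplit : ∑ u ∈ F, r⁻¹ ^ (u⁻¹ * g).norm =
        ∑ a : Fin n × Bool, ∑ u ∈ F.filter (fun u => hd u = some a), r⁻¹ ^ (u⁻¹ * g).norm := by
      rw [Finset.sum_comm' (t' := F) (s' := fun u => Finset.univ.filter fun a => hd u = some a)]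
      · refine Finset.sum_congr rfl fun u hu => ?_
        obtain ⟨a, ha⟩ := hex u hu
        have h2 : Finset.univ.filter (fun b : Fin n × Bool => hd u = some b) = {a} := by
          ext b
          rw [Finset.mem_filter, Finset.mem_singleton, ha]
          constructor
          · rintro ⟨_, h⟩
            exact (Option.some_injective _ h).symm
          · rintro rfl
            exact ⟨Finset.mem_univ _, rfl⟩
        rw [h2, Finset.sum_singleton]
      · intro a u
        simp only [Finset.mem_univ, Finset.mem_filter, true_and]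
        tauto
    rw [hsplit]
    have hsub : ∑ a : Fin n × Bool, ∑ u ∈ F.filter (fun u => hd u = some a),
        r⁻¹ ^ (u⁻¹ * g).norm = ∑ a ∈ Finset.univ.filter (fun a => some a ≠ t),
          ∑ u ∈ F.filter (fun u => hd u = some a), r⁻¹ ^ (u⁻¹ * g).norm := by
      symm
      refine Finset.sum_subset (Finset.filter_subset _ _) fun a _ ha => ?_
      have h3 : some a = t := by
        by_contra h4
        exact ha (Finset.mem_filter.2 ⟨Finset.mem_univ _, h4⟩)
      have h5 : F.filter (fun u => hd u = some a) = ∅ := by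
        rw [Finset.filter_eq_empty_iff]
        intro u hu h6
        rcases (hF u hu).2 with h7 | h7
        · omega
        · exact h7 (h6.trans h3)
      rw [h5, Finset.sum_empty]
    rw [hsub]
    refine Finset.sum_le_sum fun a _ => ?_
    have himg : ∑ u ∈ F.filter (fun u => hd u = some a), r⁻¹ ^ (u⁻¹ * g).norm =
        ∑ v ∈ (F.filter (fun u => hd u = some a)).image (fun u => dir (opp a) * u),
          r⁻¹ ^ (v⁻¹ * (dir (opp a) * g)).norm := by
      rw [Finset.sum_image]
      · refine Finset.sum_congr rfl fun u _ => ?_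
        congr 2
        group
      · intro u _ v _ h
        exact mul_left_cancel h
    rw [himg]
    refine ih _ _ _ fun v hv => ?_
    rw [Finset.mem_image] at hv
    obtain ⟨u, hu, rfl⟩ := hv
    rw [Finset.mem_filter] at hu
    have h8 := norm_bwd hu.2
    have h9 := (hF u hu.1).1
    exact ⟨by omega, Or.inr (hd_ne_of_bwd hu.2)⟩

/-- the ball of radius `k` as a finite set -/
noncomputable def ball (n k : ℕ) : Finset (FreeGroup (Fin n)) := (finite_ball n k).toFinset

theorem mem_ball {k : ℕ} {g : FreeGroup (Fin n)} : g ∈ ball n k ↔ g.norm ≤ k := by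
  unfold ball
  rw [Set.Finite.mem_toFinset]
  rfl

theorem inv_mem_ball {k : ℕ} {g : FreeGroup (Fin n)} (h : g ∈ ball n k) : g⁻¹ ∈ ball n k := by
  rw [mem_ball] at h ⊢
  rwa [FreeGroup.norm_inv_eq]

/-- the main bound -/
theorem sum_ball_le {r : ℝ} (hn : 1 ≤ n) (hr : 1 ≤ r) (hq : (2 * n - 1 : ℝ) ≤ r ^ 2) (k : ℕ)
    (g : FreeGroup (Fin n)) :
    ∑ s ∈ ball n k, r⁻¹ ^ (s * g).norm ≤ 2 * (k + 1) ^ 2 * r ^ k * r⁻¹ ^ g.norm := by
  classical
  have h0 : 0 < r := by linarith
  have h1 : ∑ s ∈ ball n k, r⁻¹ ^ (s * g).norm = ∑ s ∈ ball n k, r⁻¹ ^ (s⁻¹ * g).norm := by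
    refine Finset.sum_bij (fun s _ => s⁻¹) (fun s hs => inv_mem_ball hs)
      (fun s _ t _ h => inv_injective h) (fun s hs => ⟨s⁻¹, inv_mem_ball hs, inv_inv s⟩) ?_
    intro s _
    rw [inv_inv]
  have h2 : ∑ s ∈ ball n k, r⁻¹ ^ (s⁻¹ * g).norm =
      ∑ i ∈ Finset.range (k + 1), ∑ s ∈ (ball n k).filter (fun s => s.norm = i),
        r⁻¹ ^ (s⁻¹ * g).norm := by
    symm
    refine Finset.sum_fiberwise_of_maps_to (fun s hs => ?_) _
    rw [mem_ball] at hs
    rw [Finset.mem_range]
    omega
  rw [h1, h2]
  calc ∑ i ∈ Finset.range (k + 1), ∑ s ∈ (ball n k).filter (fun s => s.norm = i),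
        r⁻¹ ^ (s⁻¹ * g).norm
      ≤ ∑ i ∈ Finset.range (k + 1), 2 * (k + 1) * (r ^ k * r⁻¹ ^ g.norm) := by
        refine Finset.sum_le_sum fun i hi => ?_
        have h3 := sum_le_Hs hr i g none ((ball n k).filter (fun s => s.norm = i)) (fun u hu => by
          rw [Finset.mem_filter] at hu
          refine ⟨hu.2, ?_⟩
          by_cases hi0 : i = 0
          · exact Or.inl hi0
          · right
            unfold hd
            cases hw : u.toWord with
            | nil =>
              have := hu.2
              rw [FreeGroup.norm, hw] at this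
              simp at this
              omega
            | cons y tl => simp)
        have h4 := Hs_le hn hr hq i g none
        have hi' : i ≤ k := by
          rw [Finset.mem_range] at hi
          omega
        have h5 : 2 * ((i : ℝ) + 1) * (r ^ i * r⁻¹ ^ g.norm) ≤
            2 * (k + 1) * (r ^ k * r⁻¹ ^ g.norm) := by
          gcongr
        linarith
    _ = 2 * (k + 1) ^ 2 * r ^ k * r⁻¹ ^ g.norm := by
        rw [Finset.sum_const, Finset.card_range, nsmul_eq_mul]
        push_cast
        ring

end Pool.Agent.FF891
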