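import Pool.Agent.FF891.Spec
import Pool.Agent.FF891.Sph

/-!
# FF891.Cyl: small sets in Bernoulli shifts over free groups

If `2 n - 1 ≤ r ^ 2`, `1 ≤ r`, `1 ≤ n`, every measurable set `D` of the Bernoulli shift satisfies
`∑_{|s| ≤ k} ν (D ∩ s⁻¹ D) ≤ Λ (ν D - (ν D) ^ 2) + b (ν D) ^ 2` with `Λ = 2 (k + 1) ^ 2 r ^ k`, `b` the size of the ball.
-/

set_option autoImplicit false

open MeasureTheory ProbabilityTheory
open scoped symmDiff

namespace Pool.Agent.FF891

variable {n : ℕ} {Ω : Type} [MeasurableSpace Ω] (P : Measure Ω) [IsProbabilityMeasure P]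

/-- product measures on labellings of the free group -/
noncomputable def nu (n : ℕ) (P : Measure Ω) [IsProbabilityMeasure P] :
    Measure (FreeGroup (Fin n) → Ω) :=
  Measure.infinitePi (fun _ : FreeGroup (Fin n) => P)

instance : IsProbabilityMeasure (nu n P) := by
  unfold nu
  infer_instance

theorem mps (γ : FreeGroup (Fin n)) :
    MeasurePreserving (sh γ : (FreeGroup (Fin n) → Ω) → (FreeGroup (Fin n) → Ω)) (nu n P)
      (nu n P) := by
  refine ⟨?_, ?_⟩
  · refine measurable_pi_lambda _ fun δ => ?_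
    exact measurable_pi_apply (γ⁻¹ * δ)
  · exact Measure.map_infinitePi_infinitePi_of_inj (f := fun δ => γ⁻¹ * δ)
      (mul_right_injective γ⁻¹)

omit [MeasurableSpace Ω] in
theorem sh_mul (g h : FreeGroup (Fin n)) (w : FreeGroup (Fin n) → Ω) :
    sh g (sh h w) = sh (g * h) w := by
  funext δ
  simp only [sh_apply, mul_inv_rev, mul_assoc]

omit [MeasurableSpace Ω] in
theorem sh_id (w : FreeGroup (Fin n) → Ω) : sh 1 w = w := by
  funext δ
  simp only [sh_apply, inv_one, one_mul]

/-- independence of far translates of cylinders -/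
theorem cyl_indep {K : Finset (FreeGroup (Fin n))} {S : Set ((i : K) → Ω)} (hS : MeasurableSet S)
    {g : FreeGroup (Fin n)} (hg : ∀ a ∈ K, ∀ b ∈ K, g⁻¹ * a ≠ b) :
    nu n P (cylinder K S ∩ sh g ⁻¹' cylinder K S) = nu n P (cylinder K S) * nu n P (cylinder K S) := by
  classical
  set K' : Finset (FreeGroup (Fin n)) := K.image (fun a => g⁻¹ * a) with hK'
  have hdis : Disjoint K K' := by
    rw [Finset.disjoint_left]
    intro b hb hb'
    rw [hK', Finset.mem_image] at hb'
    obtain ⟨a, ha, hab⟩ := hb'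
    exact hg a ha b hb hab
  have hind : iIndepFun (fun (i : FreeGroup (Fin n)) (w : FreeGroup (Fin n) → Ω) => w i)
      (nu n P) := iIndepFun_infinitePi (X := fun _ ω => ω) (fun _ => measurable_id)
  have hI := hind.indepFun_finset K K' hdis (fun i => measurable_pi_apply i)
  have hmem : ∀ i : K, g⁻¹ * i.1 ∈ K' := fun i => by
    rw [hK', Finset.mem_image]
    exact ⟨i.1, i.2, rfl⟩
  set S' : Set ((i : K') → Ω) := {v | (fun i : K => v ⟨g⁻¹ * i.1, hmem i⟩) ∈ S} with hS'
  have hS'm : MeasurableSet S' := by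
    have hf : Measurable (fun (v : (i : K') → Ω) (i : K) => v ⟨g⁻¹ * i.1, hmem i⟩) :=
      measurable_pi_lambda _ fun i => measurable_pi_apply _
    exact hf hS
  have h1 := hI.measure_inter_preimage_eq_mul S S' hS hS'm
  have e1 : (fun (a : FreeGroup (Fin n) → Ω) (i : K) => a i) ⁻¹' S = cylinder K S := rfl
  have e2 : (fun (a : FreeGroup (Fin n) → Ω) (i : K') => a i) ⁻¹' S' =
      sh g ⁻¹' cylinder K S := rfl
  rw [e1, e2] at h1
  rw [h1]
  congr 1
  exact (mps P g).measure_preimage (hS.cylinder K).nullMeasurableSet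

open Classical in
/-- the centred indicator -/
noncomputable def ci (D : Set (FreeGroup (Fin n) → Ω)) (w : FreeGroup (Fin n) → Ω) : ℝ :=
  (if w ∈ D then 1 else 0) - (nu n P).real D

theorem bm_ci {D : Set (FreeGroup (Fin n) → Ω)} (hD : MeasurableSet D) : BM (ci P D) := by
  refine ⟨?_, 1, fun w => ?_⟩
  · unfold ci
    exact (Measurable.ite hD measurable_const measurable_const).sub_const _
  · have h1 : (nu n P).real D ≤ 1 := measureReal_le_one
    have h2 : 0 ≤ (nu n P).real D := measureReal_nonneg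
    unfold ci
    split_ifs
    · rw [abs_le]
      constructor <;> linarith
    · rw [abs_le]
      constructor <;> linarith

theorem corr {D : Set (FreeGroup (Fin n) → Ω)} (hD : MeasurableSet D) (g : FreeGroup (Fin n)) :
    ∫ w, ci P D w * ci P D (sh g w) ∂(nu n P) =
      (nu n P).real (D ∩ sh g ⁻¹' D) - (nu n P).real D ^ 2 := by
  classical
  set p := (nu n P).real D with hp
  have hD' : MeasurableSet (sh g ⁻¹' D) := (mps P g).measurable hD
  have hp' : (nu n P).real (sh g ⁻¹' D) = p := by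
    rw [hp]
    unfold Measure.real
    rw [(mps P g).measure_preimage hD.nullMeasurableSet]
  have h1 : ∀ w : FreeGroup (Fin n) → Ω, ci P D w * ci P D (sh g w) =
      ((D ∩ sh g ⁻¹' D).indicator (fun _ => (1 : ℝ)) w - p * D.indicator (fun _ => (1 : ℝ)) w) -
        (p * (sh g ⁻¹' D).indicator (fun _ => (1 : ℝ)) w - p ^ 2) := by
    intro w
    unfold ci
    rw [← hp]
    by_cases a : w ∈ D
    · by_cases b : sh g w ∈ D
      · have c : w ∈ D ∩ sh g ⁻¹' D := ⟨a, b⟩
        have b' : w ∈ sh g ⁻¹' D := b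
        rw [if_pos a, if_pos b, Set.indicator_of_mem c, Set.indicator_of_mem a,
          Set.indicator_of_mem b']
        ring
      · have c : w ∉ D ∩ sh g ⁻¹' D := fun h => b h.2
        have b' : w ∉ sh g ⁻¹' D := b
        rw [if_pos a, if_neg b, Set.indicator_of_notMem c, Set.indicator_of_mem a,
          Set.indicator_of_notMem b']
        ring
    · by_cases b : sh g w ∈ D
      · have c : w ∉ D ∩ sh g ⁻¹' D := fun h => a h.1
        have b' : w ∈ sh g ⁻¹' D := b
        rw [if_neg a, if_pos b, Set.indicator_of_notMem c, Set.indicator_of_notMem a,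
          Set.indicator_of_mem b']
        ring
      · have c : w ∉ D ∩ sh g ⁻¹' D := fun h => a h.1
        have b' : w ∉ sh g ⁻¹' D := b
        rw [if_neg a, if_neg b, Set.indicator_of_notMem c, Set.indicator_of_notMem a,
          Set.indicator_of_notMem b']
        ring
  rw [integral_congr_ae (Filter.Eventually.of_forall h1)]
  have i1 : Integrable ((D ∩ sh g ⁻¹' D).indicator (fun _ => (1 : ℝ))) (nu n P) :=
    (integrable_const _).indicator (hD.inter hD')
  have i2 : Integrable (fun w => p * D.indicator (fun _ => (1 : ℝ)) w) (nu n P) :=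
    ((integrable_const _).indicator hD).const_mul _
  have i3 : Integrable (fun w => p * (sh g ⁻¹' D).indicator (fun _ => (1 : ℝ)) w) (nu n P) :=
    ((integrable_const _).indicator hD').const_mul _
  have i12 : Integrable (fun w => (D ∩ sh g ⁻¹' D).indicator (fun _ => (1 : ℝ)) w -
      p * D.indicator (fun _ => (1 : ℝ)) w) (nu n P) := i1.sub i2
  have i34 : Integrable (fun w => p * (sh g ⁻¹' D).indicator (fun _ => (1 : ℝ)) w - p ^ 2)
      (nu n P) := i3.sub (integrable_const _)
  rw [integral_sub i12 i34, integral_sub i1 i2, integral_sub i3 (integrable_const _),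
    integral_const_mul, integral_const_mul, integral_indicator_const _ (hD.inter hD'),
    integral_indicator_const _ hD, integral_indicator_const _ hD', integral_const, ← hp, hp']
  simp only [smul_eq_mul, mul_one, probReal_univ, one_mul]
  ring

theorem corr_self {D : Set (FreeGroup (Fin n) → Ω)} (hD : MeasurableSet D) :
    ∫ w, ci P D w * ci P D w ∂(nu n P) = (nu n P).real D - (nu n P).real D ^ 2 := by
  have h1 := corr P hD 1
  have h2 : (sh 1 ⁻¹' D : Set (FreeGroup (Fin n) → Ω)) = D := by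
    ext w
    rw [Set.mem_preimage, sh_id]
  simp only [sh_id] at h1
  rw [h2, Set.inter_self] at h1
  exact h1

/-- the bound for cylinders -/
theorem ssi_cyl {r : ℝ} (hn : 1 ≤ n) (hr : 1 ≤ r) (hq : (2 * n - 1 : ℝ) ≤ r ^ 2) (k : ℕ)
    {K : Finset (FreeGroup (Fin n))} {S : Set ((i : K) → Ω)} (hS : MeasurableSet S) :
    ∑ s ∈ ball n k, ((nu n P).real (cylinder K S ∩ sh s ⁻¹' cylinder K S) -
        (nu n P).real (cylinder K S) ^ 2) ≤
      2 * (k + 1) ^ 2 * r ^ k * ((nu n P).real (cylinder K S) -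
        (nu n P).real (cylinder K S) ^ 2) := by
  classical
  set D : Set (FreeGroup (Fin n) → Ω) := cylinder (α := fun _ => Ω) K S with hDdef
  have hD : MeasurableSet D := hS.cylinder K
  set R := K.sup (fun a => a.norm) with hR
  have hKR : ∀ a ∈ K, a.norm ≤ R := fun a ha => Finset.le_sup (f := fun a => a.norm) ha
  have h0 : 0 < r := by linarith
  have hcor : ∀ g : FreeGroup (Fin n), |∫ w, ci P D w * ci P D (sh g w) ∂(nu n P)| ≤
      r ^ (2 * R) * r⁻¹ ^ g.norm := by
    intro g
    rw [corr P hD g]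
    by_cases hg : g.norm ≤ 2 * R
    · have h1 : (nu n P).real (D ∩ sh g ⁻¹' D) ≤ 1 := measureReal_le_one
      have h2 : 0 ≤ (nu n P).real (D ∩ sh g ⁻¹' D) := measureReal_nonneg
      have h3 : (nu n P).real D ≤ 1 := measureReal_le_one
      have h4 : 0 ≤ (nu n P).real D := measureReal_nonneg
      have h5 : |(nu n P).real (D ∩ sh g ⁻¹' D) - (nu n P).real D ^ 2| ≤ 1 := by
        rw [abs_le]
        constructor <;> nlinarith
      refine h5.trans ?_
      have h6 : r ^ (2 * R) * r⁻¹ ^ g.norm = r ^ (2 * R - g.norm) := by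
        rw [inv_pow, ← div_eq_mul_inv, pow_sub₀ _ h0.ne' hg, div_eq_mul_inv]
      rw [h6]
      exact one_le_pow₀ hr
    · have hdis : ∀ a ∈ K, ∀ b ∈ K, g⁻¹ * a ≠ b := by
        intro a ha b hb hab
        apply hg
        have h1 : g = a * b⁻¹ := by
          rw [← hab]
          group
        rw [h1]
        have h2 := FreeGroup.norm_mul_le a b⁻¹
        rw [FreeGroup.norm_inv_eq] at h2
        have h3 := hKR a ha
        have h4 := hKR b hb
        omega
      have h1 := cyl_indep P hS hdis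
      have h2 : (nu n P).real (D ∩ sh g ⁻¹' D) = (nu n P).real D ^ 2 := by
        unfold Measure.real
        rw [hDdef, h1, ENNReal.toReal_mul, sq]
      rw [h2, sub_self, abs_zero]
      positivity
  have h1 := spectral (T := fun (g : FreeGroup (Fin n)) (w : FreeGroup (Fin n) → Ω) => sh g w)
    (S := ball n k) (ν := nu n P) (fun g => mps P g) (fun g h w => sh_mul g h w)
    (fun w => sh_id w) (fun s hs => inv_mem_ball hs) (bm_ci P hD)
    (h := fun g => r⁻¹ ^ g.norm) (Λ := 2 * (k + 1) ^ 2 * r ^ k) (C := r ^ (2 * R))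
    (by positivity) (by positivity) (fun g => sum_ball_le hn hr hq k g) hcor
  rw [corr_self P hD] at h1
  rw [Finset.sum_congr rfl fun s _ => (corr P hD s).symm]
  exact h1

theorem exists_cyl {D : Set (FreeGroup (Fin n) → Ω)} (hD : MeasurableSet D) {ε : ℝ} (hε : 0 < ε) :
    ∃ (K : Finset (FreeGroup (Fin n))) (S : Set ((i : K) → Ω)), MeasurableSet S ∧
      (nu n P).real (D ∆ cylinder K S) ≤ ε := by
  have h1 : (nu n P).MeasureDense (measurableCylinders (fun _ : FreeGroup (Fin n) => Ω)) :=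
    Measure.MeasureDense.of_generateFrom_isSetAlgebra_finite _
      ⟨empty_mem_measurableCylinders _, fun s hs => compl_mem_measurableCylinders hs,
        fun s t hs ht => union_mem_measurableCylinders hs ht⟩
      generateFrom_measurableCylinders.symm
  obtain ⟨E, hE, hE'⟩ := h1.approx D hD (measure_ne_top _ _) ε hε
  obtain ⟨K, S, hS, rfl⟩ := (mem_measurableCylinders E).1 hE
  refine ⟨K, S, hS, ?_⟩
  unfold Measure.real
  exact ENNReal.toReal_le_of_le_ofReal hε.le hE'.le

theorem abs_real_sub_le {W : Type} [MeasurableSpace W] (ν : Measure W) [IsProbabilityMeasure ν]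
    (A B : Set W) : |ν.real A - ν.real B| ≤ ν.real (A ∆ B) := by
  have h1 : ν.real A ≤ ν.real B + ν.real (A ∆ B) := by
    refine (measureReal_mono (s₂ := B ∪ (A ∆ B)) ?_).trans (measureReal_union_le _ _)
    intro x hx
    by_cases h : x ∈ B
    · exact Or.inl h
    · exact Or.inr (Or.inl ⟨hx, h⟩)
  have h2 : ν.real B ≤ ν.real A + ν.real (A ∆ B) := by
    refine (measureReal_mono (s₂ := A ∪ (A ∆ B)) ?_).trans (measureReal_union_le _ _)
    intro x hx
    by_cases h : x ∈ A
    · exact Or.inl h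
    · exact Or.inr (Or.inr ⟨hx, h⟩)
  rw [abs_le]
  constructor <;> linarith

/-- the bound for all measurable sets -/
theorem ssi {r : ℝ} (hn : 1 ≤ n) (hr : 1 ≤ r) (hq : (2 * n - 1 : ℝ) ≤ r ^ 2) (k : ℕ)
    {D : Set (FreeGroup (Fin n) → Ω)} (hD : MeasurableSet D) :
    ∑ s ∈ ball n k, (nu n P).real (D ∩ sh s ⁻¹' D) ≤
      2 * (k + 1) ^ 2 * r ^ k * ((nu n P).real D - (nu n P).real D ^ 2) +
        (ball n k).card * (nu n P).real D ^ 2 := by
  classical
  set Λ : ℝ := 2 * (k + 1) ^ 2 * r ^ k with hΛ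
  have hΛ0 : 0 ≤ Λ := by
    have : 0 < r := by linarith
    positivity
  set b : ℝ := ((ball n k).card : ℝ) with hb
  have hb0 : 0 ≤ b := by positivity
  refine le_of_forall_pos_le_add fun δ hδ => ?_
  -- choose the error
  set ε : ℝ := δ / (3 * Λ + 4 * b + 1) with hε
  have hden : 0 < 3 * Λ + 4 * b + 1 := by positivity
  have hε0 : 0 < ε := div_pos hδ hden
  obtain ⟨K, S, hS, hKS⟩ := exists_cyl P hD hε0
  set E : Set (FreeGroup (Fin n) → Ω) := cylinder (α := fun _ => Ω) K S with hE
  have hEm : MeasurableSet E := hS.cylinder K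
  have h1 := ssi_cyl P hn hr hq k hS
  rw [← hE, ← hΛ] at h1
  set p := (nu n P).real D with hp
  set p' := (nu n P).real E with hp'
  have hpp : |p - p'| ≤ ε := (abs_real_sub_le _ D E).trans hKS
  have hp1 : p ≤ 1 := measureReal_le_one
  have hp0 : 0 ≤ p := measureReal_nonneg
  have hp'1 : p' ≤ 1 := measureReal_le_one
  have hp'0 : 0 ≤ p' := measureReal_nonneg
  have hterm : ∀ s ∈ ball n k, (nu n P).real (D ∩ sh s ⁻¹' D) ≤
      (nu n P).real (E ∩ sh s ⁻¹' E) + 2 * ε := by
    intro s _
    have h2 := abs_real_sub_le (nu n P) (D ∩ sh s ⁻¹' D) (E ∩ sh s ⁻¹' E)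
    have h3 : (nu n P).real ((D ∩ sh s ⁻¹' D) ∆ (E ∩ sh s ⁻¹' E)) ≤ ε + ε := by
      have h4 : (D ∩ sh s ⁻¹' D) ∆ (E ∩ sh s ⁻¹' E) ⊆ (D ∆ E) ∪ sh s ⁻¹' (D ∆ E) := by
        rintro x (⟨⟨h5, h6⟩, h7⟩ | ⟨⟨h5, h6⟩, h7⟩)
        · by_cases h8 : x ∈ E
          · right
            left
            exact ⟨h6, fun h9 => h7 ⟨h8, h9⟩⟩
          · left
            left
            exact ⟨h5, h8⟩
        · by_cases h8 : x ∈ D
          · right
            right
            exact ⟨h6, fun h9 => h7 ⟨h8, h9⟩⟩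
          · left
            right
            exact ⟨h5, h8⟩
      refine (measureReal_mono h4).trans ((measureReal_union_le _ _).trans ?_)
      have h5 : (nu n P).real (sh s ⁻¹' (D ∆ E)) = (nu n P).real (D ∆ E) := by
        unfold Measure.real
        rw [(mps P s).measure_preimage (hD.symmDiff hEm).nullMeasurableSet]
      rw [h5]
      exact add_le_add hKS hKS
    have h4 := (abs_le.1 (h2.trans h3)).2
    linarith
  have h2 : ∑ s ∈ ball n k, (nu n P).real (D ∩ sh s ⁻¹' D) ≤
      ∑ s ∈ ball n k, ((nu n P).real (E ∩ sh s ⁻¹' E) - p' ^ 2) + b * (p' ^ 2 + 2 * ε) := by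
    calc ∑ s ∈ ball n k, (nu n P).real (D ∩ sh s ⁻¹' D)
        ≤ ∑ s ∈ ball n k, (((nu n P).real (E ∩ sh s ⁻¹' E) - p' ^ 2) + (p' ^ 2 + 2 * ε)) := by
          refine Finset.sum_le_sum fun s hs => ?_
          have := hterm s hs
          linarith
      _ = _ := by
          rw [Finset.sum_add_distrib, Finset.sum_const, nsmul_eq_mul]
  have h3 := (abs_le.1 hpp).1
  have h4 := (abs_le.1 hpp).2
  have h5 : p' ^ 2 ≤ p ^ 2 + 2 * ε := by nlinarith
  have h6 : p ^ 2 ≤ p' ^ 2 + 2 * ε := by nlinarith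
  have h7 : Λ * (p' - p' ^ 2) ≤ Λ * ((p - p ^ 2) + 3 * ε) := by
    apply mul_le_mul_of_nonneg_left _ hΛ0
    linarith
  have h8 : b * (p' ^ 2 + 2 * ε) ≤ b * (p ^ 2 + 4 * ε) := by
    apply mul_le_mul_of_nonneg_left _ hb0
    linarith
  have h9 : (3 * Λ + 4 * b + 1) * ε = δ := by
    rw [hε]
    exact mul_div_cancel₀ _ hden.ne'
  nlinarith

end Pool.Agent.FF891
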