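import Mathlib

/-!
# FF891: factor of iid and finitary factor of iid LCL problems on free groups

Definitions follow the problem file of MP_891ecf_lc: the free group on `n` generators is
`FreeGroup (Fin n)`, the ball of radius `r` is the set of elements of word length `FreeGroup.norm`
at most `r`, the group acts on labellings by `(γ x)(δ) = x (γ⁻¹ δ)`.
-/

set_option autoImplicit false

open MeasureTheory

namespace Pool.Agent.FF891

/-- labellings of the free group by points of `[0, 1]` -/
abbrev X (n : ℕ) : Type := FreeGroup (Fin n) → unitInterval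

/-- the product of the Lebesgue measures -/
noncomputable def mu (n : ℕ) : Measure (X n) :=
  Measure.infinitePi (fun _ : FreeGroup (Fin n) => (volume : Measure unitInterval))

instance (n : ℕ) : IsProbabilityMeasure (mu n) := by
  unfold mu
  infer_instance

/-- the left shift `(γ x)(δ) = x (γ⁻¹ δ)` -/
def sh {n : ℕ} {A : Type} (γ : FreeGroup (Fin n)) (x : FreeGroup (Fin n) → A) :
    FreeGroup (Fin n) → A := fun δ => x (γ⁻¹ * δ)

/-- LCL problems: a finite set `L` of labels, a radius `r`, a set `P` of maps from the ball of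
radius `r` to `L` -/
structure LCL (n : ℕ) where
  L : Type
  fin : Finite L
  r : ℕ
  P : Set ({g : FreeGroup (Fin n) // g.norm ≤ r} → L)

/-- `f` solves the LCL problem -/
def LCL.Solves {n : ℕ} (Q : LCL n) (f : FreeGroup (Fin n) → Q.L) : Prop :=
  ∀ δ : FreeGroup (Fin n), (fun s : {g : FreeGroup (Fin n) // g.norm ≤ Q.r} => f (δ * s.1)) ∈ Q.P

/-- `Φ` is a Borel equivariant map which almost surely gives a solution -/
structure IsFactor {n : ℕ} (Q : LCL n) (Φ : X n → FreeGroup (Fin n) → Q.L) : Prop where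
  meas : ∀ (δ : FreeGroup (Fin n)) (l : Q.L), MeasurableSet {x | Φ x δ = l}
  equi : ∀ (γ : FreeGroup (Fin n)) (x : X n), Φ (sh γ x) = sh γ (Φ x)
  sol : ∀ᵐ x ∂(mu n), Q.Solves (Φ x)

/-- the restriction of `x` to the ball of radius `R` determines the value of `Φ` at `1` -/
def Codes {n : ℕ} {A : Type} (Φ : X n → FreeGroup (Fin n) → A) (x : X n) (R : ℕ) : Prop :=
  ∀ y : X n, (∀ δ : FreeGroup (Fin n), δ.norm ≤ R → y δ = x δ) → Φ y 1 = Φ x 1

/-- the class FIID -/
def FIID {n : ℕ} (Q : LCL n) : Prop := ∃ Φ, IsFactor Q Φ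

/-- the class FFIID -/
def FFIID {n : ℕ} (Q : LCL n) : Prop :=
  ∃ Φ, IsFactor Q Φ ∧ ∀ᵐ x ∂(mu n), ∃ R : ℕ, Codes Φ x R

/-- the group element of a direction: `(i, true)` stands for `a_i`, `(i, false)` for `a_i⁻¹` -/
def dir {n : ℕ} (s : Fin n × Bool) : FreeGroup (Fin n) :=
  if s.2 then FreeGroup.of s.1 else (FreeGroup.of s.1)⁻¹

/-- the opposite direction -/
def opp {n : ℕ} (s : Fin n × Bool) : Fin n × Bool := (s.1, !s.2)

theorem norm_dir {n : ℕ} (s : Fin n × Bool) : (dir s).norm ≤ 1 := by
  unfold dir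
  split_ifs
  · rw [FreeGroup.norm_of]
  · rw [FreeGroup.norm_inv_eq, FreeGroup.norm_of]

/-- edge labellings as an LCL problem: the label of a vertex `v` consists of the labels (in `Q`) of
the `2 n` edges at `v`; the two ends of an edge agree on its label, and the configuration at each
vertex is in `C` -/
def edgeLCL (n : ℕ) (Q : Type) [Finite Q] (C : Set (Fin n × Bool → Q)) : LCL n where
  L := Fin n × Bool → Q
  fin := inferInstance
  r := 1
  P := {F | F ⟨1, by simp⟩ ∈ C ∧
    ∀ s : Fin n × Bool, F ⟨1, by simp⟩ s = F ⟨dir s, norm_dir s⟩ (opp s)}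

/-- spanning subgraphs of the Cayley graph with all degrees in `K` -/
def degLCL (n : ℕ) (K : Set ℕ) : LCL n :=
  edgeLCL n Bool {c | (Finset.univ.filter fun s => c s = true).card ∈ K}

theorem edgeLCL_solves {n : ℕ} {Q : Type} [Finite Q] {C : Set (Fin n × Bool → Q)}
    {f : FreeGroup (Fin n) → (edgeLCL n Q C).L} :
    (edgeLCL n Q C).Solves f ↔ ∀ v : FreeGroup (Fin n), f v ∈ C ∧
      ∀ s : Fin n × Bool, f v s = f (v * dir s) (opp s) := by
  constructor
  · intro h v
    have h1 : f (v * 1) ∈ C ∧ ∀ s : Fin n × Bool, f (v * 1) s = f (v * dir s) (opp s) := h v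
    rwa [mul_one] at h1
  · intro h v
    have h1 := h v
    change f (v * 1) ∈ C ∧ ∀ s : Fin n × Bool, f (v * 1) s = f (v * dir s) (opp s)
    rwa [mul_one]

theorem sh_apply {n : ℕ} {A : Type} (γ : FreeGroup (Fin n)) (x : FreeGroup (Fin n) → A)
    (δ : FreeGroup (Fin n)) : sh γ x δ = x (γ⁻¹ * δ) := rfl

/-- invariance of the product measure under injective changes of coordinates -/
theorem map_comp_inj {n : ℕ} {f : FreeGroup (Fin n) → FreeGroup (Fin n)}
    (hf : Function.Injective f) :
    MeasurePreserving (fun (x : X n) δ => x (f δ)) (mu n) (mu n) := by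
  refine ⟨by fun_prop, ?_⟩
  exact Measure.map_infinitePi_infinitePi_of_inj hf

theorem mp_sh {n : ℕ} (γ : FreeGroup (Fin n)) :
    MeasurePreserving (sh γ : X n → X n) (mu n) (mu n) :=
  map_comp_inj (mul_right_injective γ⁻¹)

end Pool.Agent.FF891
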