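import Pool.Agent.FF891.Crit

/-!
# FF891.Deg: subgraphs with prescribed degrees
-/

set_option autoImplicit false

open MeasureTheory

namespace Pool.Agent.FF891

variable {n : ℕ} {Q : Type}

/-- a constant solution is finitary -/
theorem ffiid_const [Finite Q] (C : Set (Fin n × Bool → Q)) (c : Fin n × Bool → Q) (hc : c ∈ C)
    (hs : ∀ s, c s = c (opp s)) : FFIID (edgeLCL n Q C) := by
  refine ⟨fun _ _ => c, ⟨fun δ l => MeasurableSet.const _, fun γ x => rfl, ?_⟩, ?_⟩
  · exact Filter.Eventually.of_forall fun x => edgeLCL_solves.2 fun v => ⟨hc, hs⟩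
  · exact Filter.Eventually.of_forall fun x => ⟨0, fun y _ => rfl⟩

/-- `1` for `true` and `0` for `false` -/
def b2n (b : Bool) : ℕ := if b = true then 1 else 0

theorem card_dirs (c : Fin n × Bool → Bool) :
    (Finset.univ.filter fun s => c s = true).card =
      ∑ i : Fin n, b2n (c (i, true)) + ∑ i : Fin n, b2n (c (i, false)) := by
  rw [Finset.card_filter, Fintype.sum_prod_type, ← Finset.sum_add_distrib]
  refine Finset.sum_congr rfl fun i _ => ?_
  rw [Fintype.sum_bool]
  rfl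

theorem sum_ite_one (w : Fin n → ℕ) (a : Fin n) (u : ℕ) (hw : w a = 0) :
    ∑ i : Fin n, (if i = a then u else w i) = u + ∑ i : Fin n, w i := by
  have h : ∀ i : Fin n, (if i = a then u else w i) = (if i = a then u else 0) + w i := by
    intro i
    split_ifs with hi
    · rw [hi, hw, add_zero]
    · rw [zero_add]
  rw [Finset.sum_congr rfl fun i _ => h i, Finset.sum_add_distrib, Finset.sum_ite_eq',
    if_pos (Finset.mem_univ a)]

theorem sum_lt (a b : ℕ) (hb : b ≤ n) :
    ∑ i : Fin n, b2n (decide (a ≤ (i : ℕ) ∧ (i : ℕ) < b)) = b - a := by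
  rw [Fin.sum_univ_eq_sum_range (fun i => b2n (decide (a ≤ i ∧ i < b))) n]
  have h1 : ∀ i ∈ Finset.range n, b2n (decide (a ≤ i ∧ i < b)) =
      if a ≤ i ∧ i < b then 1 else 0 := by
    intro i _
    unfold b2n
    by_cases h : a ≤ i ∧ i < b
    · simp [h]
    · simp [h]
  rw [Finset.sum_congr rfl h1, ← Finset.card_filter]
  have h2 : (Finset.range n).filter (fun i => a ≤ i ∧ i < b) = Finset.Ico a b := by
    ext i
    simp only [Finset.mem_filter, Finset.mem_range, Finset.mem_Ico]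
    omega
  rw [h2, Nat.card_Ico]

theorem deg_even {K : Set ℕ} {m : ℕ} (hK : 2 * m ∈ K) (hm : m ≤ n) : FFIID (degLCL n K) := by
  refine ffiid_const _ (fun s => decide (0 ≤ (s.1 : ℕ) ∧ (s.1 : ℕ) < m)) ?_ (fun s => rfl)
  change (Finset.univ.filter fun s : Fin n × Bool =>
    decide (0 ≤ (s.1 : ℕ) ∧ (s.1 : ℕ) < m) = true).card ∈ K
  rw [card_dirs (fun s : Fin n × Bool => decide (0 ≤ (s.1 : ℕ) ∧ (s.1 : ℕ) < m))]
  rw [sum_lt 0 m hm]
  have h : m - 0 + (m - 0) = 2 * m := by omega
  rw [h]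
  exact hK

theorem card_conf (ι : Bool → Fin n) (hι : ι false ≠ ι true) (q : Fin n → Bool)
    (hq : ∀ b, q (ι b) = false) (b x₀ x₁ y : Bool) :
    (Finset.univ.filter fun s => conf ι q b x₀ x₁ y s = true).card =
      b2n y + b2n x₀ + b2n x₁ + 2 * ∑ i : Fin n, b2n (q i) := by
  rw [card_dirs]
  have h0 : b2n false = 0 := rfl
  have h1 : ∑ i : Fin n, b2n (conf ι q b x₀ x₁ y (i, true)) = b2n y + ∑ i : Fin n, b2n (q i) := by
    rw [← sum_ite_one (fun i => b2n (q i)) (ι b) (b2n y) (by rw [hq b, h0])]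
    refine Finset.sum_congr rfl fun i _ => ?_
    simp only [conf, if_true]
    split_ifs <;> rfl
  have h2 : ∑ i : Fin n, b2n (conf ι q b x₀ x₁ y (i, false)) =
      b2n x₀ + (b2n x₁ + ∑ i : Fin n, b2n (q i)) := by
    rw [← sum_ite_one (fun i => b2n (q i)) (ι true) (b2n x₁) (by rw [hq true, h0]),
      ← sum_ite_one _ (ι false) (b2n x₀) (by rw [if_neg hι, hq false, h0])]
    refine Finset.sum_congr rfl fun i _ => ?_
    simp only [conf, Bool.false_eq_true, if_false]
    split_ifs <;> rfl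
  rw [h1, h2]
  ring

theorem deg_odd {K : Set ℕ} {m : ℕ} (h1 : 2 * m + 1 ∈ K) (h3 : 2 * m + 3 ∈ K) (hm : m + 2 ≤ n) :
    FFIID (degLCL n K) := by
  obtain ⟨n, rfl⟩ := Nat.exists_eq_add_of_le' (show 2 ≤ n by omega)
  set ι : Bool → Fin (n + 2) := fun b => if b then ⟨1, by omega⟩ else ⟨0, by omega⟩ with hι
  have hinj : Function.Injective ι := by
    intro a b hab
    cases a <;> cases b <;> simp_all
  have hne : ι false ≠ ι true := by
    intro h
    have := hinj h
    simp at this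
  set q : Fin (n + 2) → Bool := fun i => decide (2 ≤ (i : ℕ) ∧ (i : ℕ) < m + 2) with hqdef
  have hq : ∀ b, q (ι b) = false := by
    intro b
    cases b <;> simp [hqdef, hι]
  have hsum : ∑ i : Fin (n + 2), b2n (q i) = m := by
    rw [hqdef, sum_lt 2 (m + 2) hm]
    omega
  obtain ⟨Φ, hΦ, htail⟩ := crit (n := n + 2) (Q := Bool)
    {c | (Finset.univ.filter fun s => c s = true).card ∈ K} ι hinj (fun _ => Set.univ) q
    (fun _ => Set.mem_univ _) (by
      intro b x₀ _ x₁ _
      refine ⟨!(xor x₀ x₁), Set.mem_univ _, ?_⟩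
      change (Finset.univ.filter fun s => conf ι q b x₀ x₁ (!(xor x₀ x₁)) s = true).card ∈ K
      rw [card_conf ι hne q hq, hsum]
      have hs : b2n (!(xor x₀ x₁)) + b2n x₀ + b2n x₁ = 1 ∨
          b2n (!(xor x₀ x₁)) + b2n x₀ + b2n x₁ = 3 := by
        cases x₀ <;> cases x₁ <;> simp [b2n]
      rcases hs with h | h
      · rw [h]
        rwa [show 1 + 2 * m = 2 * m + 1 by ring]
      · rw [h]
        rwa [show 3 + 2 * m = 2 * m + 3 by ring])
  exact ffiid_of_tail hΦ htail

end Pool.Agent.FF891
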