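import Mathlib

/-!
# FF891.GW: extinction of a critical binary tree

Independent fair bits `y ℓ`, `ℓ` a list of booleans. The vertex `j :: ℓ` is a child of `ℓ` if
`y (j :: ℓ) = j`. Each vertex has on average one child; `Alive k y` says that the root has
descendants in generation `k`; its probability is at most `4 / (k + 4)`.
-/

set_option autoImplicit false

open MeasureTheory

namespace Pool.Agent.FF891

/-- the root has a descendant in generation `k` -/
def Alive : ℕ → (List Bool → Bool) → Prop
  | 0, _ => True
  | k + 1, y => ∃ j : Bool, y [j] = j ∧ Alive k (fun ℓ => y (j :: ℓ))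

/-- product of fair coins -/
noncomputable def nuL (κ : Measure Bool) : Measure (List Bool → Bool) :=
  Measure.infinitePi (fun _ : List Bool => κ)

variable {κ : Measure Bool} [IsProbabilityMeasure κ]

instance : IsProbabilityMeasure (nuL κ) := by
  unfold nuL
  infer_instance

/-- `Alive k` does not depend on the value at the root -/
theorem alive_congr (k : ℕ) {y z : List Bool → Bool} (h : ∀ ℓ, ℓ ≠ [] → y ℓ = z ℓ) :
    Alive k y ↔ Alive k z := by
  induction k generalizing y z with
  | zero => simp [Alive]
  | succ k ih =>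
    simp only [Alive]
    refine exists_congr fun j => ?_
    rw [h [j] (by simp), ih (y := fun ℓ => y (j :: ℓ)) (z := fun ℓ => z (j :: ℓ))
      (fun ℓ _ => h _ (by simp))]

theorem measurableSet_alive (k : ℕ) : MeasurableSet {y : List Bool → Bool | Alive k y} := by
  induction k with
  | zero => simp [Alive]
  | succ k ih =>
    have h : {y : List Bool → Bool | Alive (k + 1) y} =
        ⋃ j : Bool, ((fun y : List Bool → Bool => y [j]) ⁻¹' {j} ∩
          (fun (y : List Bool → Bool) ℓ => y (j :: ℓ)) ⁻¹' {y | Alive k y}) := by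
      ext y
      simp [Alive]
    rw [h]
    refine MeasurableSet.iUnion fun j => MeasurableSet.inter ?_ ?_
    · exact (measurable_pi_apply _) (measurableSet_singleton _)
    · exact (measurable_pi_lambda _ fun ℓ => measurable_pi_apply _) ih

/-- the two subtrees are independent -/
theorem map_split : (nuL κ).map (fun (y : List Bool → Bool) (j : Bool) (ℓ : List Bool) =>
    y (j :: ℓ)) = Measure.pi (fun _ : Bool => nuL κ) := by
  have h1 : (nuL κ).map (fun (y : List Bool → Bool) (p : Bool × List Bool) => y (p.1 :: p.2)) =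
      Measure.infinitePi (fun _ : Bool × List Bool => κ) := by
    refine Measure.map_infinitePi_infinitePi_of_inj (P := fun _ : List Bool => κ)
      (f := fun p : Bool × List Bool => p.1 :: p.2) ?_
    rintro ⟨a, b⟩ ⟨c, d⟩ h
    simp only [List.cons.injEq] at h
    rw [h.1, h.2]
  have h2 := Measure.infinitePi_map_curry (fun (_ : Bool) (_ : List Bool) => κ)
  rw [← h1, Measure.map_map (by fun_prop) (by fun_prop)] at h2
  rw [← Measure.infinitePi_eq_pi]
  exact h2

/-- flipping the bit at the root preserves the measure -/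
theorem mp_flip (hκ : κ.map not = κ) :
    MeasurePreserving (fun (y : List Bool → Bool) (ℓ : List Bool) =>
      if ℓ = [] then !(y ℓ) else y ℓ) (nuL κ) (nuL κ) := by
  refine ⟨by fun_prop, ?_⟩
  have h1 := Measure.infinitePi_map_pi (fun _ : List Bool => κ)
    (f := fun (ℓ : List Bool) (b : Bool) => if ℓ = [] then !b else b)
    (fun ℓ => measurable_of_countable _)
  have h2 : (fun ℓ : List Bool => κ.map (fun b : Bool => if ℓ = [] then !b else b)) =
      fun _ => κ := by
    funext ℓ
    by_cases h : ℓ = []
    · simp only [h, if_true]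
      exact hκ
    · simp only [h, if_false]
      exact Measure.map_id'
  unfold nuL
  rw [h1]
  congr 1

theorem alive_half (hκ : κ.map not = κ) (k : ℕ) (j : Bool) :
    (nuL κ).real {y | y [] = j ∧ Alive k y} = (nuL κ).real {y | Alive k y} / 2 := by
  have hm : ∀ i : Bool, MeasurableSet {y : List Bool → Bool | y [] = i ∧ Alive k y} := fun i =>
    MeasurableSet.inter (s₁ := (fun y : List Bool → Bool => y []) ⁻¹' {i})
      ((measurable_pi_apply _) (measurableSet_singleton _)) (measurableSet_alive k)
  have h1 : ∀ i : Bool, (nuL κ).real {y | y [] = !i ∧ Alive k y} =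
      (nuL κ).real {y | y [] = i ∧ Alive k y} := by
    intro i
    have h2 := (mp_flip hκ).measureReal_preimage (hm i).nullMeasurableSet
    rw [← h2]
    congr 1
    ext y
    simp only [Set.mem_ofPred_eq, Set.mem_preimage]
    have h3 : Alive k (fun ℓ => if ℓ = [] then !(y ℓ) else y ℓ) ↔ Alive k y :=
      alive_congr k fun ℓ hℓ => by rw [if_neg hℓ]
    rw [h3]
    cases y [] <;> cases i <;> simp
  have h4 : (nuL κ).real {y | Alive k y} = (nuL κ).real {y | y [] = j ∧ Alive k y} +
      (nuL κ).real {y | y [] = !j ∧ Alive k y} := by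
    rw [← measureReal_union _ (hm _)]
    · congr 1
      ext y
      simp only [Set.mem_ofPred_eq, Set.mem_union]
      cases y [] <;> cases j <;> simp
    · rw [Set.disjoint_left]
      intro y hy hy'
      simp only [Set.mem_ofPred_eq] at hy hy'
      rw [hy.1] at hy'
      cases j <;> simp at hy'
  rw [h1 j] at h4
  linarith

theorem alive_succ (hκ : κ.map not = κ) (k : ℕ) :
    (nuL κ).real {y | Alive (k + 1) y} =
      1 - (1 - (nuL κ).real {y | Alive k y} / 2) ^ 2 := by
  set B : Bool → Set (List Bool → Bool) := fun j => {w | w [] = j ∧ Alive k w} with hB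
  have hm : ∀ i : Bool, MeasurableSet (B i) := fun i =>
    MeasurableSet.inter (s₁ := (fun y : List Bool → Bool => y []) ⁻¹' {i})
      ((measurable_pi_apply _) (measurableSet_singleton _)) (measurableSet_alive k)
  have h1 : {y : List Bool → Bool | Alive (k + 1) y}ᶜ =
      (fun (y : List Bool → Bool) (j : Bool) (ℓ : List Bool) => y (j :: ℓ)) ⁻¹'
        (Set.pi Set.univ fun j => (B j)ᶜ) := by
    ext y
    simp only [Alive, Set.mem_compl_iff, Set.mem_ofPred_eq, Set.mem_preimage, Set.mem_pi,
      Set.mem_univ, true_implies, hB, not_exists]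
  have h2 : (nuL κ).real ({y : List Bool → Bool | Alive (k + 1) y}ᶜ) =
      ∏ j : Bool, (nuL κ).real ((B j)ᶜ) := by
    rw [h1, ← map_measureReal_apply (by fun_prop)
      (MeasurableSet.univ_pi fun j => (hm j).compl), map_split]
    rw [Measure.real, Measure.pi_pi, ENNReal.toReal_prod]
    rfl
  have h3 : ∀ j, (nuL κ).real ((B j)ᶜ) = 1 - (nuL κ).real {y | Alive k y} / 2 := by
    intro j
    rw [measureReal_compl (hm j), probReal_univ, alive_half hκ k j]
  rw [measureReal_compl (measurableSet_alive _), probReal_univ] at h2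
  rw [Fintype.prod_bool, h3, h3] at h2
  linarith

theorem alive_le (hκ : κ.map not = κ) (k : ℕ) :
    (nuL κ).real {y | Alive k y} ≤ 4 / (k + 4) := by
  induction k with
  | zero =>
    have h := measureReal_le_one (μ := nuL κ) (s := {y | Alive 0 y})
    simpa using h
  | succ k ih =>
    rw [alive_succ hκ]
    set p := (nuL κ).real {y | Alive k y} with hp
    have h0 : 0 ≤ p := measureReal_nonneg
    have hk : (0 : ℝ) < (k : ℝ) + 4 := by positivity
    have h1 : p * (k + 4) ≤ 4 := by rwa [le_div_iff₀ hk] at ih
    push_cast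
    rw [le_div_iff₀ (by positivity)]
    -- `(p - p ^ 2 / 4) (k + 5) ≤ 4`
    have hk' : (k : ℝ) = ((k : ℝ) + 4) - 4 := by ring
    set t : ℝ := (k : ℝ) + 4 with ht
    have h2 : 1 - (1 - p / 2) ^ 2 = p - p ^ 2 / 4 := by ring
    rw [h2, show (k : ℝ) + 1 + 4 = t + 1 by rw [ht]; ring]
    have h3 : 0 ≤ 4 - p * t := by linarith
    have ht1 : 1 ≤ t := by
      rw [ht]
      have : (0 : ℝ) ≤ k := Nat.cast_nonneg k
      linarith
    -- `4 t ^ 2 (4 - (p - p^2/4)(t+1)) = ...`
    have ht0 : 0 < t := by linarith
    set q := p * t with hq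
    have hq0 : 0 ≤ q := by positivity
    have h5 : (p - p ^ 2 / 4) * (t + 1) * (4 * t ^ 2) = (4 * q * t - q ^ 2) * (t + 1) := by
      rw [hq]
      ring
    have h6 : (4 * q * t - q ^ 2) * (t + 1) ≤ 4 * (4 * t ^ 2) := by
      have h7 : 4 * (4 * t ^ 2) - (4 * q * t - q ^ 2) * (t + 1) =
          (4 - q) * (t * (4 * t - q)) + q ^ 2 := by
        ring
      rw [← sub_nonneg, h7]
      have h8 : 0 ≤ 4 * t - q := by linarith
      positivity
    have h10 : (p - p ^ 2 / 4) * (t + 1) * (4 * t ^ 2) ≤ 4 * (4 * t ^ 2) := by
      rw [h5]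
      exact h6
    exact le_of_mul_le_mul_right h10 (by positivity)

end Pool.Agent.FF891
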