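import Pool.Agent.FF891.Cyl

/-!
# FF891.Gap: problems whose difference sets grow faster than the square root of the balls

If any two solutions `f, g` with `f 1 ≠ g 1` of an LCL problem differ at more than
`2 (k + 1) ^ 2 (2 n - 1) ^ (k / 2)` elements of the ball of radius `k`, then the problem has a factor of iid solution only if
it has a constant solution.
-/

set_option autoImplicit false

open MeasureTheory ProbabilityTheory
open scoped symmDiff

namespace Pool.Agent.FF891

variable {n : ℕ}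

/-- three labels per vertex -/
abbrev Om : Type := Fin 3 → unitInterval

noncomputable def PP : Measure Om := Measure.infinitePi (fun _ : Fin 3 => (volume : Measure unitInterval))

instance : IsProbabilityMeasure PP := by
  unfold PP
  infer_instance

/-- label `1` if label `2` is below `t`, label `0` otherwise -/
noncomputable def mt (t : ℝ) (ω : Om) : unitInterval := if (ω 2 : ℝ) < t then ω 1 else ω 0

theorem measurableSet_lt2 (t : ℝ) : MeasurableSet {ω : Om | (ω 2 : ℝ) < t} := by
  have h : Measurable (fun ω : Om => (ω 2 : ℝ)) := measurable_subtype_coe.comp (measurable_pi_apply 2)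
  exact h measurableSet_Iio

theorem measurable_mt (t : ℝ) : Measurable (mt t) := by
  unfold mt
  exact Measurable.ite (measurableSet_lt2 t) (measurable_pi_apply 1) (measurable_pi_apply 0)

theorem PP_two {i j : Fin 3} (hij : i ≠ j) {A B : Set unitInterval} (hA : MeasurableSet A)
    (hB : MeasurableSet B) :
    PP {ω : Om | ω i ∈ A ∧ ω j ∈ B} = volume A * volume B := by
  classical
  have h1 : {ω : Om | ω i ∈ A ∧ ω j ∈ B} =
      Set.pi (({i, j} : Finset (Fin 3)) : Set (Fin 3)) (fun l => if l = i then A else B) := by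
    ext ω
    simp only [Set.mem_ofPred_eq, Set.mem_pi, Finset.coe_insert, Finset.coe_singleton,
      Set.mem_insert_iff, Set.mem_singleton_iff]
    constructor
    · rintro ⟨h2, h3⟩ l (rfl | rfl)
      · rwa [if_pos rfl]
      · rwa [if_neg (Ne.symm hij)]
    · intro h
      refine ⟨?_, ?_⟩
      · have := h i (Or.inl rfl)
        rwa [if_pos rfl] at this
      · have := h j (Or.inr rfl)
        rwa [if_neg (Ne.symm hij)] at this
  rw [h1]
  unfold PP
  rw [Measure.infinitePi_pi]
  · rw [Finset.prod_pair hij, if_pos rfl, if_neg (Ne.symm hij)]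
  · intro l _
    split_ifs
    · exact hA
    · exact hB

theorem map_mt (t : ℝ) : PP.map (mt t) = volume := by
  ext B hB
  rw [Measure.map_apply (measurable_mt t) hB]
  set U : Set unitInterval := {u | (u : ℝ) < t} with hU
  have hUm : MeasurableSet U := measurable_subtype_coe measurableSet_Iio
  have h1 : mt t ⁻¹' B = {ω : Om | ω 2 ∈ U ∧ ω 1 ∈ B} ∪ {ω : Om | ω 2 ∈ Uᶜ ∧ ω 0 ∈ B} := by
    ext ω
    simp only [Set.mem_preimage, Set.mem_union, Set.mem_ofPred_eq, mt, hU, Set.mem_compl_iff]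
    split_ifs with h
    · simp [h]
    · simp [h]
  have hd : Disjoint {ω : Om | ω 2 ∈ U ∧ ω 1 ∈ B} {ω : Om | ω 2 ∈ Uᶜ ∧ ω 0 ∈ B} := by
    rw [Set.disjoint_left]
    rintro ω ⟨h2, _⟩ ⟨h3, _⟩
    exact h3 h2
  have hm : MeasurableSet {ω : Om | ω 2 ∈ Uᶜ ∧ ω 0 ∈ B} := by
    have e2 : Measurable (fun ω : Om => ω 2) := measurable_pi_apply 2
    have e0 : Measurable (fun ω : Om => ω 0) := measurable_pi_apply 0
    exact (e2 hUm.compl).inter (e0 hB)
  rw [h1, measure_union hd hm, PP_two (by decide) hUm hB, PP_two (by decide) hUm.compl hB,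
    ← add_mul, measure_add_measure_compl hUm, measure_univ, one_mul]

/-- the interpolating labellings -/
noncomputable def yt (t : ℝ) (w : FreeGroup (Fin n) → Om) : X n := fun g => mt t (w g)

theorem mp_yt (t : ℝ) : MeasurePreserving (yt t : (FreeGroup (Fin n) → Om) → X n) (nu n PP) (mu n) := by
  refine ⟨?_, ?_⟩
  · exact measurable_pi_lambda _ fun g => (measurable_mt t).comp (measurable_pi_apply g)
  · have h1 := Measure.infinitePi_map_pi (μ := fun _ : FreeGroup (Fin n) => PP)
      (f := fun _ => mt t) (fun _ => measurable_mt t)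
    have h2 : (fun (w : FreeGroup (Fin n) → Om) (g : FreeGroup (Fin n)) => mt t (w g)) = yt t := rfl
    rw [h2] at h1
    unfold nu mu
    rw [h1]
    congr 1
    funext i
    exact map_mt t

theorem yt_sh (t : ℝ) (g : FreeGroup (Fin n)) (w : FreeGroup (Fin n) → Om) :
    yt t (sh g w) = sh g (yt t w) := rfl

theorem measurableSet_neq {s t : ℝ} (g : FreeGroup (Fin n)) :
    MeasurableSet {w : FreeGroup (Fin n) → Om | yt s w g ≠ yt t w g} := by
  have h1 : Measurable (fun w : FreeGroup (Fin n) → Om => yt s w g) :=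
    (measurable_mt s).comp (measurable_pi_apply g)
  have h2 : Measurable (fun w : FreeGroup (Fin n) → Om => yt t w g) :=
    (measurable_mt t).comp (measurable_pi_apply g)
  exact (measurableSet_eq_fun h1 h2).compl

theorem neq_le {s t : ℝ} (hst : s ≤ t) (g : FreeGroup (Fin n)) :
    (nu n PP).real {w : FreeGroup (Fin n) → Om | yt s w g ≠ yt t w g} ≤ t - s := by
  have hV : MeasurableSet {u : unitInterval | s ≤ (u : ℝ) ∧ (u : ℝ) < t} :=
    (measurable_subtype_coe measurableSet_Ici).inter (measurable_subtype_coe measurableSet_Iio)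
  have h1 : {w : FreeGroup (Fin n) → Om | yt s w g ≠ yt t w g} ⊆
      (fun w => w g) ⁻¹' ((fun ω : Om => ω 2) ⁻¹' {u : unitInterval | s ≤ (u : ℝ) ∧ (u : ℝ) < t}) := by
    intro w hw
    simp only [Set.mem_ofPred_eq, yt, mt] at hw
    simp only [Set.mem_preimage, Set.mem_ofPred_eq]
    by_contra hcon
    apply hw
    by_cases h2 : ((w g) 2 : ℝ) < s
    · rw [if_pos h2, if_pos (h2.trans_le hst)]
    · rw [if_neg h2, if_neg fun h3 => hcon ⟨not_lt.1 h2, h3⟩]
  have m1 : MeasurePreserving (fun w : FreeGroup (Fin n) → Om => w g) (nu n PP) PP :=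
    measurePreserving_eval_infinitePi (fun _ : FreeGroup (Fin n) => PP) g
  have m2 : MeasurePreserving (fun ω : Om => ω 2) PP volume :=
    measurePreserving_eval_infinitePi (fun _ : Fin 3 => (volume : Measure unitInterval)) 2
  have h2 : nu n PP {w : FreeGroup (Fin n) → Om | yt s w g ≠ yt t w g} ≤
      volume {u : unitInterval | s ≤ (u : ℝ) ∧ (u : ℝ) < t} := by
    refine (measure_mono h1).trans ?_
    rw [m1.measure_preimage (m2.measurable hV).nullMeasurableSet,
      m2.measure_preimage hV.nullMeasurableSet]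
  have h3 : volume {u : unitInterval | s ≤ (u : ℝ) ∧ (u : ℝ) < t} ≤ ENNReal.ofReal (t - s) := by
    rw [unitInterval.volume_apply, ← Real.volume_Ico]
    apply measure_mono
    rintro _ ⟨u, hu, rfl⟩
    exact hu
  unfold Measure.real
  exact ENNReal.toReal_le_of_le_ofReal (by linarith) (h2.trans h3)

variable {Q : LCL n} {Φ : X n → FreeGroup (Fin n) → Q.L}

/-- the event that the solution at `1` changes between the times `s` and `t` -/
def ch (Φ : X n → FreeGroup (Fin n) → Q.L) (s t : ℝ) : Set (FreeGroup (Fin n) → Om) :=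
  {w | Φ (yt s w) 1 ≠ Φ (yt t w) 1}

theorem measurableSet_ch (hΦ : IsFactor Q Φ) (s t : ℝ) : MeasurableSet (ch Φ s t) := by
  have := Q.fin
  have h : ch Φ s t = (⋃ l : Q.L, (yt s ⁻¹' {x | Φ x 1 = l}) ∩ (yt t ⁻¹' {x | Φ x 1 = l}))ᶜ := by
    ext p
    simp only [ch, Set.mem_ofPred_eq, Set.mem_compl_iff, Set.mem_iUnion, Set.mem_inter_iff,
      Set.mem_preimage, not_exists, not_and]
    constructor
    · intro h l h1 h2
      exact h (h1.trans h2.symm)
    · intro h h'
      exact h _ h' rfl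
  rw [h]
  refine (MeasurableSet.iUnion fun l => ?_).compl
  exact ((mp_yt s).measurable (hΦ.meas 1 l)).inter ((mp_yt t).measurable (hΦ.meas 1 l))

/-- the growth condition -/
def Grow (Q : LCL n) (k : ℕ) : Prop :=
  ∀ f g : FreeGroup (Fin n) → Q.L, Q.Solves f → Q.Solves g → f 1 ≠ g 1 →
    4 * (k + 1) ^ 4 * (2 * n - 1) ^ k < (Nat.card {s : FreeGroup (Fin n) // s.norm ≤ k ∧ f s ≠ g s}) ^ 2


theorem card_eq [DecidableEq Q.L] (k : ℕ) (f g : FreeGroup (Fin n) → Q.L) :
    Nat.card {s : FreeGroup (Fin n) // s.norm ≤ k ∧ f s ≠ g s} =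
      ((ball n k).filter (fun s => f s ≠ g s)).card := by
  refine Nat.subtype_card _ fun s => ?_
  rw [Finset.mem_filter, mem_ball]

/-- a lower bound for the correlations from a lower bound for the number of translates -/
theorem sum_ge {Ω : Type} [MeasurableSpace Ω] (P : Measure Ω) [IsProbabilityMeasure P] (k N : ℕ)
    {D : Set (FreeGroup (Fin n) → Ω)} (hD : MeasurableSet D)
    (h : ∀ᵐ w ∂(nu n P), w ∈ D → ∃ F ⊆ ball n k, N ≤ F.card ∧ ∀ s ∈ F, sh s w ∈ D) :
    N * (nu n P).real D ≤ ∑ s ∈ ball n k, (nu n P).real (D ∩ sh s ⁻¹' D) := by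
  classical
  have hD' : ∀ s : FreeGroup (Fin n), MeasurableSet (D ∩ sh s ⁻¹' D) := fun s =>
    hD.inter ((mps P s).measurable hD)
  have h1 : ∑ s ∈ ball n k, (nu n P).real (D ∩ sh s ⁻¹' D) =
      ∫ w, ∑ s ∈ ball n k, (D ∩ sh s ⁻¹' D).indicator (fun _ => (1 : ℝ)) w ∂(nu n P) := by
    rw [integral_finsetSum]
    · refine Finset.sum_congr rfl fun s _ => ?_
      rw [integral_indicator_const _ (hD' s), smul_eq_mul, mul_one]
    · exact fun s _ => (integrable_const _).indicator (hD' s)
  have h2 : N * (nu n P).real D = ∫ w, D.indicator (fun _ => (N : ℝ)) w ∂(nu n P) := by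
    rw [integral_indicator_const _ hD, smul_eq_mul, mul_comm]
  rw [h1, h2]
  refine integral_mono_ae ((integrable_const _).indicator hD)
    (integrable_finsetSum _ fun s _ => (integrable_const _).indicator (hD' s)) ?_
  filter_upwards [h] with w hw
  by_cases hwD : w ∈ D
  · obtain ⟨F, hF, hN, hF'⟩ := hw hwD
    rw [Set.indicator_of_mem hwD]
    calc (N : ℝ) ≤ F.card := by exact_mod_cast hN
      _ = ∑ s ∈ F, (D ∩ sh s ⁻¹' D).indicator (fun _ => (1 : ℝ)) w := by
          rw [Finset.sum_congr rfl fun s hs => Set.indicator_of_mem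
            (show w ∈ D ∩ sh s ⁻¹' D from ⟨hwD, hF' s hs⟩) _]
          rw [Finset.sum_const, nsmul_eq_mul, mul_one]
      _ ≤ ∑ s ∈ ball n k, (D ∩ sh s ⁻¹' D).indicator (fun _ => (1 : ℝ)) w :=
          Finset.sum_le_sum_of_subset_of_nonneg hF fun s _ _ =>
            Set.indicator_nonneg (fun _ _ => zero_le_one) _
  · rw [Set.indicator_of_notMem hwD]
    exact Finset.sum_nonneg fun s _ => Set.indicator_nonneg (fun _ _ => zero_le_one) _

/-- the gap: the probability of a change is zero or bounded below -/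
theorem exists_gap (hn : 1 ≤ n) (hΦ : IsFactor Q Φ) {k : ℕ} (hk : Grow Q k) :
    ∃ ρ : ℝ, 0 < ρ ∧ ∀ s t : ℝ, (nu n PP).real (ch Φ s t) < ρ → (nu n PP).real (ch Φ s t) = 0 := by
  classical
  have hn' : (1 : ℝ) ≤ n := by exact_mod_cast hn
  set q : ℝ := 2 * n - 1 with hq
  have hq1 : 1 ≤ q := by rw [hq]; linarith
  set r : ℝ := Real.sqrt q with hr
  have hr1 : 1 ≤ r := by
    rw [hr]
    exact Real.one_le_sqrt.2 hq1
  have hr2 : r ^ 2 = q := Real.sq_sqrt (by linarith)
  set Λ : ℝ := 2 * (k + 1) ^ 2 * r ^ k with hΛ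
  have hΛ0 : 0 ≤ Λ := by positivity
  have hΛ2 : Λ ^ 2 = 4 * (k + 1) ^ 4 * q ^ k := by
    rw [hΛ, ← hr2]
    ring
  set N : ℕ := ⌊Λ⌋₊ + 1 with hN
  have hNΛ : Λ < N := by
    rw [hN]
    push_cast
    exact Nat.lt_floor_add_one Λ
  have hb : 0 < ((ball n k).card : ℝ) := by
    have : 0 < (ball n k).card := Finset.card_pos.2 ⟨1, by rw [mem_ball]; simp⟩
    exact_mod_cast this
  refine ⟨(N - Λ) / (ball n k).card, div_pos (by linarith) hb, fun s t hlt => ?_⟩
  set D := ch Φ s t with hD
  have hDm : MeasurableSet D := measurableSet_ch hΦ s t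
  have hsum : N * (nu n PP).real D ≤ ∑ u ∈ ball n k, (nu n PP).real (D ∩ sh u ⁻¹' D) := by
    refine sum_ge PP k N hDm ?_
    have a1 := (mp_yt (n := n) s).quasiMeasurePreserving.ae hΦ.sol
    have a2 := (mp_yt (n := n) t).quasiMeasurePreserving.ae hΦ.sol
    filter_upwards [a1, a2] with w h1 h2 hwD
    have h3 := hk _ _ h1 h2 hwD
    rw [card_eq] at h3
    set F := (ball n k).filter (fun u => Φ (yt s w) u ≠ Φ (yt t w) u) with hF
    have h4 : Λ < F.card := by
      have h5 : Λ ^ 2 < (F.card : ℝ) ^ 2 := by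
        rw [hΛ2]
        have h6 : ((4 * (k + 1) ^ 4 * (2 * n - 1) ^ k : ℕ) : ℝ) < ((F.card ^ 2 : ℕ) : ℝ) := by
          exact_mod_cast h3
        have h7 : ((4 * (k + 1) ^ 4 * (2 * n - 1) ^ k : ℕ) : ℝ) = 4 * (k + 1) ^ 4 * q ^ k := by
          rw [hq]
          push_cast [Nat.cast_sub (show 1 ≤ 2 * n by omega)]
          ring
        rw [h7] at h6
        push_cast at h6
        exact h6
      exact lt_of_pow_lt_pow_left₀ 2 (by positivity) h5
    refine ⟨F.image (fun u => u⁻¹), ?_, ?_, ?_⟩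
    · intro v hv
      rw [Finset.mem_image] at hv
      obtain ⟨u, hu, rfl⟩ := hv
      rw [hF, Finset.mem_filter] at hu
      exact inv_mem_ball hu.1
    · rw [Finset.card_image_of_injective _ inv_injective, hN]
      have h8 : ⌊Λ⌋₊ < F.card := (Nat.floor_lt hΛ0).2 h4
      omega
    · intro v hv
      rw [Finset.mem_image] at hv
      obtain ⟨u, hu, rfl⟩ := hv
      rw [hF, Finset.mem_filter] at hu
      change Φ (yt s (sh u⁻¹ w)) 1 ≠ Φ (yt t (sh u⁻¹ w)) 1
      rw [yt_sh, yt_sh, hΦ.equi, hΦ.equi, sh_one, sh_one]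
      exact hu.2
  have hssi := ssi PP hn hr1 (le_of_eq (hq.symm.trans hr2.symm)) k hDm
  rw [← hΛ] at hssi
  set p := (nu n PP).real D with hp
  have hp0 : 0 ≤ p := measureReal_nonneg
  by_contra hne
  have hp1 : 0 < p := lt_of_le_of_ne hp0 (Ne.symm hne)
  have h1 : (N - Λ) * p ≤ (ball n k).card * p ^ 2 := by
    have h2 : 0 ≤ Λ * p ^ 2 := by positivity
    nlinarith [hsum.trans hssi]
  have h2 : (N - Λ) ≤ (ball n k).card * p := by
    have h3 : (N - Λ) * p ≤ ((ball n k).card * p) * p := by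
      calc _ ≤ (ball n k).card * p ^ 2 := h1
        _ = _ := by ring
    exact le_of_mul_le_mul_right h3 hp1
  rw [lt_div_iff₀ hb] at hlt
  linarith

end Pool.Agent.FF891
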