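import Pool.Agent.FF891.Gap

/-!
# FF891.Gap2: the growth dichotomy
-/

set_option autoImplicit false

open MeasureTheory ProbabilityTheory
open scoped symmDiff

namespace Pool.Agent.FF891

variable {n : ℕ} {Q : LCL n} {Φ : X n → FreeGroup (Fin n) → Q.L}

theorem ch_le (hΦ : IsFactor Q Φ) {K : Q.L → Finset (FreeGroup (Fin n))}
    {S : (l : Q.L) → Set ((i : K l) → unitInterval)} (hS : ∀ l, MeasurableSet (S l)) {ε : ℝ}
    (hε : ∀ l, (mu n).real ({x | Φ x 1 = l} ∆ cylinder (α := fun _ => unitInterval) (K l) (S l)) ≤ ε)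
    [Fintype Q.L] {s t : ℝ} (hst : s ≤ t) :
    (nu n PP).real (ch Φ s t) ≤ ∑ l : Q.L, (2 * ε + (K l).card * (t - s)) := by
  classical
  set C : Q.L → Set (X n) := fun l => cylinder (α := fun _ => unitInterval) (K l) (S l) with hC
  set A : Q.L → Set (X n) := fun l => {x | Φ x 1 = l} with hA
  have hsub : ch Φ s t ⊆ ⋃ l : Q.L, ((yt s ⁻¹' (A l ∆ C l) ∪ yt t ⁻¹' (A l ∆ C l)) ∪
      ⋃ g ∈ K l, {w | yt s w g ≠ yt t w g}) := by
    intro w hw
    by_contra hcon
    simp only [Set.mem_iUnion, Set.mem_union, not_exists, not_or] at hcon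
    apply hw
    set l := Φ (yt s w) 1 with hl
    obtain ⟨⟨h1, h2⟩, h3⟩ := hcon l
    have h4 : yt s w ∈ A l := rfl
    have h5 : yt s w ∈ C l := by
      by_contra h6
      exact h1 (Or.inl ⟨h4, h6⟩)
    have h6 : yt t w ∈ C l := by
      rw [hC] at h5 ⊢
      rw [mem_cylinder] at h5 ⊢
      have h7 : (K l).restrict (yt t w) = (K l).restrict (yt s w) := by
        funext i
        by_contra h8
        exact h3 i.1 i.2 (fun h9 => h8 h9.symm)
      rwa [h7]
    have h7 : yt t w ∈ A l := by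
      by_contra h8
      exact h2 (Or.inr ⟨h6, h8⟩)
    exact h7.symm
  refine (measureReal_mono hsub).trans ((measureReal_iUnion_fintype_le _).trans ?_)
  refine Finset.sum_le_sum fun l _ => ?_
  have hm : MeasurableSet (A l ∆ C l) := (hΦ.meas 1 l).symmDiff ((hS l).cylinder _)
  have h1 : ∀ u : ℝ, (nu n PP).real (yt u ⁻¹' (A l ∆ C l)) ≤ ε := by
    intro u
    refine le_trans (le_of_eq ?_) (hε l)
    unfold Measure.real
    rw [(mp_yt u).measure_preimage hm.nullMeasurableSet]
  have h2 : (nu n PP).real (⋃ g ∈ K l, {w : FreeGroup (Fin n) → Om | yt s w g ≠ yt t w g}) ≤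
      (K l).card * (t - s) := by
    refine (measureReal_biUnion_finset_le _ _).trans ?_
    calc ∑ g ∈ K l, (nu n PP).real {w : FreeGroup (Fin n) → Om | yt s w g ≠ yt t w g}
        ≤ ∑ _g ∈ K l, (t - s) := Finset.sum_le_sum fun g _ => neq_le hst g
      _ = (K l).card * (t - s) := by rw [Finset.sum_const, nsmul_eq_mul]
  have h3 := measureReal_union_le (μ := nu n PP) (yt s ⁻¹' (A l ∆ C l) ∪ yt t ⁻¹' (A l ∆ C l))
    (⋃ g ∈ K l, {w : FreeGroup (Fin n) → Om | yt s w g ≠ yt t w g})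
  have h4 := measureReal_union_le (μ := nu n PP) (yt s ⁻¹' (A l ∆ C l)) (yt t ⁻¹' (A l ∆ C l))
  have h5 := h1 s
  have h6 := h1 t
  linarith

/-- arbitrarily small steps -/
theorem exists_steps (hΦ : IsFactor Q Φ) {ρ : ℝ} (hρ : 0 < ρ) :
    ∃ M : ℕ, 0 < M ∧ ∀ i : ℕ, (nu n PP).real (ch Φ (2 * i / M) (2 * (i + 1 : ℕ) / M)) < ρ := by
  classical
  have := Q.fin
  have := Fintype.ofFinite Q.L
  set c : ℝ := (Fintype.card Q.L : ℝ) with hc
  have hc0 : 0 ≤ c := by positivity
  set ε : ℝ := ρ / (4 * (c + 1)) with hε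
  have hε0 : 0 < ε := by positivity
  have hex : ∀ l : Q.L, ∃ (K : Finset (FreeGroup (Fin n))) (S : Set ((i : K) → unitInterval)),
      MeasurableSet S ∧
      (mu n).real ({x | Φ x 1 = l} ∆ cylinder (α := fun _ => unitInterval) K S) ≤ ε :=
    fun l => exists_cyl (volume : Measure unitInterval) (hΦ.meas 1 l) hε0
  choose K S hS hKS using hex
  set N : ℝ := ∑ l : Q.L, ((K l).card : ℝ) with hN
  have hN0 : 0 ≤ N := Finset.sum_nonneg fun _ _ => by positivity
  obtain ⟨M, hM⟩ := exists_nat_gt (4 * N / ρ)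
  have hM0 : 0 < (M : ℝ) := lt_of_le_of_lt (by positivity) hM
  refine ⟨M, by exact_mod_cast hM0, fun i => ?_⟩
  have hstep : (2 * (i : ℝ) / M) ≤ 2 * ((i + 1 : ℕ) : ℝ) / M := by
    push_cast
    gcongr
    linarith
  refine lt_of_le_of_lt (ch_le hΦ hS hKS hstep) ?_
  have h1 : 2 * ((i + 1 : ℕ) : ℝ) / M - 2 * (i : ℝ) / M = 2 / M := by
    push_cast
    ring
  rw [h1, Finset.sum_add_distrib, Finset.sum_const, nsmul_eq_mul, Finset.card_univ, ← hc,
    ← Finset.sum_mul, ← hN]
  have h2 : c * (2 * ε) ≤ ρ / 2 := by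
    have h3 : (c + 1) * (2 * ε) = ρ / 2 := by
      rw [hε]
      field_simp
      norm_num
    nlinarith
  have h3 : N * (2 / M) < ρ / 2 := by
    rw [div_lt_iff₀ hρ] at hM
    rw [mul_div_assoc', div_lt_iff₀ hM0]
    linarith
  linarith

/-- the first and the last labelling are independent on cylinders -/
theorem ends_indep {K : Finset (FreeGroup (Fin n))} {S : Set ((i : K) → unitInterval)}
    (hS : MeasurableSet S) :
    (nu n PP).real (yt 0 ⁻¹' cylinder (α := fun _ => unitInterval) K S ∩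
      yt 2 ⁻¹' cylinder (α := fun _ => unitInterval) K S) =
      (mu n).real (cylinder (α := fun _ => unitInterval) K S) ^ 2 := by
  classical
  set C : Set (X n) := cylinder (α := fun _ => unitInterval) K S with hC
  have hCm : MeasurableSet C := hS.cylinder K
  have hind : iIndepFun (fun (p : FreeGroup (Fin n) × Fin 3) (ω : FreeGroup (Fin n) → Om) =>
      ω p.1 p.2) (nu n PP) :=
    iIndepFun_uncurry_infinitePi' (X := fun _ _ u => u)
      (fun (_ : FreeGroup (Fin n)) (_ : Fin 3) => (volume : Measure unitInterval))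
      (fun _ _ => measurable_id)
  set K0 : Finset (FreeGroup (Fin n) × Fin 3) := K.image (fun a => (a, 0)) with hK0
  set K1 : Finset (FreeGroup (Fin n) × Fin 3) := K.image (fun a => (a, 1)) with hK1
  have hdis : Disjoint K0 K1 := by
    rw [Finset.disjoint_left]
    intro p hp hp'
    rw [hK0, Finset.mem_image] at hp
    rw [hK1, Finset.mem_image] at hp'
    obtain ⟨a, _, rfl⟩ := hp
    obtain ⟨b, _, hb⟩ := hp'
    have : (1 : Fin 3) = 0 := congrArg Prod.snd hb
    exact absurd this (by decide)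
  have hmeas : ∀ p : FreeGroup (Fin n) × Fin 3,
      Measurable (fun (ω : FreeGroup (Fin n) → Om) => ω p.1 p.2) := fun p =>
    (measurable_pi_apply p.2).comp (measurable_pi_apply p.1)
  have hI := hind.indepFun_finset K0 K1 hdis hmeas
  have hm0 : ∀ i : K, ((i.1, 0) : FreeGroup (Fin n) × Fin 3) ∈ K0 := fun i => by
    rw [hK0, Finset.mem_image]
    exact ⟨i.1, i.2, rfl⟩
  have hm1 : ∀ i : K, ((i.1, 1) : FreeGroup (Fin n) × Fin 3) ∈ K1 := fun i => by
    rw [hK1, Finset.mem_image]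
    exact ⟨i.1, i.2, rfl⟩
  set S0 : Set ((i : K0) → unitInterval) := {v | (fun i : K => v ⟨(i.1, 0), hm0 i⟩) ∈ S} with hS0
  set S1 : Set ((i : K1) → unitInterval) := {v | (fun i : K => v ⟨(i.1, 1), hm1 i⟩) ∈ S} with hS1
  have hS0m : MeasurableSet S0 := by
    have hf : Measurable (fun (v : (i : K0) → unitInterval) (i : K) => v ⟨(i.1, 0), hm0 i⟩) :=
      measurable_pi_lambda _ fun i => measurable_pi_apply _
    exact hf hS
  have hS1m : MeasurableSet S1 := by
    have hf : Measurable (fun (v : (i : K1) → unitInterval) (i : K) => v ⟨(i.1, 1), hm1 i⟩) :=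
      measurable_pi_lambda _ fun i => measurable_pi_apply _
    exact hf hS
  have h1 := hI.measure_inter_preimage_eq_mul S0 S1 hS0m hS1m
  have y0 : ∀ (w : FreeGroup (Fin n) → Om) (g : FreeGroup (Fin n)), yt 0 w g = w g 0 := by
    intro w g
    have h2 : ¬ ((w g 2 : ℝ) < 0) := not_lt.2 (w g 2).2.1
    simp only [yt, mt, if_neg h2]
  have y2 : ∀ (w : FreeGroup (Fin n) → Om) (g : FreeGroup (Fin n)), yt 2 w g = w g 1 := by
    intro w g
    have h2 : ((w g 2 : ℝ) < 2) := lt_of_le_of_lt (w g 2).2.2 (by norm_num)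
    simp only [yt, mt, if_pos h2]
  have e0 : (fun (ω : FreeGroup (Fin n) → Om) (i : K0) => ω i.1.1 i.1.2) ⁻¹' S0 = yt 0 ⁻¹' C := by
    ext w
    rw [Set.mem_preimage, Set.mem_preimage, hC, mem_cylinder, hS0]
    have h3 : K.restrict (yt 0 w) = fun i : K => w i.1 0 := by
      funext i
      exact y0 w i.1
    rw [h3]
    rfl
  have e1 : (fun (ω : FreeGroup (Fin n) → Om) (i : K1) => ω i.1.1 i.1.2) ⁻¹' S1 = yt 2 ⁻¹' C := by
    ext w
    rw [Set.mem_preimage, Set.mem_preimage, hC, mem_cylinder, hS1]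
    have h3 : K.restrict (yt 2 w) = fun i : K => w i.1 1 := by
      funext i
      exact y2 w i.1
    rw [h3]
    rfl
  rw [e0, e1, (mp_yt 0).measure_preimage hCm.nullMeasurableSet,
    (mp_yt 2).measure_preimage hCm.nullMeasurableSet] at h1
  unfold Measure.real
  rw [h1, ENNReal.toReal_mul, sq]

/-- the growth dichotomy -/
theorem grow_const (hn : 1 ≤ n) {k : ℕ} (hk : Grow Q k) (hQ : FIID Q) :
    ∃ l : Q.L, Q.Solves (fun _ => l) := by
  classical
  obtain ⟨Φ, hΦ⟩ := hQ
  have hfin := Q.fin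
  obtain ⟨ρ, hρ, hgap⟩ := exists_gap hn hΦ hk
  obtain ⟨M, hM, hstep⟩ := exists_steps hΦ hρ
  have hM' : (M : ℝ) ≠ 0 := by exact_mod_cast hM.ne'
  have hchain : ∀ i : ℕ, ∀ᵐ w ∂(nu n PP), Φ (yt 0 w) 1 = Φ (yt (2 * i / M) w) 1 := by
    intro i
    induction i with
    | zero =>
      refine Filter.Eventually.of_forall fun w => ?_
      simp
    | succ i ih =>
      have h1 := hgap _ _ (hstep i)
      have h2 : nu n PP (ch Φ (2 * i / M) (2 * (i + 1 : ℕ) / M)) = 0 := by
        rwa [Measure.real, ENNReal.toReal_eq_zero_iff, or_iff_left (measure_ne_top _ _)] at h1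
      have h3 : ∀ᵐ w ∂(nu n PP), w ∉ ch Φ (2 * i / M) (2 * (i + 1 : ℕ) / M) :=
        measure_eq_zero_iff_ae_notMem.1 h2
      filter_upwards [ih, h3] with w hw1 hw2
      rw [hw1]
      by_contra h4
      exact hw2 h4
  have hends : ∀ᵐ w ∂(nu n PP), Φ (yt 0 w) 1 = Φ (yt 2 w) 1 := by
    have h1 := hchain M
    have h2 : 2 * (M : ℝ) / M = 2 := by field_simp
    rwa [h2] at h1
  have h01 : ∀ l : Q.L, mu n {x | Φ x 1 = l} = 0 ∨ mu n {x | Φ x 1 = l} = 1 := by
    intro l
    set A : Set (X n) := {x | Φ x 1 = l} with hA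
    have hAm : MeasurableSet A := hΦ.meas 1 l
    set p := (mu n).real A with hp
    have hp0 : 0 ≤ p := measureReal_nonneg
    have hp1 : p ≤ 1 := measureReal_le_one
    have hpA : ∀ t : ℝ, (nu n PP).real (yt t ⁻¹' A) = p := by
      intro t
      rw [hp]
      unfold Measure.real
      rw [(mp_yt t).measure_preimage hAm.nullMeasurableSet]
    have h1 : (nu n PP).real (yt 0 ⁻¹' A ∩ yt 2 ⁻¹' A) = p := by
      rw [← hpA 0]
      refine measureReal_congr ?_
      filter_upwards [hends] with w hw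
      refine propext ⟨fun h => h.1, fun h => ⟨h, ?_⟩⟩
      change Φ (yt 2 w) 1 = l
      rw [← hw]
      exact h
    have h2 : ∀ δ : ℝ, 0 < δ → |p - p ^ 2| ≤ δ := by
      intro δ hδ
      obtain ⟨K, S, hS, hKS⟩ := exists_cyl (volume : Measure unitInterval) hAm
        (show 0 < δ / 4 by linarith)
      set C : Set (X n) := cylinder (α := fun _ => unitInterval) K S with hC
      have hCm : MeasurableSet C := hS.cylinder K
      have hKS' : (mu n).real (A ∆ C) ≤ δ / 4 := hKS
      have h3 := ends_indep (n := n) hS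
      rw [← hC] at h3
      set c := (mu n).real C with hc
      have hc0 : 0 ≤ c := measureReal_nonneg
      have hc1 : c ≤ 1 := measureReal_le_one
      have h4 : |p - c| ≤ δ / 4 := (abs_real_sub_le _ A C).trans hKS'
      have h5 := abs_real_sub_le (nu n PP) (yt 0 ⁻¹' A ∩ yt 2 ⁻¹' A) (yt 0 ⁻¹' C ∩ yt 2 ⁻¹' C)
      rw [h1, h3] at h5
      have h6 : (nu n PP).real ((yt 0 ⁻¹' A ∩ yt 2 ⁻¹' A) ∆ (yt 0 ⁻¹' C ∩ yt 2 ⁻¹' C)) ≤
          δ / 4 + δ / 4 := by
        have h7 : (yt 0 ⁻¹' A ∩ yt 2 ⁻¹' A) ∆ (yt 0 ⁻¹' C ∩ yt 2 ⁻¹' C) ⊆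
            (yt 0 ⁻¹' (A ∆ C)) ∪ yt 2 ⁻¹' (A ∆ C) := by
          rintro x (⟨⟨h5, h6⟩, h7⟩ | ⟨⟨h5, h6⟩, h7⟩)
          · by_cases h8 : x ∈ yt 0 ⁻¹' C
            · right
              left
              exact ⟨h6, fun h9 => h7 ⟨h8, h9⟩⟩
            · left
              left
              exact ⟨h5, h8⟩
          · by_cases h8 : x ∈ yt 0 ⁻¹' A
            · right
              right
              exact ⟨h6, fun h9 => h7 ⟨h8, h9⟩⟩
            · left
              right
              exact ⟨h5, h8⟩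
        refine (measureReal_mono h7).trans ((measureReal_union_le _ _).trans ?_)
        have h8 : ∀ t : ℝ, (nu n PP).real (yt t ⁻¹' (A ∆ C)) = (mu n).real (A ∆ C) := by
          intro t
          unfold Measure.real
          rw [(mp_yt t).measure_preimage (hAm.symmDiff hCm).nullMeasurableSet]
        rw [h8, h8]
        exact add_le_add hKS' hKS'
      have h7 := abs_le.1 (h5.trans h6)
      have h8 := abs_le.1 h4
      rw [abs_le]
      constructor
      · nlinarith [h7.1, h7.2, h8.1, h8.2]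
      · nlinarith [h7.1, h7.2, h8.1, h8.2]
    have h3 : p - p ^ 2 = 0 := by
      by_contra h4
      have h5 := h2 (|p - p ^ 2| / 2) (by
        have := abs_pos.2 h4
        linarith)
      have := abs_pos.2 h4
      linarith
    have h4 : p * (1 - p) = 0 := by linarith [h3, sq p]
    rcases mul_eq_zero.1 h4 with h5 | h5
    · left
      rwa [hp, Measure.real, ENNReal.toReal_eq_zero_iff, or_iff_left (measure_ne_top _ _)] at h5
    · right
      have h6 : p = 1 := by linarith
      rw [hp, Measure.real] at h6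
      rw [← ENNReal.ofReal_toReal (measure_ne_top (mu n) A), h6, ENNReal.ofReal_one]
  have hex : ∃ l : Q.L, mu n {x | Φ x 1 = l} = 1 := by
    by_contra h
    push Not at h
    have h0 : ∀ l : Q.L, mu n {x | Φ x 1 = l} = 0 := fun l => (h01 l).resolve_right (h l)
    have h1 : mu n (⋃ l : Q.L, {x | Φ x 1 = l}) = 0 := measure_iUnion_null h0
    have h2 : (⋃ l : Q.L, {x | Φ x 1 = l}) = Set.univ := by
      ext x
      simp
    rw [h2, measure_univ] at h1
    exact one_ne_zero h1
  obtain ⟨l, hl⟩ := hex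
  have hae : ∀ᵐ x ∂(mu n), ∀ δ, Φ x δ = l := by
    rw [ae_all_iff]
    intro δ
    have h1 : ∀ᵐ x ∂(mu n), Φ x 1 = l := (prob_compl_eq_zero_iff (hΦ.meas 1 l)).2 hl
    have h2 := (mp_sh δ⁻¹).quasiMeasurePreserving.ae h1
    filter_upwards [h2] with x hx
    rwa [hΦ.equi, sh_one] at hx
  obtain ⟨x, hx1, hx2⟩ := (hae.and hΦ.sol).exists
  refine ⟨l, ?_⟩
  have h3 : Φ x = fun _ => l := funext hx1
  rwa [h3] at hx2

/-- a constant solution is a finitary factor -/
theorem ffiid_of_const {l : Q.L} (hl : Q.Solves (fun _ => l)) : FFIID Q := by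
  classical
  refine ⟨fun _ _ => l, ⟨fun δ l' => ?_, fun γ x => rfl, ?_⟩, ?_⟩
  · by_cases h : l = l'
    · simp [h]
    · simp [h]
  · exact Filter.Eventually.of_forall fun _ => hl
  · exact Filter.Eventually.of_forall fun _ => ⟨0, fun _ _ => rfl⟩

theorem fiid_of_ffiid (h : FFIID Q) : FIID Q := by
  obtain ⟨Φ, hΦ, _⟩ := h
  exact ⟨Φ, hΦ⟩

end Pool.Agent.FF891
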