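import Pool.Agent.FF891.Cyl

/-!
# FF891.Mix: conditional entropies of events of a product space
-/

set_option autoImplicit false

open MeasureTheory ProbabilityTheory

namespace Pool.Agent.FF891

open Real (negMulLog)

/-! ### Jensen's inequality -/

theorem negMulLog_bd {x : ℝ} (h0 : 0 ≤ x) (h1 : x ≤ 1) : 0 ≤ negMulLog x ∧ negMulLog x ≤ 1 := by
  refine ⟨Real.negMulLog_nonneg h0 h1, ?_⟩
  rcases h0.eq_or_lt with h | h
  · rw [← h, Real.negMulLog_zero]
    exact zero_le_one
  · have h2 := Real.one_sub_inv_le_log_of_pos h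
    unfold Real.negMulLog
    have h3 : x * (1 - x⁻¹) ≤ x * Real.log x := mul_le_mul_of_nonneg_left h2 h.le
    have h4 : x * (1 - x⁻¹) = x - 1 := by
      rw [mul_sub, mul_inv_cancel₀ h.ne', mul_one]
    linarith

/-- the concave function `η a + η b - η (a + b)` -/
noncomputable def phi (a b : ℝ) : ℝ := negMulLog a + negMulLog b - negMulLog (a + b)

theorem phi_nonneg {a b : ℝ} (ha : 0 ≤ a) (hb : 0 ≤ b) : 0 ≤ phi a b := by
  unfold phi Real.negMulLog
  rcases ha.eq_or_lt with h | h
  · rw [← h]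
    simp
  rcases hb.eq_or_lt with h' | h'
  · rw [← h']
    simp
  have h1 : a * Real.log a ≤ a * Real.log (a + b) :=
    mul_le_mul_of_nonneg_left (Real.log_le_log h (by linarith)) ha
  have h2 : b * Real.log b ≤ b * Real.log (a + b) :=
    mul_le_mul_of_nonneg_left (Real.log_le_log h' (by linarith)) hb
  linarith

/-- the supporting plane -/
theorem phi_le {a b α β : ℝ} (ha : 0 ≤ a) (hb : 0 ≤ b) (hα : 0 < α) (hβ : 0 < β) :
    phi a b ≤ a * Real.log ((α + β) / α) + b * Real.log ((α + β) / β) := by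
  have hs : 0 < α + β := by linarith
  have key : ∀ x c s t : ℝ, 0 < x → 0 < c → 0 < s → 0 < t →
      x * Real.log (s / x) ≤ x * Real.log (t / c) + (s * c / t - x) := by
    intro x c s t hx hc hs ht
    have h1 : Real.log (s / x) - Real.log (t / c) = Real.log ((s / x) / (t / c)) := by
      rw [Real.log_div (by positivity : s / x ≠ 0) (by positivity : t / c ≠ 0)]
    have h2 : Real.log ((s / x) / (t / c)) ≤ (s / x) / (t / c) - 1 :=
      Real.log_le_sub_one_of_pos (by positivity)
    have h3 : x * (Real.log (s / x) - Real.log (t / c)) ≤ x * ((s / x) / (t / c) - 1) := by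
      rw [h1]
      exact mul_le_mul_of_nonneg_left h2 hx.le
    have h4 : x * ((s / x) / (t / c) - 1) = s * c / t - x := by
      field_simp
    linarith
  rcases ha.eq_or_lt with h | h
  · rcases hb.eq_or_lt with h' | h'
    · rw [← h, ← h']
      simp [phi]
    · rw [← h]
      have h1 : phi 0 b = 0 := by
        simp [phi]
      rw [h1, zero_mul, zero_add]
      have h2 : 0 ≤ Real.log ((α + β) / β) := by
        apply Real.log_nonneg
        rw [le_div_iff₀ hβ]
        linarith
      positivity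
  · rcases hb.eq_or_lt with h' | h'
    · rw [← h']
      have h1 : phi a 0 = 0 := by
        simp [phi]
      rw [h1, zero_mul, add_zero]
      have h2 : 0 ≤ Real.log ((α + β) / α) := by
        apply Real.log_nonneg
        rw [le_div_iff₀ hα]
        linarith
      positivity
    · have h1 := key a α (a + b) (α + β) h hα (by linarith) hs
      have h2 := key b β (a + b) (α + β) h' hβ (by linarith) hs
      have h3 : phi a b = a * Real.log ((a + b) / a) + b * Real.log ((a + b) / b) := by
        unfold phi Real.negMulLog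
        rw [Real.log_div (by linarith) h.ne', Real.log_div (by linarith) h'.ne']
        ring
      have h4 : (a + b) * α / (α + β) - a + ((a + b) * β / (α + β) - b) = 0 := by
        field_simp
        ring
      rw [h3]
      linarith

section

variable {W : Type} [MeasurableSpace W]

theorem BM.comp' {W' : Type} [MeasurableSpace W'] {G : W → ℝ} (hG : BM G) {f : W' → W}
    (hf : Measurable f) : BM (fun w => G (f w)) := by
  obtain ⟨h1, B, hB⟩ := hG
  exact ⟨h1.comp hf, B, fun w => hB _⟩

/-- measurable functions with values in `[0, 1]` -/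
def UM (G : W → ℝ) : Prop := Measurable G ∧ ∀ w, 0 ≤ G w ∧ G w ≤ 1

theorem UM.bm {G : W → ℝ} (h : UM G) : BM G :=
  ⟨h.1, 1, fun w => by
    rw [abs_of_nonneg (h.2 w).1]
    exact (h.2 w).2⟩

theorem UM.comp {W' : Type} [MeasurableSpace W'] {G : W → ℝ} (hG : UM G) {f : W' → W}
    (hf : Measurable f) : UM (fun w => G (f w)) := ⟨hG.1.comp hf, fun w => hG.2 _⟩

theorem UM.nml {G : W → ℝ} (h : UM G) : UM (fun w => negMulLog (G w)) :=
  ⟨Real.continuous_negMulLog.measurable.comp h.1, fun w => negMulLog_bd (h.2 w).1 (h.2 w).2⟩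

theorem BM.add {G H : W → ℝ} (hG : BM G) (hH : BM H) : BM (fun w => G w + H w) := by
  obtain ⟨h1, B, hB⟩ := hG
  obtain ⟨h2, B', hB'⟩ := hH
  refine ⟨h1.add h2, B + B', fun w => ?_⟩
  exact (abs_add_le _ _).trans (add_le_add (hB w) (hB' w))

theorem BM.sub {G H : W → ℝ} (hG : BM G) (hH : BM H) : BM (fun w => G w - H w) := by
  obtain ⟨h1, B, hB⟩ := hG
  obtain ⟨h2, B', hB'⟩ := hH
  refine ⟨h1.sub h2, B + B', fun w => ?_⟩
  exact (abs_sub _ _).trans (add_le_add (hB w) (hB' w))

theorem bm_phi {G H : W → ℝ} (hG : UM G) (hH : UM H) : BM (fun w => phi (G w) (H w)) := by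
  refine ⟨?_, 4, fun w => ?_⟩
  · exact ((Real.continuous_negMulLog.measurable.comp hG.1).add
      (Real.continuous_negMulLog.measurable.comp hH.1)).sub
      (Real.continuous_negMulLog.measurable.comp (hG.1.add hH.1))
  · have a := hG.2 w
    have b := hH.2 w
    have h0 := phi_nonneg a.1 b.1
    rw [abs_of_nonneg h0]
    have h1 := phi_le a.1 b.1 one_pos one_pos
    have h2 : Real.log ((1 + 1) / 1) ≤ 1 := by
      have := Real.log_le_sub_one_of_pos (show (0 : ℝ) < (1 + 1) / 1 by norm_num)
      linarith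
    have h3 : 0 ≤ Real.log ((1 + 1) / 1) := Real.log_nonneg (by norm_num)
    nlinarith

variable (ν : Measure W) [IsProbabilityMeasure ν]

theorem jensen1 {G : W → ℝ} (hG : UM G) : ∫ w, negMulLog (G w) ∂ν ≤ negMulLog (∫ w, G w ∂ν) := by
  refine Real.concaveOn_negMulLog.le_map_integral Real.continuous_negMulLog.continuousOn
    isClosed_Ici (Filter.Eventually.of_forall fun w => (hG.2 w).1) (hG.bm.integrable ν) ?_
  exact hG.nml.bm.integrable ν

theorem jensen2 {G H : W → ℝ} (hG : UM G) (hH : UM H) :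
    ∫ w, phi (G w) (H w) ∂ν ≤ phi (∫ w, G w ∂ν) (∫ w, H w ∂ν) := by
  have hG0 : 0 ≤ ∫ w, G w ∂ν := integral_nonneg fun w => (hG.2 w).1
  have hH0 : 0 ≤ ∫ w, H w ∂ν := integral_nonneg fun w => (hH.2 w).1
  rcases hG0.eq_or_lt with h | h
  · have h1 : G =ᵐ[ν] 0 :=
      (integral_eq_zero_iff_of_nonneg (fun w => (hG.2 w).1) (hG.bm.integrable ν)).1 h.symm
    have h2 : ∫ w, phi (G w) (H w) ∂ν = ∫ w, (0 : ℝ) ∂ν := by
      refine integral_congr_ae ?_
      filter_upwards [h1] with w hw
      have hw' : G w = 0 := hw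
      rw [hw']
      simp [phi]
    rw [h2, ← h]
    simp [phi]
  rcases hH0.eq_or_lt with h' | h'
  · have h1 : H =ᵐ[ν] 0 :=
      (integral_eq_zero_iff_of_nonneg (fun w => (hH.2 w).1) (hH.bm.integrable ν)).1 h'.symm
    have h2 : ∫ w, phi (G w) (H w) ∂ν = ∫ w, (0 : ℝ) ∂ν := by
      refine integral_congr_ae ?_
      filter_upwards [h1] with w hw
      have hw' : H w = 0 := hw
      rw [hw']
      simp [phi]
    rw [h2, ← h']
    simp [phi]
  set α := ∫ w, G w ∂ν with hα
  set β := ∫ w, H w ∂ν with hβ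
  have h1 : ∫ w, phi (G w) (H w) ∂ν ≤
      ∫ w, (G w * Real.log ((α + β) / α) + H w * Real.log ((α + β) / β)) ∂ν := by
    refine integral_mono ((bm_phi hG hH).integrable ν) ?_ fun w =>
      phi_le (hG.2 w).1 (hH.2 w).1 h h'
    exact ((hG.bm.integrable ν).mul_const _).add ((hH.bm.integrable ν).mul_const _)
  rw [integral_add ((hG.bm.integrable ν).mul_const _) ((hH.bm.integrable ν).mul_const _),
    integral_mul_const, integral_mul_const, ← hα, ← hβ] at h1
  refine h1.trans (le_of_eq ?_)
  unfold phi Real.negMulLog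
  rw [Real.log_div (by linarith) h.ne', Real.log_div (by linarith) h'.ne']
  ring

end

/-! ### Mixtures of two labellings -/

section

variable {n : ℕ} {Ω : Type}

open Classical in
/-- `w` on `A` and `w'` off `A` -/
noncomputable def mix (A : Set (FreeGroup (Fin n))) (w w' : FreeGroup (Fin n) → Ω) :
    FreeGroup (Fin n) → Ω := fun g => if g ∈ A then w g else w' g

theorem mix_mem {A : Set (FreeGroup (Fin n))} {g : FreeGroup (Fin n)} (h : g ∈ A)
    (w w' : FreeGroup (Fin n) → Ω) : mix A w w' g = w g := if_pos h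

theorem mix_notMem {A : Set (FreeGroup (Fin n))} {g : FreeGroup (Fin n)} (h : g ∉ A)
    (w w' : FreeGroup (Fin n) → Ω) : mix A w w' g = w' g := if_neg h

theorem mix_mix {A B : Set (FreeGroup (Fin n))} (h : A ⊆ B) (w w' w'' : FreeGroup (Fin n) → Ω) :
    mix B (mix A w w') w'' = mix A w (mix B w' w'') := by
  funext g
  by_cases h1 : g ∈ A
  · rw [mix_mem (h h1), mix_mem h1, mix_mem h1]
  · by_cases h2 : g ∈ B
    · rw [mix_mem h2, mix_notMem h1, mix_notMem h1, mix_mem h2]
    · rw [mix_notMem h2, mix_notMem h1, mix_notMem h2]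

variable [MeasurableSpace Ω] (P : Measure Ω) [IsProbabilityMeasure P]

theorem measurable_mix (A : Set (FreeGroup (Fin n))) :
    Measurable (fun z : (FreeGroup (Fin n) → Ω) × (FreeGroup (Fin n) → Ω) => mix A z.1 z.2) := by
  refine measurable_pi_lambda _ fun g => ?_
  by_cases h : g ∈ A
  · simp only [mix_mem h]
    exact (measurable_pi_apply g).comp measurable_fst
  · simp only [mix_notMem h]
    exact (measurable_pi_apply g).comp measurable_snd

theorem measurable_mix_right (A : Set (FreeGroup (Fin n))) (w : FreeGroup (Fin n) → Ω) :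
    Measurable (fun w' => mix A w w') := (measurable_mix A).comp measurable_prodMk_left

theorem mp_mix (A : Set (FreeGroup (Fin n))) :
    MeasurePreserving (fun z : (FreeGroup (Fin n) → Ω) × (FreeGroup (Fin n) → Ω) => mix A z.1 z.2)
      ((nu n P).prod (nu n P)) (nu n P) := by
  classical
  refine ⟨measurable_mix A, ?_⟩
  refine Measure.eq_infinitePi _ fun s t ht => ?_
  have hm : MeasurableSet (Set.pi (s : Set (FreeGroup (Fin n))) t) :=
    MeasurableSet.pi (Set.to_countable _) fun i _ => ht i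
  rw [Measure.map_apply (measurable_mix A) hm]
  have h1 : (fun z : (FreeGroup (Fin n) → Ω) × (FreeGroup (Fin n) → Ω) => mix A z.1 z.2) ⁻¹'
      (Set.pi (s : Set (FreeGroup (Fin n))) t) =
      (Set.pi ((s.filter (fun g => g ∈ A) : Finset _) : Set (FreeGroup (Fin n))) t) ×ˢ
        (Set.pi ((s.filter (fun g => ¬ g ∈ A) : Finset _) : Set (FreeGroup (Fin n))) t) := by
    ext z
    simp only [Set.mem_preimage, Set.mem_pi, Set.mem_prod, Finset.mem_coe, Finset.mem_filter]
    constructor
    · intro h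
      refine ⟨fun i hi => ?_, fun i hi => ?_⟩
      · have := h i hi.1
        rwa [mix_mem hi.2] at this
      · have := h i hi.1
        rwa [mix_notMem hi.2] at this
    · rintro ⟨h2, h3⟩ i hi
      by_cases h4 : i ∈ A
      · rw [mix_mem h4]
        exact h2 i ⟨hi, h4⟩
      · rw [mix_notMem h4]
        exact h3 i ⟨hi, h4⟩
  rw [h1, Measure.prod_prod]
  unfold nu
  rw [Measure.infinitePi_pi _ (fun i _ => ht i), Measure.infinitePi_pi _ (fun i _ => ht i)]
  exact Finset.prod_filter_mul_prod_filter_not s (fun g => g ∈ A) (fun i => P (t i))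

theorem int_mix (A : Set (FreeGroup (Fin n))) {F : (FreeGroup (Fin n) → Ω) → ℝ} (hF : BM F) :
    ∫ w, ∫ w', F (mix A w w') ∂(nu n P) ∂(nu n P) = ∫ w, F w ∂(nu n P) := by
  have h1 : BM (fun z : (FreeGroup (Fin n) → Ω) × (FreeGroup (Fin n) → Ω) => F (mix A z.1 z.2)) :=
    hF.comp' (measurable_mix A)
  rw [← integral_prod (f := fun z : (FreeGroup (Fin n) → Ω) × (FreeGroup (Fin n) → Ω) =>
    F (mix A z.1 z.2)) (h1.integrable _)]
  have h2 := integral_map (μ := (nu n P).prod (nu n P))
    (φ := fun z : (FreeGroup (Fin n) → Ω) × (FreeGroup (Fin n) → Ω) => mix A z.1 z.2) (f := F)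
    (measurable_mix A).aemeasurable (by rw [(mp_mix P A).map_eq]; exact hF.1.aestronglyMeasurable)
  rw [(mp_mix P A).map_eq] at h2
  exact h2.symm

theorem int_slice {S : Set ((FreeGroup (Fin n) → Ω) × (FreeGroup (Fin n) → Ω))}
    (hS : MeasurableSet S) :
    ∫ w, (nu n P).real (Prod.mk w ⁻¹' S) ∂(nu n P) = ((nu n P).prod (nu n P)).real S := by
  unfold Measure.real
  rw [integral_toReal, Measure.prod_apply hS]
  · exact (measurable_measure_prodMk_left hS).aemeasurable
  · exact Filter.Eventually.of_forall fun w => measure_lt_top _ _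

/-! ### Conditional probabilities -/

/-- the conditional probability of `D` given the labels on `A` -/
noncomputable def pc (A : Set (FreeGroup (Fin n))) (D : Set (FreeGroup (Fin n) → Ω))
    (w : FreeGroup (Fin n) → Ω) : ℝ := (nu n P).real {w' | mix A w w' ∈ D}

theorem um_pc (A : Set (FreeGroup (Fin n))) {D : Set (FreeGroup (Fin n) → Ω)}
    (hD : MeasurableSet D) : UM (pc P A D) := by
  refine ⟨?_, fun w => ⟨measureReal_nonneg, measureReal_le_one⟩⟩
  exact (measurable_measure_prodMk_left (measurable_mix A hD)).ennreal_toReal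

theorem pc_tower {A B : Set (FreeGroup (Fin n))} (h : A ⊆ B) {D : Set (FreeGroup (Fin n) → Ω)}
    (hD : MeasurableSet D) (w : FreeGroup (Fin n) → Ω) :
    ∫ w', pc P B D (mix A w w') ∂(nu n P) = pc P A D w := by
  have hm : MeasurableSet {w' | mix A w w' ∈ D} := measurable_mix_right A w hD
  have h1 : ∀ w' : FreeGroup (Fin n) → Ω, pc P B D (mix A w w') =
      (nu n P).real (Prod.mk w' ⁻¹' ((fun z : (FreeGroup (Fin n) → Ω) × (FreeGroup (Fin n) → Ω) =>
        mix B z.1 z.2) ⁻¹' {w' | mix A w w' ∈ D})) := by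
    intro w'
    unfold pc
    congr 1
    ext w''
    simp only [Set.mem_preimage, Set.mem_ofPred_eq, mix_mix h]
  simp only [h1]
  rw [int_slice P (measurable_mix B hm)]
  unfold Measure.real
  rw [(mp_mix P B).measure_preimage hm.nullMeasurableSet]
  rfl

theorem pc_union (A : Set (FreeGroup (Fin n))) {D D' : Set (FreeGroup (Fin n) → Ω)}
    (hD' : MeasurableSet D') (hd : Disjoint D D') (w : FreeGroup (Fin n) → Ω) :
    pc P A (D ∪ D') w = pc P A D w + pc P A D' w := by
  unfold pc
  have h1 : {w' | mix A w w' ∈ D ∪ D'} = {w' | mix A w w' ∈ D} ∪ {w' | mix A w w' ∈ D'} := rfl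
  have h4 : Disjoint {w' | mix A w w' ∈ D} {w' | mix A w w' ∈ D'} := by
    rw [Set.disjoint_left]
    intro w' h2 h3
    exact Set.disjoint_left.1 hd h2 h3
  have h5 : MeasurableSet {w' | mix A w w' ∈ D'} := measurable_mix_right A w hD'
  rw [h1, measureReal_union h4 h5]

theorem pc_empty (D : Set (FreeGroup (Fin n) → Ω)) (w : FreeGroup (Fin n) → Ω) :
    pc P ∅ D w = (nu n P).real D := by
  unfold pc
  have h1 : {w' | mix ∅ w w' ∈ D} = D := by
    ext w'
    have h2 : mix ∅ w w' = w' := by
      funext g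
      exact mix_notMem (Set.notMem_empty g) w w'
    simp only [Set.mem_ofPred_eq, h2]
  rw [h1]

/-! ### Entropies -/

/-- the integral of `η` of the conditional probability -/
noncomputable def ent (A : Set (FreeGroup (Fin n))) (D : Set (FreeGroup (Fin n) → Ω)) : ℝ :=
  ∫ w, negMulLog (pc P A D w) ∂(nu n P)

theorem ent_nonneg (A : Set (FreeGroup (Fin n))) {D : Set (FreeGroup (Fin n) → Ω)}
    (hD : MeasurableSet D) : 0 ≤ ent P A D :=
  integral_nonneg fun w => ((um_pc P A hD).nml.2 w).1

theorem ent_le_one (A : Set (FreeGroup (Fin n))) {D : Set (FreeGroup (Fin n) → Ω)}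
    (hD : MeasurableSet D) : ent P A D ≤ 1 := by
  have h1 : ent P A D ≤ ∫ _w : FreeGroup (Fin n) → Ω, (1 : ℝ) ∂(nu n P) :=
    integral_mono ((um_pc P A hD).nml.bm.integrable _) (integrable_const _)
      fun w => ((um_pc P A hD).nml.2 w).2
  simpa using h1

theorem ent_empty (D : Set (FreeGroup (Fin n) → Ω)) : ent P ∅ D = negMulLog ((nu n P).real D) := by
  unfold ent
  simp only [pc_empty]
  simp

theorem ent_anti {A B : Set (FreeGroup (Fin n))} (h : A ⊆ B) {D : Set (FreeGroup (Fin n) → Ω)}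
    (hD : MeasurableSet D) : ent P B D ≤ ent P A D := by
  unfold ent
  have hu := um_pc P B hD
  rw [← int_mix P A hu.nml.bm]
  refine integral_mono ?_ ((um_pc P A hD).nml.bm.integrable _) fun w => ?_
  · have h1 : BM (fun z : (FreeGroup (Fin n) → Ω) × (FreeGroup (Fin n) → Ω) =>
        negMulLog (pc P B D (mix A z.1 z.2))) := hu.nml.bm.comp' (measurable_mix A)
    exact (h1.integrable ((nu n P).prod (nu n P))).integral_prod_left
  · have h1 := jensen1 (nu n P) (hu.comp (measurable_mix_right A w))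
    rw [pc_tower P h hD w] at h1
    exact h1

/-- the data processing inequality -/
theorem ent_pair {A B : Set (FreeGroup (Fin n))} (h : A ⊆ B) {D D' : Set (FreeGroup (Fin n) → Ω)}
    (hD : MeasurableSet D) (hD' : MeasurableSet D') :
    ent P A D - ent P B D ≤
      (ent P A (D ∩ D') + ent P A (D \ D') + ent P A (D' \ D)) -
        (ent P B (D ∩ D') + ent P B (D \ D') + ent P B (D' \ D)) := by
  have h1 := ent_anti P h (hD'.diff hD)
  have hi := hD.inter hD'
  have hs := hD.diff hD'
  have hφ : ∀ C : Set (FreeGroup (Fin n)), ent P C (D ∩ D') + ent P C (D \ D') - ent P C D =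
      ∫ w, phi (pc P C (D ∩ D') w) (pc P C (D \ D') w) ∂(nu n P) := by
    intro C
    have h2 : ∀ w, pc P C D w = pc P C (D ∩ D') w + pc P C (D \ D') w := by
      intro w
      rw [← pc_union P C hs (Set.disjoint_left.2 fun x hx hx' => hx'.2 hx.2) w,
        Set.inter_union_sdiff]
    unfold ent
    have i1 : Integrable (fun w => negMulLog (pc P C (D ∩ D') w) + negMulLog (pc P C (D \ D') w))
        (nu n P) := ((um_pc P C hi).nml.bm.integrable _).add ((um_pc P C hs).nml.bm.integrable _)
    rw [← integral_add ((um_pc P C hi).nml.bm.integrable _) ((um_pc P C hs).nml.bm.integrable _),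
      ← integral_sub i1 ((um_pc P C hD).nml.bm.integrable _)]
    refine integral_congr_ae (Filter.Eventually.of_forall fun w => ?_)
    simp only [phi]
    rw [h2 w]
  have h2 : ent P B (D ∩ D') + ent P B (D \ D') - ent P B D ≤
      ent P A (D ∩ D') + ent P A (D \ D') - ent P A D := by
    rw [hφ B, hφ A]
    have hu := um_pc P B hi
    have hu' := um_pc P B hs
    rw [← int_mix P A (bm_phi hu hu')]
    refine integral_mono ?_ ((bm_phi (um_pc P A hi) (um_pc P A hs)).integrable _) fun w => ?_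
    · have h3 : BM (fun z : (FreeGroup (Fin n) → Ω) × (FreeGroup (Fin n) → Ω) =>
          phi (pc P B (D ∩ D') (mix A z.1 z.2)) (pc P B (D \ D') (mix A z.1 z.2))) :=
        (bm_phi hu hu').comp' (measurable_mix A)
      exact (h3.integrable ((nu n P).prod (nu n P))).integral_prod_left
    · have h3 := jensen2 (nu n P) (hu.comp (measurable_mix_right A w))
        (hu'.comp (measurable_mix_right A w))
      rw [pc_tower P h hi w, pc_tower P h hs w] at h3
      exact h3
  linarith

/-- translations -/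
theorem pc_sh (A : Set (FreeGroup (Fin n))) {D : Set (FreeGroup (Fin n) → Ω)}
    (hD : MeasurableSet D) (γ : FreeGroup (Fin n)) (w : FreeGroup (Fin n) → Ω) :
    pc P A (sh γ ⁻¹' D) w = pc P {δ | γ⁻¹ * δ ∈ A} D (sh γ w) := by
  unfold pc
  have hm : MeasurableSet {w' | mix {δ | γ⁻¹ * δ ∈ A} (sh γ w) w' ∈ D} :=
    measurable_mix_right _ _ hD
  have h1 : {w' | mix A w w' ∈ sh γ ⁻¹' D} =
      sh γ ⁻¹' {w' | mix {δ | γ⁻¹ * δ ∈ A} (sh γ w) w' ∈ D} := by
    ext w'
    simp only [Set.mem_preimage, Set.mem_ofPred_eq]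
    have h2 : sh γ (mix A w w') = mix {δ | γ⁻¹ * δ ∈ A} (sh γ w) (sh γ w') := by
      funext δ
      rw [sh_apply]
      by_cases h3 : γ⁻¹ * δ ∈ A
      · rw [mix_mem h3, mix_mem (show δ ∈ {δ | γ⁻¹ * δ ∈ A} from h3), sh_apply]
      · rw [mix_notMem h3, mix_notMem (show δ ∉ {δ | γ⁻¹ * δ ∈ A} from h3), sh_apply]
    rw [h2]
  rw [h1]
  unfold Measure.real
  rw [(mps P γ).measure_preimage hm.nullMeasurableSet]

theorem int_sh {F : (FreeGroup (Fin n) → Ω) → ℝ} (hF : BM F) (γ : FreeGroup (Fin n)) :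
    ∫ w, F (sh γ w) ∂(nu n P) = ∫ w, F w ∂(nu n P) := by
  have h2 := integral_map (μ := nu n P) (φ := sh γ) (f := F) (mps P γ).measurable.aemeasurable
    (by rw [(mps P γ).map_eq]; exact hF.1.aestronglyMeasurable)
  rw [(mps P γ).map_eq] at h2
  exact h2.symm

theorem ent_sh (A : Set (FreeGroup (Fin n))) {D : Set (FreeGroup (Fin n) → Ω)}
    (hD : MeasurableSet D) (γ : FreeGroup (Fin n)) :
    ent P A (sh γ ⁻¹' D) = ent P {δ | γ⁻¹ * δ ∈ A} D := by
  unfold ent
  simp only [pc_sh P A hD γ]
  exact int_sh P (um_pc P _ hD).nml.bm γ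

/-- events which depend only on the labels on `K` -/
def Dep (K : Set (FreeGroup (Fin n))) (D : Set (FreeGroup (Fin n) → Ω)) : Prop :=
  ∀ w w' : FreeGroup (Fin n) → Ω, (∀ g ∈ K, w g = w' g) → (w ∈ D ↔ w' ∈ D)

omit [MeasurableSpace Ω] in
theorem Dep.mono {K K' : Set (FreeGroup (Fin n))} {D : Set (FreeGroup (Fin n) → Ω)}
    (h : Dep K D) (hK : K ⊆ K') : Dep K' D :=
  fun w w' hw => h w w' fun g hg => hw g (hK hg)

omit [MeasurableSpace Ω] in
theorem Dep.inter {K : Set (FreeGroup (Fin n))} {D D' : Set (FreeGroup (Fin n) → Ω)}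
    (h : Dep K D) (h' : Dep K D') : Dep K (D ∩ D') :=
  fun w w' hw => and_congr (h w w' hw) (h' w w' hw)

omit [MeasurableSpace Ω] in
theorem Dep.diff {K : Set (FreeGroup (Fin n))} {D D' : Set (FreeGroup (Fin n) → Ω)}
    (h : Dep K D) (h' : Dep K D') : Dep K (D \ D') :=
  fun w w' hw => and_congr (h w w' hw) (not_congr (h' w w' hw))

theorem pc_dep {K A B : Set (FreeGroup (Fin n))} {D : Set (FreeGroup (Fin n) → Ω)}
    (h : Dep K D) (hAB : ∀ g ∈ K, g ∈ A ↔ g ∈ B) (w : FreeGroup (Fin n) → Ω) :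
    pc P A D w = pc P B D w := by
  unfold pc
  congr 1
  ext w'
  apply h
  intro g hg
  by_cases h1 : g ∈ A
  · rw [mix_mem h1, mix_mem ((hAB g hg).1 h1)]
  · rw [mix_notMem h1, mix_notMem (fun h2 => h1 ((hAB g hg).2 h2))]

theorem ent_dep {K A B : Set (FreeGroup (Fin n))} {D : Set (FreeGroup (Fin n) → Ω)}
    (h : Dep K D) (hAB : ∀ g ∈ K, g ∈ A ↔ g ∈ B) : ent P A D = ent P B D := by
  unfold ent
  simp only [pc_dep P h hAB]

theorem ent_full {K : Set (FreeGroup (Fin n))} {D : Set (FreeGroup (Fin n) → Ω)}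
    (h : Dep K D) : ent P K D = 0 := by
  unfold ent
  have h1 : ∀ w, negMulLog (pc P K D w) = 0 := by
    intro w
    by_cases hw : w ∈ D
    · have h2 : {w' | mix K w w' ∈ D} = Set.univ := by
        ext w'
        simp only [Set.mem_ofPred_eq, Set.mem_univ, iff_true]
        exact (h w _ fun g hg => (mix_mem hg w w').symm).1 hw
      unfold pc
      rw [h2]
      simp
    · have h2 : {w' | mix K w w' ∈ D} = ∅ := by
        ext w'
        simp only [Set.mem_ofPred_eq, Set.mem_empty_iff_false, iff_false]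
        intro h3
        exact hw ((h w _ fun g hg => (mix_mem hg w w').symm).2 h3)
      unfold pc
      rw [h2]
      simp
  simp [h1]

end

end Pool.Agent.FF891
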