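import Pool.Agent.FF891.Vol

/-!
# FF891.Norm: every LCL problem is equivalent to an edge labelling problem with a vertex constraint

For an LCL problem `Q` of radius `r` on `F_n` label the edge from `v` to `v a_i` with the pair of the patterns of a solution
on the balls of radius `r` around `v` and `v a_i`. The vertex constraint `nC Q`: the `2 n` edges at `v` agree on the
pattern at `v`, it is allowed, and for the edges which leave `v` the two patterns agree on the common part.
-/

set_option autoImplicit false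

open MeasureTheory

namespace Pool.Agent.FF891

variable {n : ℕ}

/-- the patterns of the problem `Q` -/
abbrev Pat (Q : LCL n) : Type := {g : FreeGroup (Fin n) // g.norm ≤ Q.r} → Q.L

instance finite_pat (Q : LCL n) : Finite (Pat Q) := by
  have : Finite {g : FreeGroup (Fin n) // g.norm ≤ Q.r} := (finite_ball n Q.r).to_subtype
  have := Q.fin
  exact Pi.finite

/-- the vertex constraint -/
def nC (Q : LCL n) : Set (Fin n × Bool → Pat Q × Pat Q) :=
  {c | ∃ p ∈ Q.P, (∀ i, (c (i, true)).1 = p ∧ (c (i, false)).2 = p) ∧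
    ∀ (i : Fin n) (g h : {g : FreeGroup (Fin n) // g.norm ≤ Q.r}), h.1 = FreeGroup.of i * g.1 →
      (c (i, true)).2 g = (c (i, true)).1 h}

/-- the edge problem -/
def nQ (Q : LCL n) : LCL n := edgeLCL n (Pat Q × Pat Q) (nC Q)

/-- the pattern of a labelling at `v` -/
def pat (Q : LCL n) (f : FreeGroup (Fin n) → Q.L) (v : FreeGroup (Fin n)) : Pat Q :=
  fun g => f (v * g.1)

/-- the edge labelling of a labelling -/
noncomputable def nF (Q : LCL n) (f : FreeGroup (Fin n) → Q.L) (v : FreeGroup (Fin n)) :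
    Fin n × Bool → Pat Q × Pat Q :=
  fun s => if s.2 = true then (pat Q f v, pat Q f (v * FreeGroup.of s.1))
    else (pat Q f (v * (FreeGroup.of s.1)⁻¹), pat Q f v)

theorem pat_sh (Q : LCL n) (γ : FreeGroup (Fin n)) (f : FreeGroup (Fin n) → Q.L)
    (v : FreeGroup (Fin n)) : pat Q (sh γ f) v = pat Q f (γ⁻¹ * v) := by
  funext g
  simp only [pat, sh_apply, mul_assoc]

theorem nF_sh (Q : LCL n) (γ : FreeGroup (Fin n)) (f : FreeGroup (Fin n) → Q.L) :
    nF Q (sh γ f) = sh γ (nF Q f) := by
  funext v s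
  simp only [nF, sh_apply, pat_sh, mul_assoc]

theorem measurable_pat (Q : LCL n) {Φ : X n → FreeGroup (Fin n) → Q.L}
    (h : ∀ (δ : FreeGroup (Fin n)) (l : Q.L), MeasurableSet {x | Φ x δ = l})
    (v : FreeGroup (Fin n)) (p : Pat Q) : MeasurableSet {x | pat Q (Φ x) v = p} := by
  have h1 : {x | pat Q (Φ x) v = p} = ⋂ g, {x | Φ x (v * g.1) = p g} := by
    ext x
    rw [Set.mem_iInter]
    exact funext_iff
  rw [h1]
  exact MeasurableSet.iInter fun g => h _ _

theorem fiid_nQ (Q : LCL n) (h : FIID Q) : FIID (nQ Q) := by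
  obtain ⟨Φ, hΦ⟩ := h
  refine ⟨fun x => nF Q (Φ x), ⟨?_, ?_, ?_⟩⟩
  · intro v e
    have h1 : {x : X n | nF Q (Φ x) v = e} = ⋂ s, {x | nF Q (Φ x) v s = e s} := by
      ext x
      rw [Set.mem_iInter]
      exact funext_iff
    show MeasurableSet {x : X n | nF Q (Φ x) v = e}
    rw [h1]
    refine MeasurableSet.iInter fun s => ?_
    obtain ⟨i, b⟩ := s
    cases b
    · have h2 : {x : X n | nF Q (Φ x) v (i, false) = e (i, false)} =
          {x | pat Q (Φ x) (v * (FreeGroup.of i)⁻¹) = (e (i, false)).1} ∩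
            {x | pat Q (Φ x) v = (e (i, false)).2} := by
        ext x
        rw [Set.mem_inter_iff]
        exact Prod.ext_iff
      rw [h2]
      exact (measurable_pat Q hΦ.meas _ _).inter (measurable_pat Q hΦ.meas _ _)
    · have h2 : {x : X n | nF Q (Φ x) v (i, true) = e (i, true)} =
          {x | pat Q (Φ x) v = (e (i, true)).1} ∩
            {x | pat Q (Φ x) (v * FreeGroup.of i) = (e (i, true)).2} := by
        ext x
        rw [Set.mem_inter_iff]
        exact Prod.ext_iff
      rw [h2]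
      exact (measurable_pat Q hΦ.meas _ _).inter (measurable_pat Q hΦ.meas _ _)
  · intro γ x
    show nF Q (Φ (sh γ x)) = sh γ (nF Q (Φ x))
    rw [hΦ.equi, nF_sh]
  · filter_upwards [hΦ.sol] with x hx
    refine edgeLCL_solves.2 fun v => ⟨⟨pat Q (Φ x) v, hx v, fun i => ⟨?_, ?_⟩, ?_⟩, ?_⟩
    · simp [nF]
    · simp [nF]
    · intro i g h hgh
      simp only [nF, if_true, pat]
      rw [hgh, mul_assoc]
    · rintro ⟨i, b⟩
      cases b
      · simp [nF, dir, opp]
      · simp [nF, dir, opp]

theorem ffiid_nQ (hn : 0 < n) (Q : LCL n) (h : FFIID (nQ Q)) : FFIID Q := by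
  obtain ⟨Ψ, hΨ, hfin⟩ := h
  have h1r : (1 : FreeGroup (Fin n)).norm ≤ Q.r := by
    rw [FreeGroup.norm_one]
    exact Nat.zero_le _
  let i₀ : Fin n := ⟨0, hn⟩
  let rd : (Fin n × Bool → Pat Q × Pat Q) → Q.L := fun c => (c (i₀, true)).1 ⟨1, h1r⟩
  refine ⟨fun x v => rd (Ψ x v), ⟨?_, ?_, ?_⟩, ?_⟩
  · intro v l
    have h1 : {x : X n | rd (Ψ x v) = l} =
        ⋃ e : {e : Fin n × Bool → Pat Q × Pat Q // rd e = l}, {x | Ψ x v = e.1} := by
      ext x
      rw [Set.mem_iUnion]
      constructor
      · intro h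
        exact ⟨⟨Ψ x v, h⟩, rfl⟩
      · rintro ⟨⟨e, he⟩, h⟩
        have h2 : Ψ x v = e := h
        exact (congrArg rd h2).trans he
    rw [h1]
    have : Finite (Fin n × Bool → Pat Q × Pat Q) := Pi.finite
    exact MeasurableSet.iUnion fun e => hΨ.meas v e.1
  · intro γ x
    funext v
    show rd (Ψ (sh γ x) v) = rd (Ψ x (γ⁻¹ * v))
    rw [hΨ.equi]
    rfl
  · filter_upwards [hΨ.sol] with x hx
    have hx' : ∀ v, Ψ x v ∈ nC Q ∧ ∀ s : Fin n × Bool, Ψ x v s = Ψ x (v * dir s) (opp s) :=
      edgeLCL_solves.1 hx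
    let p : FreeGroup (Fin n) → Pat Q := fun v => (Ψ x v (i₀, true)).1
    have hp : ∀ v, p v ∈ Q.P ∧ ∀ i, (Ψ x v (i, true)).1 = p v ∧ (Ψ x v (i, false)).2 = p v := by
      intro v
      obtain ⟨⟨q, hq, hq2, -⟩, -⟩ := hx' v
      have h1 : p v = q := (hq2 i₀).1
      rw [h1]
      exact ⟨hq, hq2⟩
    have hstep : ∀ (v : FreeGroup (Fin n)) (i : Fin n)
        (g h : {g : FreeGroup (Fin n) // g.norm ≤ Q.r}), h.1 = FreeGroup.of i * g.1 →
        p (v * FreeGroup.of i) g = p v h := by
      intro v i g h hgh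
      obtain ⟨⟨q, hq, hq2, hq3⟩, he⟩ := hx' v
      have h1 := hq3 i g h hgh
      have h2 := he (i, true)
      have h3 : dir (i, true) = FreeGroup.of i := by simp [dir]
      rw [h3] at h2
      have h4 : opp (i, true) = (i, false) := rfl
      rw [h4] at h2
      rw [← ((hp (v * FreeGroup.of i)).2 i).2, ← h2, h1, ((hp v).2 i).1]
    have hlist : ∀ (L : List (Fin n × Bool)) (hL : L.length ≤ Q.r) (v : FreeGroup (Fin n)),
        p v ⟨FreeGroup.mk L, FreeGroup.norm_mk_le.trans hL⟩ = p (v * FreeGroup.mk L) ⟨1, h1r⟩ := by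
      intro L
      induction L with
      | nil =>
        intro hL v
        have h1 : FreeGroup.mk ([] : List (Fin n × Bool)) = 1 := rfl
        simp only [h1, mul_one]
      | cons a L ih =>
        intro hL v
        have hL' : L.length ≤ Q.r := by
          rw [List.length_cons] at hL
          omega
        obtain ⟨i, b⟩ := a
        cases b
        · have h1 : FreeGroup.mk ((i, false) :: L) = (FreeGroup.of i)⁻¹ * FreeGroup.mk L := by
            rw [FreeGroup.of, FreeGroup.inv_mk, FreeGroup.mul_mk]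
            rfl
          have h2 := ih hL' (v * (FreeGroup.of i)⁻¹)
          have h3 := hstep (v * (FreeGroup.of i)⁻¹) i
            ⟨FreeGroup.mk ((i, false) :: L), FreeGroup.norm_mk_le.trans hL⟩
            ⟨FreeGroup.mk L, FreeGroup.norm_mk_le.trans hL'⟩ (by
              show FreeGroup.mk L = FreeGroup.of i * FreeGroup.mk ((i, false) :: L)
              rw [h1, mul_inv_cancel_left])
          rw [inv_mul_cancel_right] at h3
          rw [h3, h2, h1, mul_assoc]
        · have h1 : FreeGroup.mk ((i, true) :: L) = FreeGroup.of i * FreeGroup.mk L := by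
            rw [FreeGroup.of, FreeGroup.mul_mk]
            rfl
          have h2 := ih hL' (v * FreeGroup.of i)
          have h3 := hstep v i ⟨FreeGroup.mk L, FreeGroup.norm_mk_le.trans hL'⟩
            ⟨FreeGroup.mk ((i, true) :: L), FreeGroup.norm_mk_le.trans hL⟩ h1
          rw [← h3, h2, h1, mul_assoc]
    intro v
    have h1 : (fun s : {g : FreeGroup (Fin n) // g.norm ≤ Q.r} => rd (Ψ x (v * s.1))) = p v := by
      funext s
      have h2 := hlist s.1.toWord s.2 v
      simp only [FreeGroup.mk_toWord] at h2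
      exact h2.symm
    rw [h1]
    exact (hp v).1
  · filter_upwards [hfin] with x hx
    obtain ⟨R, hR⟩ := hx
    refine ⟨R, fun y hy => ?_⟩
    show rd (Ψ y 1) = rd (Ψ x 1)
    rw [hR y hy]

end Pool.Agent.FF891
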