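import Pool.Agent.FF891.Vol
import Pool.Agent.FF891.Deg

/-!
# FF891.Odd: problems with odd degrees are rigid
-/

set_option autoImplicit false

open MeasureTheory

namespace Pool.Agent.FF891

variable {n : ℕ}

theorem dir_eq_mk (s : Fin n × Bool) : dir s = FreeGroup.mk [s] := by
  obtain ⟨i, b⟩ := s
  cases b
  · simp only [dir, Bool.false_eq_true, if_false]
    rw [FreeGroup.of, FreeGroup.inv_mk]
    rfl
  · rfl

/-- a direction which does not cancel the last letter increases the norm -/
theorem norm_mul_dir {v : FreeGroup (Fin n)} {s : Fin n × Bool}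
    (h : v.toWord.getLast? ≠ some (opp s)) : (v * dir s).norm = v.norm + 1 := by
  have h1 : v * dir s = FreeGroup.mk (v.toWord ++ [s]) := by
    rw [dir_eq_mk, ← FreeGroup.mul_mk, FreeGroup.mk_toWord]
  have h2 : FreeGroup.IsReduced (v.toWord ++ [s]) := by
    unfold FreeGroup.IsReduced
    rw [List.isChain_append]
    refine ⟨FreeGroup.isReduced_toWord, List.isChain_singleton _, ?_⟩
    intro x hx y hy hxy
    simp only [List.head?_cons, Option.mem_def, Option.some.injEq] at hy
    subst hy
    by_contra hne
    apply h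
    rw [Option.mem_def] at hx
    rw [hx]
    congr 1
    unfold opp
    refine Prod.ext hxy ?_
    change x.2 = !s.2
    cases hx2 : x.2 <;> cases hs2 : s.2 <;> simp_all
  rw [h1, FreeGroup.norm, FreeGroup.toWord_mk, h2.reduce_eq, List.length_append]
  rfl

theorem opp_opp (s : Fin n × Bool) : opp (opp s) = s := by
  obtain ⟨i, b⟩ := s
  simp [opp]

/-- one of two different directions increases the norm -/
theorem exists_dir {v : FreeGroup (Fin n)} {s s' : Fin n × Bool} (h : s ≠ s') :
    (v * dir s).norm = v.norm + 1 ∨ (v * dir s').norm = v.norm + 1 := by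
  by_cases h1 : v.toWord.getLast? = some (opp s)
  · right
    apply norm_mul_dir
    rw [h1]
    intro h2
    apply h
    have h3 : opp s = opp s' := Option.some_injective _ h2
    rw [← opp_opp s, h3, opp_opp]
  · left
    exact norm_mul_dir h1

theorem card_ne_even (c d : Fin n × Bool → Bool)
    (hc : Odd (Finset.univ.filter fun s => c s = true).card)
    (hd : Odd (Finset.univ.filter fun s => d s = true).card) :
    Even (Finset.univ.filter fun s => c s ≠ d s).card := by
  have h1 : (Finset.univ.filter fun s => c s ≠ d s).card +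
      2 * (Finset.univ.filter fun s => c s = true ∧ d s = true).card =
      (Finset.univ.filter fun s => c s = true).card +
        (Finset.univ.filter fun s => d s = true).card := by
    simp only [Finset.card_filter, Finset.mul_sum]
    rw [← Finset.sum_add_distrib, ← Finset.sum_add_distrib]
    refine Finset.sum_congr rfl fun s _ => ?_
    cases c s <;> cases d s <;> simp
  have h2 := hc.add_odd hd
  rw [← h1] at h2
  have h3 : Even (2 * (Finset.univ.filter fun s => c s = true ∧ d s = true).card) :=
    even_two_mul _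
  exact (Nat.even_add.1 h2).2 h3

theorem two_le_ne (c d : Fin n × Bool → Bool) (hcd : c ≠ d)
    (hc : Odd (Finset.univ.filter fun s => c s = true).card)
    (hd : Odd (Finset.univ.filter fun s => d s = true).card) :
    ∃ s s', c s ≠ d s ∧ c s' ≠ d s' ∧ s ≠ s' := by
  have hev := card_ne_even c d hc hd
  have hpos : 0 < (Finset.univ.filter fun s => c s ≠ d s).card := by
    rw [Finset.card_pos]
    by_contra h
    rw [Finset.not_nonempty_iff_eq_empty] at h
    apply hcd
    funext s
    by_contra h1
    have h2 : s ∈ (Finset.univ.filter fun s => c s ≠ d s) := by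
      rw [Finset.mem_filter]
      exact ⟨Finset.mem_univ _, h1⟩
    rw [h] at h2
    exact absurd h2 (Finset.notMem_empty _)
  have h2 : 1 < (Finset.univ.filter fun s => c s ≠ d s).card := by
    obtain ⟨k, hk⟩ := hev
    omega
  obtain ⟨s, hs, s', hs', hss⟩ := Finset.one_lt_card.1 h2
  rw [Finset.mem_filter] at hs hs'
  exact ⟨s, s', hs.2, hs'.2, hss⟩

theorem rigid_odd {K : Set ℕ} (hK : ∀ k ∈ K, Odd k) : Rigid (degLCL n K) := by
  intro f g hf hg hfin
  have hf' := edgeLCL_solves.1 hf
  have hg' := edgeLCL_solves.1 hg
  by_contra hne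
  have hD : {δ | f δ ≠ g δ}.Nonempty := by
    by_contra h
    rw [Set.not_nonempty_iff_eq_empty] at h
    apply hne
    funext δ
    by_contra h1
    have h2 : δ ∈ {δ | f δ ≠ g δ} := h1
    rw [h] at h2
    exact h2
  obtain ⟨v, hv, hmax⟩ := Set.exists_max_image _ (fun δ => δ.norm) hfin hD
  obtain ⟨s, s', hs, hs', hss⟩ := two_le_ne (f v) (g v) hv (hK _ (hf' v).1) (hK _ (hg' v).1)
  have key : ∀ t : Fin n × Bool, f v t ≠ g v t → (v * dir t).norm ≠ v.norm + 1 := by
    intro t ht h3
    have h4 : v * dir t ∈ {δ | f δ ≠ g δ} := by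
      intro h5
      apply ht
      rw [(hf' v).2 t, (hg' v).2 t, h5]
    have h6 := hmax _ h4
    omega
  rcases exists_dir (v := v) hss with h3 | h3
  · exact key s hs h3
  · exact key s' hs' h3

theorem even_const (c : Fin n × Bool → Bool) (h : ∀ s, c s = c (opp s)) :
    Even (Finset.univ.filter fun s => c s = true).card := by
  rw [card_dirs]
  have h3 : ∑ i : Fin n, b2n (c (i, true)) = ∑ i : Fin n, b2n (c (i, false)) := by
    refine Finset.sum_congr rfl fun i _ => ?_
    rw [h (i, true)]
    rfl
  rw [h3, ← two_mul]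
  exact even_two_mul _

theorem no_const_odd {K : Set ℕ} (hK : ∀ k ∈ K, Odd k) (l : (degLCL n K).L) :
    ¬ (degLCL n K).Solves (fun _ => l) := by
  intro h
  have h1 := edgeLCL_solves.1 h 1
  exact Nat.not_odd_iff_even.2 (even_const l h1.2) (hK _ h1.1)

end Pool.Agent.FF891
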