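import Pool.Agent.FF891.Defs

/-!
# FF891.Res: resampling of coordinates

`rs K x y` has the coordinates of `y` on `K` and the coordinates of `x` elsewhere. If the event `G`
is almost surely not changed by resampling one coordinate (any one), then it has probability `0` or
`1`.
-/

set_option autoImplicit false

open MeasureTheory

namespace Pool.Agent.FF891

variable {n : ℕ}

open Classical in
/-- resampling of the coordinates in `K` -/
noncomputable def rs (K : Finset (FreeGroup (Fin n))) (x y : X n) : X n :=
  fun δ => if δ ∈ K then y δ else x δ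

theorem measurable_rs (K : Finset (FreeGroup (Fin n))) :
    Measurable (fun p : X n × X n => rs K p.1 p.2) := by
  refine measurable_pi_lambda _ fun δ => ?_
  unfold rs
  by_cases h : δ ∈ K
  · simp only [h, if_true]
    fun_prop
  · simp only [h, if_false]
    fun_prop

theorem mp_rs (K : Finset (FreeGroup (Fin n))) :
    MeasurePreserving (fun p : X n × X n => rs K p.1 p.2) ((mu n).prod (mu n)) (mu n) := by
  classical
  refine ⟨measurable_rs K, ?_⟩
  refine Measure.eq_infinitePi _ fun s t ht => ?_
  rw [Measure.map_apply (measurable_rs K) (MeasurableSet.pi s.countable_toSet fun i _ => ht i)]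
  have h1 : (fun p : X n × X n => rs K p.1 p.2) ⁻¹' ((s : Set _).pi t) =
      (((s \ K : Finset _) : Set (FreeGroup (Fin n))).pi t) ×ˢ
        (((s ∩ K : Finset _) : Set (FreeGroup (Fin n))).pi t) := by
    ext p
    simp only [Set.mem_preimage, Set.mem_pi, Finset.mem_coe, Set.mem_prod, Finset.mem_sdiff,
      Finset.mem_inter, rs]
    constructor
    · intro h
      refine ⟨fun i hi => ?_, fun i hi => ?_⟩
      · have := h i hi.1
        rwa [if_neg hi.2] at this
      · have := h i hi.1
        rwa [if_pos hi.2] at this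
    · rintro ⟨h2, h3⟩ i hi
      split_ifs with hK
      · exact h3 i ⟨hi, hK⟩
      · exact h2 i ⟨hi, hK⟩
  rw [h1, Measure.prod_prod]
  unfold mu
  rw [Measure.infinitePi_pi _ (fun i _ => ht i), Measure.infinitePi_pi _ (fun i _ => ht i)]
  rw [← Finset.prod_union (Finset.disjoint_sdiff_inter s K), Finset.sdiff_union_inter]

/-- the two ways to resample one more coordinate -/
theorem rs_insert {K : Finset (FreeGroup (Fin n))} {δ : FreeGroup (Fin n)}
    (x y z : X n) : rs {δ} (rs K x y) z = rs (insert δ K) x (rs {δ} y z) := by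
  classical
  funext a
  unfold rs
  by_cases h1 : a = δ
  · subst h1
    simp
  · by_cases h2 : a ∈ K
    · simp [h1, h2]
    · simp [h1, h2]

/-- invariance under resampling of finitely many coordinates -/
theorem inv_rs {G : Set (X n)} (hG : MeasurableSet G)
    (h : ∀ δ : FreeGroup (Fin n), ∀ᵐ p ∂((mu n).prod (mu n)), rs {δ} p.1 p.2 ∈ G ↔ p.1 ∈ G)
    (K : Finset (FreeGroup (Fin n))) :
    ∀ᵐ p ∂((mu n).prod (mu n)), rs K p.1 p.2 ∈ G ↔ p.1 ∈ G := by
  classical
  induction K using Finset.induction_on with
  | empty =>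
    refine Filter.Eventually.of_forall fun p => ?_
    have h1 : rs ∅ p.1 p.2 = p.1 := by
      funext δ
      simp [rs]
    rw [h1]
  | insert δ K _ ih =>
    -- the measure on triples
    have m1 : MeasurePreserving (Prod.map (fun p : X n × X n => rs K p.1 p.2) id)
        (((mu n).prod (mu n)).prod (mu n)) ((mu n).prod (mu n)) :=
      (mp_rs K).prod (MeasurePreserving.id _)
    have m2 : MeasurePreserving (Prod.map id (fun p : X n × X n => rs {δ} p.1 p.2))
        ((mu n).prod ((mu n).prod (mu n))) ((mu n).prod (mu n)) :=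
      (MeasurePreserving.id _).prod (mp_rs {δ})
    have m3 := m2.comp (measurePreserving_prodAssoc (mu n) (mu n) (mu n))
    have m4 : MeasurePreserving (Prod.fst : (X n × X n) × X n → X n × X n)
        (((mu n).prod (mu n)).prod (mu n)) ((mu n).prod (mu n)) := measurePreserving_fst
    have h1 := m1.quasiMeasurePreserving.ae (h δ)
    have h2 := m4.quasiMeasurePreserving.ae ih
    have hS : MeasurableSet {p : X n × X n | rs (insert δ K) p.1 p.2 ∈ G ↔ p.1 ∈ G} := by
      have e1 : MeasurableSet {p : X n × X n | rs (insert δ K) p.1 p.2 ∈ G} :=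
        measurable_rs (insert δ K) hG
      have e2 : MeasurableSet {p : X n × X n | p.1 ∈ G} := measurable_fst hG
      exact MeasurableSet.iff e1 e2
    have h3 : ∀ᵐ q ∂(((mu n).prod (mu n)).prod (mu n)),
        (rs (insert δ K) q.1.1 (rs {δ} q.1.2 q.2) ∈ G ↔ q.1.1 ∈ G) := by
      filter_upwards [h1, h2] with q hq1 hq2
      rw [← rs_insert]
      exact hq1.trans hq2
    rw [ae_iff]
    have h4 : {p : X n × X n | ¬ (rs (insert δ K) p.1 p.2 ∈ G ↔ p.1 ∈ G)} =
        {p : X n × X n | rs (insert δ K) p.1 p.2 ∈ G ↔ p.1 ∈ G}ᶜ := rfl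
    rw [h4, ← m3.measure_preimage hS.compl.nullMeasurableSet]
    exact h3

theorem zero_one {G : Set (X n)} (hG : MeasurableSet G)
    (h : ∀ δ : FreeGroup (Fin n), ∀ᵐ p ∂((mu n).prod (mu n)), rs {δ} p.1 p.2 ∈ G ↔ p.1 ∈ G) :
    mu n G = 0 ∨ mu n G = 1 := by
  classical
  have key : ∀ A ∈ measurableCylinders (fun _ : FreeGroup (Fin n) => unitInterval),
      ((mu n).restrict G) A = (mu n G • mu n) A := by
    intro A hA
    have hAm : MeasurableSet A := MeasurableSet.of_mem_measurableCylinders hA
    obtain ⟨K, S, hS, rfl⟩ := (mem_measurableCylinders A).1 hA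
    rw [Measure.restrict_apply hAm, Measure.smul_apply, smul_eq_mul]
    have h1 := (mp_rs K).measure_preimage (hAm.inter hG).nullMeasurableSet
    rw [← h1]
    have h2 : (fun p : X n × X n => rs K p.1 p.2) ⁻¹' (cylinder K S ∩ G) =ᵐ[(mu n).prod (mu n)]
        G ×ˢ cylinder K S := by
      filter_upwards [inv_rs hG h K] with p hp
      have h3 : (rs K p.1 p.2 ∈ cylinder K S) = (p.2 ∈ cylinder K S) := by
        rw [mem_cylinder, mem_cylinder]
        congr 1
        funext i
        simp [rs]
      change (rs K p.1 p.2 ∈ cylinder K S ∧ rs K p.1 p.2 ∈ G) = (p.1 ∈ G ∧ p.2 ∈ cylinder K S)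
      rw [h3]
      exact propext ⟨fun h => ⟨hp.1 h.2, h.1⟩, fun h => ⟨h.2, hp.2 h.1⟩⟩
    rw [measure_congr h2, Measure.prod_prod]
  have h1 := ext_of_generate_finite _ generateFrom_measurableCylinders.symm
    isPiSystem_measurableCylinders key (by simp)
  have h2 : ((mu n).restrict G) G = (mu n G • mu n) G := by rw [h1]
  rw [Measure.restrict_apply hG, Set.inter_self, Measure.smul_apply, smul_eq_mul] at h2
  by_cases h0 : mu n G = 0
  · exact Or.inl h0
  · right
    have h3 : mu n G * 1 = mu n G * mu n G := by rw [mul_one]; exact h2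
    exact ((ENNReal.mul_right_inj h0 (measure_ne_top _ _)).1 h3).symm

end Pool.Agent.FF891
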