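import Pool.Agent.FF891.Mix

/-!
# FF891.Shap: the entropy inequality for events of Bernoulli shifts over free groups

For a measurable set `D` of the Bernoulli shift of the free group on `n` generators with measure `p`, let `q i` be the
measure of the intersection of `D` with its translate by the generator `i`. Then
`∑ i, (2 η p - η (q i) - 2 η (p - q i)) ≤ η p`, where `η x = - x log x`. The proof reveals the labels in a random order.
-/

set_option autoImplicit false

open MeasureTheory ProbabilityTheory
open scoped symmDiff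

namespace Pool.Agent.FF891

open Real (negMulLog)

variable {n : ℕ} {Ω : Type} [MeasurableSpace Ω] (P : Measure Ω) [IsProbabilityMeasure P]

/-- random times -/
noncomputable abbrev tm (n : ℕ) : Measure (X n) := nu n (volume : Measure unitInterval)

def bef (T : X n) (v : FreeGroup (Fin n)) : Set (FreeGroup (Fin n)) := {u | T u < T v}

def upto (T : X n) (v : FreeGroup (Fin n)) : Set (FreeGroup (Fin n)) := {u | T u < T v ∨ u = v}

theorem bef_subset (T : X n) (v : FreeGroup (Fin n)) : bef T v ⊆ upto T v := fun _ h => Or.inl h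

/-- the increment of the entropy when the label of `v` is revealed -/
noncomputable def inc (D : Set (FreeGroup (Fin n) → Ω)) (v : FreeGroup (Fin n)) (T : X n) : ℝ :=
  ent P (bef T v) D - ent P (upto T v) D

theorem inc_nonneg {D : Set (FreeGroup (Fin n) → Ω)} (hD : MeasurableSet D) (v : FreeGroup (Fin n))
    (T : X n) : 0 ≤ inc P D v T := by
  unfold inc
  have := ent_anti P (bef_subset T v) hD
  linarith

theorem inc_le_one {D : Set (FreeGroup (Fin n) → Ω)} (hD : MeasurableSet D)
    (v : FreeGroup (Fin n)) (T : X n) : inc P D v T ≤ 1 := by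
  unfold inc
  have := ent_le_one P (bef T v) hD
  have := ent_nonneg P (upto T v) hD
  linarith

theorem measurable_inc {K : Finset (FreeGroup (Fin n))} {D : Set (FreeGroup (Fin n) → Ω)}
    (hK : Dep (K : Set (FreeGroup (Fin n))) D) (v : FreeGroup (Fin n)) :
    Measurable (inc P D v) := by
  classical
  set b : X n → K → Bool := fun T u => decide (T u.1 < T v) with hb
  have hbm : Measurable b := by
    refine measurable_pi_lambda _ fun u => measurable_to_bool ?_
    have h1 : (fun T : X n => b T u) ⁻¹' {true} = {T | T u.1 < T v} := by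
      ext T
      simp [hb]
    rw [h1]
    exact measurableSet_lt (measurable_pi_apply _) (measurable_pi_apply _)
  set G : (K → Bool) → ℝ := fun c => ent P {u | ∃ h : u ∈ K, c ⟨u, h⟩ = true} D -
    ent P {u | (∃ h : u ∈ K, c ⟨u, h⟩ = true) ∨ u = v} D with hG
  have hGm : Measurable G := Measurable.of_discrete
  have h2 : inc P D v = fun T => G (b T) := by
    funext T
    unfold inc
    rw [hG]
    simp only []
    congr 1
    · refine ent_dep P hK fun g hg => ?_
      have hg' : g ∈ K := hg
      simp only [bef, hb, Set.mem_ofPred_eq, decide_eq_true_eq]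
      exact ⟨fun h => ⟨hg', h⟩, fun ⟨_, h⟩ => h⟩
    · refine ent_dep P hK fun g hg => ?_
      have hg' : g ∈ K := hg
      simp only [upto, hb, Set.mem_ofPred_eq, decide_eq_true_eq]
      constructor
      · rintro (h | h)
        · exact Or.inl ⟨hg', h⟩
        · exact Or.inr h
      · rintro (⟨_, h⟩ | h)
        · exact Or.inl h
        · exact Or.inr h
  rw [h2]
  exact hGm.comp hbm

theorem um_inc {K : Finset (FreeGroup (Fin n))} {D : Set (FreeGroup (Fin n) → Ω)}
    (hD : MeasurableSet D) (hK : Dep (K : Set (FreeGroup (Fin n))) D) (v : FreeGroup (Fin n)) :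
    UM (inc P D v) :=
  ⟨measurable_inc P hK v, fun T => ⟨inc_nonneg P hD v T, inc_le_one P hD v T⟩⟩

/-- the average increment -/
noncomputable def hh (D : Set (FreeGroup (Fin n) → Ω)) (v : FreeGroup (Fin n)) : ℝ :=
  ∫ T, inc P D v T ∂(tm n)

theorem hh_nonneg {D : Set (FreeGroup (Fin n) → Ω)} (hD : MeasurableSet D)
    (v : FreeGroup (Fin n)) : 0 ≤ hh P D v :=
  integral_nonneg fun T => inc_nonneg P hD v T

theorem hh_eq_zero {K : Set (FreeGroup (Fin n))} {D : Set (FreeGroup (Fin n) → Ω)}
    (hK : Dep K D) {v : FreeGroup (Fin n)} (hv : v ∉ K) : hh P D v = 0 := by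
  unfold hh
  have h1 : ∀ T : X n, inc P D v T = 0 := by
    intro T
    unfold inc
    rw [ent_dep P hK (A := bef T v) (B := upto T v), sub_self]
    intro g hg
    constructor
    · exact fun h => Or.inl h
    · rintro (h | h)
      · exact h
      · exact absurd (h ▸ hg) hv
  simp [h1]

theorem inc_sh {D : Set (FreeGroup (Fin n) → Ω)} (hD : MeasurableSet D)
    (γ v : FreeGroup (Fin n)) (T : X n) :
    inc P (sh γ ⁻¹' D) v T = inc P D (γ * v) (sh γ T) := by
  unfold inc
  rw [ent_sh P _ hD, ent_sh P _ hD]
  have e1 : {δ | γ⁻¹ * δ ∈ bef T v} = bef (sh γ T) (γ * v) := by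
    ext δ
    simp only [bef, Set.mem_ofPred_eq, sh_apply, inv_mul_cancel_left]
  have e2 : {δ | γ⁻¹ * δ ∈ upto T v} = upto (sh γ T) (γ * v) := by
    ext δ
    simp only [upto, Set.mem_ofPred_eq, sh_apply, inv_mul_cancel_left]
    rw [inv_mul_eq_iff_eq_mul]
  rw [e1, e2]

theorem hh_sh {K : Finset (FreeGroup (Fin n))} {D : Set (FreeGroup (Fin n) → Ω)}
    (hD : MeasurableSet D) (hK : Dep (K : Set (FreeGroup (Fin n))) D) (γ v : FreeGroup (Fin n)) :
    hh P (sh γ ⁻¹' D) v = hh P D (γ * v) := by
  unfold hh
  simp only [inc_sh P hD]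
  exact int_sh (volume : Measure unitInterval) (um_inc P hD hK (γ * v)).bm γ

/-- telescoping -/
theorem telescope (E : Finset (FreeGroup (Fin n)) → ℝ) (T : X n) (s : Finset (FreeGroup (Fin n)))
    (hT : Set.InjOn T (s : Set (FreeGroup (Fin n)))) [DecidableEq (FreeGroup (Fin n))] :
    ∑ v ∈ s, (E (s.filter fun u => T u < T v) - E (s.filter fun u => T u < T v ∨ u = v)) =
      E ∅ - E s := by
  classical
  induction s using Finset.induction_on_max_value (f := T) with
  | empty => simp
  | insert a s ha hmax ih =>
    have hlt : ∀ x ∈ s, T x < T a := by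
      intro x hx
      refine lt_of_le_of_ne (hmax x hx) fun h => ?_
      have h1 := hT (Finset.mem_coe.2 (Finset.mem_insert_of_mem hx))
        (Finset.mem_coe.2 (Finset.mem_insert_self a s)) h
      exact ha (h1 ▸ hx)
    rw [Finset.sum_insert ha]
    have e1 : (insert a s).filter (fun u => T u < T a) = s := by
      ext u
      rw [Finset.mem_filter, Finset.mem_insert]
      constructor
      · rintro ⟨rfl | h, h'⟩
        · exact absurd h' (lt_irrefl _)
        · exact h
      · intro h
        exact ⟨Or.inr h, hlt u h⟩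
    have e2 : (insert a s).filter (fun u => T u < T a ∨ u = a) = insert a s := by
      ext u
      rw [Finset.mem_filter, Finset.mem_insert]
      constructor
      · rintro ⟨h, _⟩
        exact h
      · rintro (h | h)
        · exact ⟨Or.inl h, Or.inr h⟩
        · exact ⟨Or.inr h, Or.inl (hlt u h)⟩
    have e3 : ∑ v ∈ s, (E ((insert a s).filter fun u => T u < T v) -
        E ((insert a s).filter fun u => T u < T v ∨ u = v)) =
        ∑ v ∈ s, (E (s.filter fun u => T u < T v) - E (s.filter fun u => T u < T v ∨ u = v)) := by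
      refine Finset.sum_congr rfl fun v hv => ?_
      have h1 : (insert a s).filter (fun u => T u < T v) = s.filter fun u => T u < T v := by
        ext u
        rw [Finset.mem_filter, Finset.mem_insert, Finset.mem_filter]
        constructor
        · rintro ⟨rfl | h, h'⟩
          · exact absurd h' (not_lt.2 (hlt v hv).le)
          · exact ⟨h, h'⟩
        · rintro ⟨h, h'⟩
          exact ⟨Or.inr h, h'⟩
      have h2 : (insert a s).filter (fun u => T u < T v ∨ u = v) =
          s.filter fun u => T u < T v ∨ u = v := by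
        ext u
        rw [Finset.mem_filter, Finset.mem_insert, Finset.mem_filter]
        constructor
        · rintro ⟨rfl | h, h'⟩
          · rcases h' with h' | h'
            · exact absurd h' (not_lt.2 (hlt v hv).le)
            · exact absurd (h' ▸ hv) ha
          · exact ⟨h, h'⟩
        · rintro ⟨h, h'⟩
          exact ⟨Or.inr h, h'⟩
      rw [h1, h2]
    rw [e1, e2, e3, ih (hT.mono (by
      intro x hx
      exact Finset.mem_coe.2 (Finset.mem_insert_of_mem (Finset.mem_coe.1 hx))))]
    ring

theorem sum_inc {K : Finset (FreeGroup (Fin n))} {D : Set (FreeGroup (Fin n) → Ω)}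
    (hK : Dep (K : Set (FreeGroup (Fin n))) D) {T : X n}
    (hT : Set.InjOn T (K : Set (FreeGroup (Fin n)))) :
    ∑ v ∈ K, inc P D v T = negMulLog ((nu n P).real D) := by
  classical
  have h1 := telescope (fun s => ent P (s : Set (FreeGroup (Fin n))) D) T K hT
  have h2 : ent P ((K : Finset (FreeGroup (Fin n))) : Set (FreeGroup (Fin n))) D = 0 :=
    ent_full P hK
  simp only [Finset.coe_empty] at h1
  rw [h2, ent_empty, sub_zero] at h1
  rw [← h1]
  refine Finset.sum_congr rfl fun v _ => ?_
  unfold inc
  congr 1
  · refine ent_dep P hK fun g hg => ?_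
    have hg' : g ∈ K := hg
    rw [Finset.mem_coe, Finset.mem_filter]
    exact ⟨fun h => ⟨hg', h⟩, fun h => h.2⟩
  · refine ent_dep P hK fun g hg => ?_
    have hg' : g ∈ K := hg
    rw [Finset.mem_coe, Finset.mem_filter]
    exact ⟨fun h => ⟨hg', h⟩, fun h => h.2⟩

/-- the random times are different -/
theorem ae_ne {u v : FreeGroup (Fin n)} (huv : u ≠ v) : ∀ᵐ T ∂(tm n), T u ≠ T v := by
  classical
  rw [ae_iff]
  simp only [ne_eq, not_not]
  have hm : MeasurableSet {T : X n | T u = T v} :=
    measurableSet_eq_fun (measurable_pi_apply u) (measurable_pi_apply v)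
  have h1 := (mp_mix (volume : Measure unitInterval) ({u} : Set (FreeGroup (Fin n)))).measure_preimage
    hm.nullMeasurableSet
  change nu n volume {T : X n | T u = T v} = 0
  rw [← h1, Measure.measure_prod_null (measurable_mix _ hm)]
  refine Filter.Eventually.of_forall fun w => ?_
  have h2 : (Prod.mk w ⁻¹' ((fun z : X n × X n => mix {u} z.1 z.2) ⁻¹' {T : X n | T u = T v})) =
      (fun w' : X n => w' v) ⁻¹' {w u} := by
    ext w'
    simp only [Set.mem_preimage, Set.mem_ofPred_eq, Set.mem_singleton_iff]
    rw [mix_mem (Set.mem_singleton u), mix_notMem (fun h => huv (Set.mem_singleton_iff.1 h).symm)]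
    exact eq_comm
  have m1 : MeasurePreserving (fun w' : X n => w' v) (nu n (volume : Measure unitInterval))
      (volume : Measure unitInterval) :=
    measurePreserving_eval_infinitePi (fun _ : FreeGroup (Fin n) => (volume : Measure unitInterval)) v
  change nu n volume (Prod.mk w ⁻¹' ((fun z : X n × X n => mix {u} z.1 z.2) ⁻¹'
    {T : X n | T u = T v})) = 0
  rw [h2, m1.measure_preimage (measurableSet_singleton _).nullMeasurableSet]
  exact measure_singleton _

theorem ae_injOn (K : Finset (FreeGroup (Fin n))) :
    ∀ᵐ T ∂(tm n), Set.InjOn T (K : Set (FreeGroup (Fin n))) := by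
  have h1 : ∀ᵐ T ∂(tm n), ∀ u v : FreeGroup (Fin n), u ≠ v → T u ≠ T v := by
    rw [ae_all_iff]
    intro u
    rw [ae_all_iff]
    intro v
    by_cases h : u = v
    · exact Filter.Eventually.of_forall fun T h' => absurd h h'
    · filter_upwards [ae_ne h] with T hT _
      exact hT
  filter_upwards [h1] with T hT u _ v _ huv
  by_contra h
  exact hT u v h huv

theorem sum_hh {K : Finset (FreeGroup (Fin n))} {D : Set (FreeGroup (Fin n) → Ω)}
    (hD : MeasurableSet D) (hK : Dep (K : Set (FreeGroup (Fin n))) D) :
    ∑ v ∈ K, hh P D v = negMulLog ((nu n P).real D) := by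
  unfold hh
  rw [← integral_finsetSum _ fun v _ => (um_inc P hD hK v).bm.integrable _]
  have h1 : ∫ T, ∑ v ∈ K, inc P D v T ∂(tm n) = ∫ _T : X n, negMulLog ((nu n P).real D) ∂(tm n) := by
    refine integral_congr_ae ?_
    filter_upwards [ae_injOn K] with T hT
    exact sum_inc P hK hT
  rw [h1]
  simp

theorem pair_le {W : Finset (FreeGroup (Fin n))} {D D' : Set (FreeGroup (Fin n) → Ω)}
    (hD : MeasurableSet D) (hD' : MeasurableSet D')
    (hK : Dep (W : Set (FreeGroup (Fin n))) D) (hK' : Dep (W : Set (FreeGroup (Fin n))) D') :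
    ∑ v ∈ W, max (hh P D v) (hh P D' v) ≤ negMulLog ((nu n P).real (D ∩ D')) +
      negMulLog ((nu n P).real (D \ D')) + negMulLog ((nu n P).real (D' \ D)) := by
  have a1 := hD.inter hD'
  have a2 := hD.diff hD'
  have a3 := hD'.diff hD
  have k1 := hK.inter hK'
  have k2 := hK.diff hK'
  have k3 := hK'.diff hK
  rw [← sum_hh P a1 k1, ← sum_hh P a2 k2, ← sum_hh P a3 k3, ← Finset.sum_add_distrib,
    ← Finset.sum_add_distrib]
  refine Finset.sum_le_sum fun v _ => ?_
  have i1 := (um_inc P a1 k1 v).bm.integrable (tm n)
  have i2 := (um_inc P a2 k2 v).bm.integrable (tm n)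
  have i3 := (um_inc P a3 k3 v).bm.integrable (tm n)
  have h1 : hh P (D ∩ D') v + hh P (D \ D') v + hh P (D' \ D) v =
      ∫ T, (inc P (D ∩ D') v T + inc P (D \ D') v T + inc P (D' \ D) v T) ∂(tm n) := by
    unfold hh
    have i12 : Integrable (fun T => inc P (D ∩ D') v T + inc P (D \ D') v T) (tm n) := i1.add i2
    rw [integral_add i12 i3, integral_add i1 i2]
  rw [h1]
  have i123 : Integrable (fun T => inc P (D ∩ D') v T + inc P (D \ D') v T + inc P (D' \ D) v T)
      (tm n) := (i1.add i2).add i3
  refine max_le ?_ ?_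
  · refine integral_mono ((um_inc P hD hK v).bm.integrable _) i123 fun T => ?_
    have h2 := ent_pair P (bef_subset T v) hD hD'
    simp only [inc]
    linarith
  · refine integral_mono ((um_inc P hD' hK' v).bm.integrable _) i123 fun T => ?_
    have h2 := ent_pair P (bef_subset T v) hD' hD
    rw [Set.inter_comm D' D] at h2
    simp only [inc]
    linarith

/-- each vertex different from `1` is the far end of one edge -/
theorem tree_le {h : FreeGroup (Fin n) → ℝ} (h0 : ∀ v, 0 ≤ h v) {K W : Finset (FreeGroup (Fin n))}
    (hK : ∀ v, v ∉ K → h v = 0) (hKW : K ⊆ W) :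
    ∑ i : Fin n, ∑ v ∈ W, min (h v) (h (dir (i, true) * v)) ≤ ∑ v ∈ W, h v := by
  classical
  set H : Fin n × Bool → ℝ := fun s => ∑ u ∈ W.filter (fun u => hd u = some s), h u with hH
  have h1 : ∀ i : Fin n, ∑ v ∈ W, min (h v) (h (dir (i, true) * v)) ≤
      H (i, false) + H (i, true) := by
    intro i
    rw [← Finset.sum_filter_add_sum_filter_not W (fun v => hd v = some (i, false))]
    refine add_le_add ?_ ?_
    · exact Finset.sum_le_sum fun v _ => min_le_left _ _
    · set F := W.filter (fun v => ¬ hd v = some (i, false)) with hF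
      calc ∑ v ∈ F, min (h v) (h (dir (i, true) * v)) ≤ ∑ v ∈ F, h (dir (i, true) * v) :=
            Finset.sum_le_sum fun v _ => min_le_right _ _
        _ = ∑ u ∈ F.image (fun v => dir (i, true) * v), h u := by
            rw [Finset.sum_image]
            intro x _ y _ hxy
            exact mul_left_cancel hxy
        _ = ∑ u ∈ (F.image (fun v => dir (i, true) * v)).filter (fun u => u ∈ K), h u := by
            symm
            refine Finset.sum_subset (Finset.filter_subset _ _) fun u hu hu' => ?_
            refine hK u fun h2 => hu' ?_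
            rw [Finset.mem_filter]
            exact ⟨hu, h2⟩
        _ ≤ H (i, true) := by
            refine Finset.sum_le_sum_of_subset_of_nonneg ?_ fun _ _ _ => h0 _
            intro u hu
            rw [Finset.mem_filter, Finset.mem_image] at hu
            obtain ⟨⟨v, hv, rfl⟩, hu2⟩ := hu
            rw [Finset.mem_filter]
            rw [hF, Finset.mem_filter] at hv
            exact ⟨hKW hu2, hd_step (a := (i, false)) hv.2⟩
  calc ∑ i : Fin n, ∑ v ∈ W, min (h v) (h (dir (i, true) * v))
      ≤ ∑ i : Fin n, (H (i, false) + H (i, true)) := Finset.sum_le_sum fun i _ => h1 i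
    _ = ∑ s : Fin n × Bool, H s := by
        rw [Fintype.sum_prod_type]
        refine Finset.sum_congr rfl fun i _ => ?_
        rw [Fintype.sum_bool]
        exact add_comm _ _
    _ = ∑ u ∈ W, ∑ s : Fin n × Bool, if hd u = some s then h u else 0 := by
        rw [hH]
        simp only [Finset.sum_filter]
        exact Finset.sum_comm
    _ ≤ ∑ u ∈ W, h u := by
        refine Finset.sum_le_sum fun u _ => ?_
        rcases hu : hd u with _ | b
        · simp only [reduceCtorEq, if_false, Finset.sum_const_zero]
          exact h0 u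
        · have h5 : ∀ a : Fin n × Bool, (some b = some a) = (a = b) := by
            intro a
            simp [eq_comm]
          simp only [h5, Finset.sum_ite_eq', Finset.mem_univ, if_true]
          exact le_rfl

theorem dep_cyl {K : Finset (FreeGroup (Fin n))} {S : Set ((i : K) → Ω)} :
    Dep (K : Set (FreeGroup (Fin n))) (cylinder (α := fun _ => Ω) K S) := by
  intro w w' h
  rw [mem_cylinder, mem_cylinder]
  have h1 : K.restrict w = K.restrict w' := by
    funext i
    exact h i.1 i.2
  rw [h1]

/-- the entropy inequality for cylinders -/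
theorem entropy_cyl {K : Finset (FreeGroup (Fin n))} {D : Set (FreeGroup (Fin n) → Ω)}
    (hD : MeasurableSet D) (hK : Dep (K : Set (FreeGroup (Fin n))) D) :
    ∑ i : Fin n, (2 * negMulLog ((nu n P).real D) -
      (negMulLog ((nu n P).real (D ∩ sh (dir (i, true)) ⁻¹' D)) +
        2 * negMulLog ((nu n P).real D - (nu n P).real (D ∩ sh (dir (i, true)) ⁻¹' D)))) ≤
      negMulLog ((nu n P).real D) := by
  classical
  set p := (nu n P).real D with hp
  set h : FreeGroup (Fin n) → ℝ := hh P D with hh'
  have h0 : ∀ v, 0 ≤ h v := fun v => hh_nonneg P hD v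
  have hz : ∀ v, v ∉ K → h v = 0 := fun v hv => hh_eq_zero P hK hv
  set W : Finset (FreeGroup (Fin n)) :=
    K ∪ Finset.univ.biUnion (fun i : Fin n => K.image (fun g => (dir (i, true))⁻¹ * g)) with hW
  have hKW : K ⊆ W := Finset.subset_union_left
  have hDW : Dep (W : Set (FreeGroup (Fin n))) D := hK.mono (Finset.coe_subset.2 hKW)
  have hterm : ∀ i : Fin n, 2 * negMulLog p -
      (negMulLog ((nu n P).real (D ∩ sh (dir (i, true)) ⁻¹' D)) +
        2 * negMulLog (p - (nu n P).real (D ∩ sh (dir (i, true)) ⁻¹' D))) ≤
      ∑ v ∈ W, min (h v) (h (dir (i, true) * v)) := by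
    intro i
    set γ := dir (i, true) with hγ
    set D' : Set (FreeGroup (Fin n) → Ω) := sh γ ⁻¹' D with hD'
    have hD'm : MeasurableSet D' := (mps P γ).measurable hD
    have hDW' : Dep (W : Set (FreeGroup (Fin n))) D' := by
      intro w w' hw
      refine hK _ _ fun g hg => ?_
      rw [sh_apply, sh_apply]
      refine hw _ ?_
      rw [Finset.mem_coe, hW, Finset.mem_union, Finset.mem_biUnion]
      right
      refine ⟨i, Finset.mem_univ _, ?_⟩
      rw [Finset.mem_image]
      exact ⟨g, hg, rfl⟩
    have hp' : (nu n P).real D' = p := by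
      rw [hp]
      unfold Measure.real
      rw [(mps P γ).measure_preimage hD.nullMeasurableSet]
    have h1 := pair_le P hD hD'm hDW hDW'
    have h2 : (nu n P).real (D \ D') = p - (nu n P).real (D ∩ D') := by
      have := measureReal_inter_add_sdiff (μ := nu n P) (s := D) hD'm
      linarith
    have h3 : (nu n P).real (D' \ D) = p - (nu n P).real (D ∩ D') := by
      have := measureReal_inter_add_sdiff (μ := nu n P) (s := D') hD
      rw [Set.inter_comm D' D, hp'] at this
      linarith
    rw [h2, h3] at h1
    have h4 : ∀ v, hh P D' v = h (γ * v) := fun v => hh_sh P hD hK γ v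
    have h5 := sum_hh P hD hDW
    have h6 := sum_hh P hD'm hDW'
    rw [hp'] at h6
    have h7 : ∑ v ∈ W, max (hh P D v) (hh P D' v) + ∑ v ∈ W, min (h v) (h (γ * v)) =
        2 * negMulLog p := by
      rw [two_mul]
      nth_rewrite 1 [← h5]
      rw [← h6, ← Finset.sum_add_distrib, ← Finset.sum_add_distrib]
      refine Finset.sum_congr rfl fun v _ => ?_
      rw [← h4 v]
      exact max_add_min _ _
    linarith
  calc _ ≤ ∑ i : Fin n, ∑ v ∈ W, min (h v) (h (dir (i, true) * v)) :=
        Finset.sum_le_sum fun i _ => hterm i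
    _ ≤ ∑ v ∈ W, h v := tree_le h0 hz hKW
    _ = negMulLog p := sum_hh P hD hDW

end Pool.Agent.FF891
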