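import Mathlib

/-!
# FF891.Spec: a spectral bound by power iteration

Let a group act on a probability space by measure preserving maps, let `S` be a finite symmetric subset, and let `F` be
a bounded function whose correlations with its translates by `g` are at most `C h g`, where the sum of `h (s g)` over
`s ∈ S` is at most `Λ h g`. Then the sum over `s ∈ S` of the correlations of `F` with its translate by `s` is at most
`Λ` times the square of the norm of `F`.
-/

set_option autoImplicit false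

open MeasureTheory

namespace Pool.Agent.FF891

/-- the power iteration argument -/
theorem power_iter {a : ℕ → ℝ} {Λ C : ℝ} (h0 : 0 ≤ a 0) (hΛ : 0 ≤ Λ)
    (hcs : ∀ m, a m ^ 2 ≤ a 0 * a (2 * m)) (hC : ∀ m, a m ≤ C * Λ ^ m) : a 1 ≤ Λ * a 0 := by
  rcases h0.eq_or_lt with h0 | h0
  · have h1 := hcs 1
    rw [← h0, zero_mul] at h1
    have h2 : a 1 = 0 := by nlinarith [sq_nonneg (a 1)]
    rw [h2, ← h0, mul_zero]
  · by_contra hcon
    push Not at hcon
    set β := a 1 / a 0 with hβ
    have hβΛ : Λ < β := by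
      rw [hβ, lt_div_iff₀ h0]
      exact hcon
    have hβ0 : 0 < β := lt_of_le_of_lt hΛ hβΛ
    have h1 : ∀ j : ℕ, a 0 * β ^ (2 ^ j) ≤ a (2 ^ j) := by
      intro j
      induction j with
      | zero =>
        rw [pow_zero, pow_one, hβ]
        rw [mul_div_cancel₀ _ h0.ne']
      | succ j ih =>
        have h2 := hcs (2 ^ j)
        have h3 : (a 0 * β ^ (2 ^ j)) ^ 2 ≤ a (2 ^ j) ^ 2 := by
          apply pow_le_pow_left₀ (by positivity) ih
        have h4 : (a 0 * β ^ (2 ^ j)) ^ 2 = a 0 * (a 0 * β ^ (2 ^ (j + 1))) := by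
          rw [pow_succ 2 j, pow_mul β]
          ring
        rw [h4] at h3
        have h5 : 2 * 2 ^ j = 2 ^ (j + 1) := by ring
        rw [h5] at h2
        have h6 := h3.trans h2
        exact le_of_mul_le_mul_left h6 h0
    rcases hΛ.eq_or_lt with hΛ0 | hΛ0
    · have h2 := (h1 0).trans (hC _)
      rw [← hΛ0] at h2
      simp only [pow_zero, pow_one, mul_zero] at h2
      have : 0 < a 0 * β := mul_pos h0 hβ0
      linarith
    · have h2 : 1 < β / Λ := by
        rw [lt_div_iff₀ hΛ0]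
        linarith
      have h3 : ∀ j : ℕ, (β / Λ) ^ (2 ^ j) ≤ C / a 0 := by
        intro j
        have h4 := (h1 j).trans (hC _)
        rw [div_pow, div_le_div_iff₀ (by positivity) h0]
        linarith
      have h4 := tendsto_pow_atTop_atTop_of_one_lt h2
      obtain ⟨N, hN⟩ := (h4.eventually (Filter.eventually_gt_atTop (C / a 0))).exists
      have h5 : (β / Λ) ^ N ≤ (β / Λ) ^ (2 ^ N) :=
        pow_le_pow_right₀ h2.le (Nat.lt_two_pow_self).le
      have h6 := h3 N
      linarith

section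

variable {W : Type} [MeasurableSpace W]

/-- bounded measurable functions -/
def BM (G : W → ℝ) : Prop := Measurable G ∧ ∃ B : ℝ, ∀ w, |G w| ≤ B

theorem BM.integrable {G : W → ℝ} (h : BM G) (ν : Measure W) [IsProbabilityMeasure ν] :
    Integrable G ν := by
  obtain ⟨h1, B, hB⟩ := h
  exact Integrable.of_bound h1.aestronglyMeasurable B (Filter.Eventually.of_forall hB)

theorem BM.mul {G H : W → ℝ} (hG : BM G) (hH : BM H) : BM (fun w => G w * H w) := by
  obtain ⟨h1, B, hB⟩ := hG
  obtain ⟨h2, B', hB'⟩ := hH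
  refine ⟨h1.mul h2, B * B', fun w => ?_⟩
  rw [abs_mul]
  exact mul_le_mul (hB w) (hB' w) (abs_nonneg _) ((abs_nonneg _).trans (hB w))

theorem BM.comp {G : W → ℝ} (hG : BM G) {f : W → W} (hf : Measurable f) :
    BM (fun w => G (f w)) := by
  obtain ⟨h1, B, hB⟩ := hG
  exact ⟨h1.comp hf, B, fun w => hB _⟩

variable {Γ : Type} [Group Γ] (T : Γ → W → W) (S : Finset Γ)

/-- the averaging operator -/
def av (G : W → ℝ) : W → ℝ := fun w => ∑ s ∈ S, G (T s w)

theorem BM.av {G : W → ℝ} (hG : BM G) (hT : ∀ g, Measurable (T g)) : BM (av T S G) := by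
  obtain ⟨h1, B, hB⟩ := hG
  refine ⟨?_, S.card * B, fun w => ?_⟩
  · exact Finset.measurable_sum _ fun s _ => h1.comp (hT s)
  · calc |∑ s ∈ S, G (T s w)| ≤ ∑ s ∈ S, |G (T s w)| := Finset.abs_sum_le_sum_abs _ _
      _ ≤ ∑ _s ∈ S, B := Finset.sum_le_sum fun s _ => hB _
      _ = S.card * B := by rw [Finset.sum_const, nsmul_eq_mul]

theorem BM.iter {G : W → ℝ} (hG : BM G) (hT : ∀ g, Measurable (T g)) (m : ℕ) :
    BM ((Pool.Agent.FF891.av T S)^[m] G) := by
  induction m with
  | zero => exact hG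
  | succ m ih =>
    rw [Function.iterate_succ_apply']
    exact ih.av T S hT

variable {T S} {ν : Measure W} [IsProbabilityMeasure ν]

theorem int_T (hT : ∀ g, MeasurePreserving (T g) ν ν) {G : W → ℝ} (hG : BM G) (g : Γ) :
    ∫ w, G (T g w) ∂ν = ∫ w, G w ∂ν := by
  have h1 := integral_map (μ := ν) (φ := T g) (f := G) (hT g).measurable.aemeasurable
    (by rw [(hT g).map_eq]; exact hG.1.aestronglyMeasurable)
  rw [(hT g).map_eq] at h1
  exact h1.symm

theorem av_adj (hT : ∀ g, MeasurePreserving (T g) ν ν) (hmul : ∀ g h w, T g (T h w) = T (g * h) w)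
    (hone : ∀ w, T 1 w = w) (hS : ∀ s ∈ S, s⁻¹ ∈ S) {A B : W → ℝ} (hA : BM A) (hB : BM B) :
    ∫ w, A w * av T S B w ∂ν = ∫ w, av T S A w * B w ∂ν := by
  classical
  have hm : ∀ g, Measurable (T g) := fun g => (hT g).measurable
  have h1 : ∫ w, A w * av T S B w ∂ν = ∑ s ∈ S, ∫ w, A w * B (T s w) ∂ν := by
    rw [← integral_finsetSum]
    · refine integral_congr_ae (Filter.Eventually.of_forall fun w => ?_)
      simp only [av, Finset.mul_sum]
    · exact fun s _ => (hA.mul (hB.comp (hm s))).integrable ν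
  have h2 : ∫ w, av T S A w * B w ∂ν = ∑ s ∈ S, ∫ w, A (T s w) * B w ∂ν := by
    rw [← integral_finsetSum]
    · refine integral_congr_ae (Filter.Eventually.of_forall fun w => ?_)
      simp only [av, Finset.sum_mul]
    · exact fun s _ => ((hA.comp (hm s)).mul hB).integrable ν
  rw [h1, h2]
  have h3 : ∀ s ∈ S, ∫ w, A w * B (T s w) ∂ν = ∫ w, A (T s⁻¹ w) * B w ∂ν := by
    intro s _
    have h4 := int_T hT ((hA.comp (hm s⁻¹)).mul hB) s
    rw [← h4]
    refine integral_congr_ae (Filter.Eventually.of_forall fun w => ?_)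
    simp only [hmul, inv_mul_cancel, hone]
  rw [Finset.sum_congr rfl h3]
  exact Finset.sum_bij (fun s _ => s⁻¹) (fun s hs => hS s hs) (fun s _ t _ h => inv_injective h)
    (fun s hs => ⟨s⁻¹, hS s hs, inv_inv s⟩) (fun s _ => rfl)

theorem av_iter_adj (hT : ∀ g, MeasurePreserving (T g) ν ν)
    (hmul : ∀ g h w, T g (T h w) = T (g * h) w)
    (hone : ∀ w, T 1 w = w) (hS : ∀ s ∈ S, s⁻¹ ∈ S) (m : ℕ) {A B : W → ℝ} (hA : BM A)
    (hB : BM B) : ∫ w, A w * (av T S)^[m] B w ∂ν = ∫ w, (av T S)^[m] A w * B w ∂ν := by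
  have hm : ∀ g, Measurable (T g) := fun g => (hT g).measurable
  induction m generalizing A B with
  | zero => rfl
  | succ m ih =>
    rw [Function.iterate_succ_apply', Function.iterate_succ_apply]
    rw [av_adj hT hmul hone hS hA (hB.iter T S hm m)]
    exact ih (hA.av T S hm) hB

/-- Cauchy-Schwarz for bounded functions -/
theorem cs {A B : W → ℝ} (hA : BM A) (hB : BM B) :
    (∫ w, A w * B w ∂ν) ^ 2 ≤ (∫ w, A w * A w ∂ν) * ∫ w, B w * B w ∂ν := by
  set a := ∫ w, A w * A w ∂ν
  set b := ∫ w, A w * B w ∂ν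
  set c := ∫ w, B w * B w ∂ν
  have h1 : ∀ x y : ℝ, 0 ≤ x ^ 2 * a - 2 * (x * y) * b + y ^ 2 * c := by
    intro x y
    have h2 : ∫ w, (x * A w - y * B w) ^ 2 ∂ν = x ^ 2 * a - 2 * (x * y) * b + y ^ 2 * c := by
      have h3 : ∀ w, (x * A w - y * B w) ^ 2 =
          (x ^ 2 * (A w * A w) - 2 * (x * y) * (A w * B w)) + y ^ 2 * (B w * B w) := by
        intro w
        ring
      rw [integral_congr_ae (Filter.Eventually.of_forall h3)]
      have i1 : Integrable (fun w => x ^ 2 * (A w * A w)) ν :=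
        ((hA.mul hA).integrable ν).const_mul _
      have i2 : Integrable (fun w => 2 * (x * y) * (A w * B w)) ν :=
        ((hA.mul hB).integrable ν).const_mul _
      have i3 : Integrable (fun w => y ^ 2 * (B w * B w)) ν :=
        ((hB.mul hB).integrable ν).const_mul _
      have i12 : Integrable (fun w => x ^ 2 * (A w * A w) - 2 * (x * y) * (A w * B w)) ν :=
        i1.sub i2
      rw [integral_add i12 i3, integral_sub i1 i2, integral_const_mul,
        integral_const_mul, integral_const_mul]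
    rw [← h2]
    exact integral_nonneg fun w => sq_nonneg _
  have ha : 0 ≤ a := integral_nonneg fun w => mul_self_nonneg _
  have hc : 0 ≤ c := integral_nonneg fun w => mul_self_nonneg _
  have h4 := h1 b a
  have h5 := h1 c b
  rcases ha.eq_or_lt with h6 | h6
  · rcases hc.eq_or_lt with h7 | h7
    · have h8 := h1 1 1
      have h9 := h1 1 (-1)
      rw [← h6, ← h7] at h8 h9
      have h10 : b = 0 := by linarith
      rw [h10, ← h6]
      simp
    · have h8 : 0 ≤ c * (a * c - b ^ 2) := by nlinarith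
      have h9 : 0 ≤ a * c - b ^ 2 := nonneg_of_mul_nonneg_right h8 h7
      linarith
  · have h8 : 0 ≤ a * (a * c - b ^ 2) := by nlinarith
    have h9 : 0 ≤ a * c - b ^ 2 := nonneg_of_mul_nonneg_right h8 h6
    linarith

/-- the spectral bound -/
theorem spectral (hT : ∀ g, MeasurePreserving (T g) ν ν)
    (hmul : ∀ g h w, T g (T h w) = T (g * h) w)
    (hone : ∀ w, T 1 w = w) (hS : ∀ s ∈ S, s⁻¹ ∈ S) {F : W → ℝ} (hF : BM F) {h : Γ → ℝ}
    {Λ C : ℝ} (hΛ : 0 ≤ Λ) (hC : 0 ≤ C) (hh : ∀ g, ∑ s ∈ S, h (s * g) ≤ Λ * h g)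
    (hc : ∀ g, |∫ w, F w * F (T g w) ∂ν| ≤ C * h g) :
    ∑ s ∈ S, ∫ w, F w * F (T s w) ∂ν ≤ Λ * ∫ w, F w * F w ∂ν := by
  have hm : ∀ g, Measurable (T g) := fun g => (hT g).measurable
  have key : ∀ (m : ℕ) (g : Γ), |∫ w, F w * (av T S)^[m] F (T g w) ∂ν| ≤ C * Λ ^ m * h g := by
    intro m
    induction m with
    | zero =>
      intro g
      rw [pow_zero, mul_one]
      exact hc g
    | succ m ih =>
      intro g
      have h1 : ∫ w, F w * (av T S)^[m + 1] F (T g w) ∂ν =
          ∑ s ∈ S, ∫ w, F w * (av T S)^[m] F (T (s * g) w) ∂ν := by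
        rw [← integral_finsetSum]
        · refine integral_congr_ae (Filter.Eventually.of_forall fun w => ?_)
          simp only [Function.iterate_succ_apply']
          change F w * ∑ s ∈ S, (av T S)^[m] F (T s (T g w)) = _
          rw [Finset.mul_sum]
          simp only [hmul]
        · exact fun s _ => (hF.mul ((hF.iter T S hm m).comp (hm _))).integrable ν
      rw [h1]
      calc |∑ s ∈ S, ∫ w, F w * (av T S)^[m] F (T (s * g) w) ∂ν|
          ≤ ∑ s ∈ S, |∫ w, F w * (av T S)^[m] F (T (s * g) w) ∂ν| :=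
            Finset.abs_sum_le_sum_abs _ _
        _ ≤ ∑ s ∈ S, C * Λ ^ m * h (s * g) := Finset.sum_le_sum fun s _ => ih _
        _ = C * Λ ^ m * ∑ s ∈ S, h (s * g) := by rw [Finset.mul_sum]
        _ ≤ C * Λ ^ m * (Λ * h g) := by
            gcongr
            exact hh g
        _ = C * Λ ^ (m + 1) * h g := by ring
  set a : ℕ → ℝ := fun m => ∫ w, F w * (av T S)^[m] F w ∂ν with ha
  have h0 : a 0 = ∫ w, F w * F w ∂ν := rfl
  have h1 : a 1 = ∑ s ∈ S, ∫ w, F w * F (T s w) ∂ν := by
    rw [← integral_finsetSum]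
    · refine integral_congr_ae (Filter.Eventually.of_forall fun w => ?_)
      change F w * ∑ s ∈ S, F (T s w) = _
      rw [Finset.mul_sum]
    · exact fun s _ => (hF.mul (hF.comp (hm _))).integrable ν
  rw [← h0, ← h1]
  refine power_iter (C := C * h 1) ?_ hΛ ?_ ?_
  · rw [h0]
    exact integral_nonneg fun w => mul_self_nonneg _
  · intro m
    have h2 := cs (ν := ν) hF (hF.iter T S hm m)
    have h3 := av_iter_adj hT hmul hone hS m (hF) (hF.iter T S hm m)
    rw [← h3, ← Function.iterate_add_apply, ← two_mul] at h2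
    exact h2
  · intro m
    have h2 := (abs_le.1 (key m 1)).2
    have h3 : a m = ∫ w, F w * (av T S)^[m] F (T 1 w) ∂ν := by
      simp only [ha, hone]
    rw [h3]
    calc _ ≤ C * Λ ^ m * h 1 := h2
      _ = C * h 1 * Λ ^ m := by ring

end

end Pool.Agent.FF891
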