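import Pool.Agent.FF891.Vol

/-!
# FF891.Sub: LCL problems and injective homomorphisms of free groups

For an injective homomorphism `ι : F_n → F_m` an LCL problem `Q` on `F_n` gives the problem `up ι Q` on
`F_m` which asks for a solution of `Q` on every coset `δ ι(F_n)`. Then `Q` is in FIID if and only if `up ι Q` is, and
the same for FFIID. The two directions which are needed:
* `fiid_up`: a factor of iid solution of `Q` gives one of `up ι Q`, by working on each coset separately;
* `ffiid_down`: a finitary solution `Ψ` of `up ι Q` gives one of `Q`: write every element of `F_m` as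
  `ι (c g) * t (g)` with `t (g)` a representative of the coset `ι(F_n) g`, read the labels at the points `g` off the
  label at `c g` (which is split into countably many independent labels), and restrict `Ψ` to `ι(F_n)`.
-/

set_option autoImplicit false

open MeasureTheory

namespace Pool.Agent.FF891

variable {n m : ℕ}

/-- a bound for the word length of the images of the generators -/
def spd (ι : FreeGroup (Fin n) →* FreeGroup (Fin m)) : ℕ :=
  ∑ i : Fin n, (ι (FreeGroup.of i)).norm

theorem norm_hom_le (ι : FreeGroup (Fin n) →* FreeGroup (Fin m)) (g : FreeGroup (Fin n)) :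
    (ι g).norm ≤ spd ι * g.norm := by
  have key : ∀ L : List (Fin n × Bool), (ι (FreeGroup.mk L)).norm ≤ spd ι * L.length := by
    intro L
    induction L with
    | nil =>
      have h1 : (FreeGroup.mk ([] : List (Fin n × Bool))) = 1 := rfl
      rw [h1, map_one, FreeGroup.norm_one]
      exact Nat.zero_le _
    | cons a L ih =>
      obtain ⟨i, b⟩ := a
      have h1 : FreeGroup.mk ((i, b) :: L) = FreeGroup.mk [(i, b)] * FreeGroup.mk L := by
        rw [FreeGroup.mul_mk]; rfl
      have h2 : (ι (FreeGroup.mk [(i, b)])).norm ≤ spd ι := by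
        have h3 : (ι (FreeGroup.of i)).norm ≤ spd ι :=
          Finset.single_le_sum (f := fun i : Fin n => (ι (FreeGroup.of i)).norm)
            (fun _ _ => Nat.zero_le _) (Finset.mem_univ i)
        cases b
        · have h4 : (FreeGroup.mk [(i, false)]) = (FreeGroup.of i)⁻¹ := by
            rw [FreeGroup.of, FreeGroup.inv_mk]; rfl
          rw [h4, map_inv, FreeGroup.norm_inv_eq]
          exact h3
        · exact h3
      rw [h1, map_mul]
      calc (ι (FreeGroup.mk [(i, b)]) * ι (FreeGroup.mk L)).norm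
          ≤ (ι (FreeGroup.mk [(i, b)])).norm + (ι (FreeGroup.mk L)).norm :=
            FreeGroup.norm_mul_le _ _
        _ ≤ spd ι + spd ι * L.length := Nat.add_le_add h2 ih
        _ = spd ι * ((i, b) :: L).length := by rw [List.length_cons]; ring
  have h := key g.toWord
  rwa [FreeGroup.mk_toWord] at h

/-- the problem `Q` on every coset of the image of `ι` -/
def up (ι : FreeGroup (Fin n) →* FreeGroup (Fin m)) (Q : LCL n) : LCL m where
  L := Q.L
  fin := Q.fin
  r := spd ι * Q.r
  P := {p | (fun s : {g : FreeGroup (Fin n) // g.norm ≤ Q.r} =>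
    p ⟨ι s.1, (norm_hom_le ι s.1).trans (Nat.mul_le_mul_left _ s.2)⟩) ∈ Q.P}

theorem up_solves (ι : FreeGroup (Fin n) →* FreeGroup (Fin m)) (Q : LCL n)
    (f : FreeGroup (Fin m) → Q.L) :
    (up ι Q).Solves f ↔ ∀ δ : FreeGroup (Fin m), Q.Solves (fun g => f (δ * ι g)) := by
  constructor
  · intro h δ γ
    have h1 := h (δ * ι γ)
    change (fun s : {g : FreeGroup (Fin n) // g.norm ≤ Q.r} => f (δ * ι γ * ι s.1)) ∈ Q.P at h1
    simp only [map_mul, ← mul_assoc]
    exact h1
  · intro h δ
    have h1 := h δ 1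
    simp only [one_mul] at h1
    exact h1

theorem fiid_up {ι : FreeGroup (Fin n) →* FreeGroup (Fin m)} (hι : Function.Injective ι)
    {Q : LCL n} (h : FIID Q) : FIID (up ι Q) := by
  obtain ⟨Φ, hΦ⟩ := h
  refine ⟨fun x g => Φ (fun δ => x (g * ι δ)) 1, ⟨?_, ?_, ?_⟩⟩
  · intro g l
    have hm : Measurable (fun (x : X m) (δ : FreeGroup (Fin n)) => x (g * ι δ)) := by fun_prop
    exact hm (hΦ.meas 1 l)
  · intro γ x
    funext g
    show Φ (fun δ => x (γ⁻¹ * (g * ι δ))) 1 = Φ (fun δ => x (γ⁻¹ * g * ι δ)) 1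
    simp only [mul_assoc]
  · have h1 : ∀ δ : FreeGroup (Fin m), ∀ᵐ x ∂(mu m), Q.Solves (Φ (fun η => x (δ * ι η))) := by
      intro δ
      have hinj : Function.Injective (fun η : FreeGroup (Fin n) => δ * ι η) :=
        (mul_right_injective δ).comp hι
      have hmp : MeasurePreserving (fun (x : X m) (η : FreeGroup (Fin n)) => x (δ * ι η))
          (mu m) (mu n) := by
        refine ⟨by fun_prop, ?_⟩
        exact Measure.map_infinitePi_infinitePi_of_inj hinj
      exact hmp.quasiMeasurePreserving.ae hΦ.sol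
    filter_upwards [ae_all_iff.2 h1] with x hx
    rw [up_solves]
    intro δ
    have h2 : (fun g : FreeGroup (Fin n) => Φ (fun η => x (δ * ι g * ι η)) 1) =
        Φ (fun η => x (δ * ι η)) := by
      funext g
      have h3 := congrFun (hΦ.equi g⁻¹ (fun η => x (δ * ι η))) 1
      have h4 : sh g⁻¹ (fun η => x (δ * ι η)) = fun η => x (δ * ι g * ι η) := by
        funext η
        simp only [sh_apply, inv_inv, map_mul, mul_assoc]
      rw [h4] at h3
      rw [h3, sh_apply, inv_inv, mul_one]
    rw [h2]
    exact hx δ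

theorem exists_coord {ι : FreeGroup (Fin n) →* FreeGroup (Fin m)} (hι : Function.Injective ι) :
    ∃ (c : FreeGroup (Fin m) → FreeGroup (Fin n)) (t : FreeGroup (Fin m) → FreeGroup (Fin m)),
      (∀ g, ι (c g) * t g = g) ∧ (∀ δ g, c (ι δ * g) = δ * c g) ∧ ∀ δ g, t (ι δ * g) = t g := by
  classical
  let S : Setoid (FreeGroup (Fin m)) :=
    { r := fun g h => ∃ δ, ι δ * g = h
      iseqv := ⟨fun g => ⟨1, by rw [map_one, one_mul]⟩,
        fun {g h} ⟨δ, hδ⟩ => ⟨δ⁻¹, by rw [← hδ, map_inv, inv_mul_cancel_left]⟩,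
        fun {g h k} ⟨δ, hδ⟩ ⟨ε, hε⟩ => ⟨ε * δ, by rw [map_mul, mul_assoc, hδ, hε]⟩⟩ }
  let t : FreeGroup (Fin m) → FreeGroup (Fin m) := fun g => (Quotient.mk S g).out
  have ht : ∀ g, ∃ δ, ι δ * t g = g := fun g => Quotient.exact (Quotient.out_eq (Quotient.mk S g))
  choose c hc using ht
  have htt : ∀ δ g, t (ι δ * g) = t g := by
    intro δ g
    have h1 : Quotient.mk S (ι δ * g) = Quotient.mk S g := Quotient.sound ⟨δ⁻¹, by
      rw [map_inv, inv_mul_cancel_left]⟩
    show (Quotient.mk S (ι δ * g)).out = (Quotient.mk S g).out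
    rw [h1]
  refine ⟨c, t, hc, fun δ g => ?_, htt⟩
  apply hι
  have h1 := hc (ι δ * g)
  rw [htt] at h1
  have h2 : ι (δ * c g) * t g = ι δ * g := by rw [map_mul, mul_assoc, hc]
  exact mul_right_cancel (h1.trans h2.symm)

theorem ffiid_down {ι : FreeGroup (Fin n) →* FreeGroup (Fin m)} (hι : Function.Injective ι)
    {Q : LCL n} (h : FFIID (up ι Q)) : FFIID Q := by
  obtain ⟨Ψ, hΨ, hfin⟩ := h
  obtain ⟨c, t, hct, hc, ht⟩ := exists_coord hι
  obtain ⟨π, hπm, hπ⟩ := Measure.exists_measurable_map_eq
    (Measure.infinitePi (fun _ : FreeGroup (Fin m) => (volume : Measure unitInterval)))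
  let E : X n → X m := fun z g => π (z (c g)) (t g)
  have hEm : Measurable E := by
    refine measurable_pi_iff.2 fun g => ?_
    exact (measurable_pi_apply (t g)).comp (hπm.comp (measurable_pi_apply (c g)))
  have hEmp : MeasurePreserving E (mu n) (mu m) := by
    refine ⟨hEm, ?_⟩
    have h1 : (mu n).map (fun (z : X n) (δ : FreeGroup (Fin n)) => π (z δ)) =
        Measure.infinitePi (fun _ : FreeGroup (Fin n) =>
          Measure.infinitePi (fun _ : FreeGroup (Fin m) => (volume : Measure unitInterval))) := by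
      have h2 := Measure.infinitePi_map_pi
        (μ := fun _ : FreeGroup (Fin n) => (volume : Measure unitInterval))
        (f := fun _ => π) (fun _ => hπm)
      rw [hπ] at h2
      exact h2
    have h2 := Measure.infinitePi_map_curry_symm
      (fun (_ : FreeGroup (Fin n)) (_ : FreeGroup (Fin m)) => (volume : Measure unitInterval))
    have hinj : Function.Injective (fun g : FreeGroup (Fin m) => (c g, t g)) := by
      intro g g' hgg
      have h3 : c g = c g' := congrArg Prod.fst hgg
      have h4 : t g = t g' := congrArg Prod.snd hgg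
      rw [← hct g, ← hct g', h3, h4]
    have h3 : (Measure.infinitePi (fun _ : FreeGroup (Fin n) × FreeGroup (Fin m) =>
        (volume : Measure unitInterval))).map (fun w (g : FreeGroup (Fin m)) => w (c g, t g)) =
        mu m := Measure.map_infinitePi_infinitePi_of_inj hinj
    rw [← h3, ← h2, ← h1, Measure.map_map, Measure.map_map]
    · rfl
    · fun_prop
    · exact measurable_pi_iff.2 fun δ => hπm.comp (measurable_pi_apply δ)
    · fun_prop
    · fun_prop
  have hEsh : ∀ (γ : FreeGroup (Fin n)) (z : X n), E (sh γ z) = sh (ι γ) (E z) := by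
    intro γ z
    funext g
    show π (z (γ⁻¹ * c g)) (t g) = π (z (c ((ι γ)⁻¹ * g))) (t ((ι γ)⁻¹ * g))
    rw [← map_inv, hc, ht]
  refine ⟨fun z δ => Ψ (E z) (ι δ), ⟨?_, ?_, ?_⟩, ?_⟩
  · intro δ l
    exact hEm (hΨ.meas (ι δ) l)
  · intro γ z
    funext δ
    show Ψ (E (sh γ z)) (ι δ) = Ψ (E z) (ι (γ⁻¹ * δ))
    rw [hEsh, hΨ.equi, map_mul, map_inv]
    rfl
  · filter_upwards [hEmp.quasiMeasurePreserving.ae hΨ.sol] with z hz
    have h1 := (up_solves ι Q _).1 hz 1
    simp only [one_mul] at h1
    exact h1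
  · filter_upwards [hEmp.quasiMeasurePreserving.ae hfin] with z hz
    obtain ⟨R, hR⟩ := hz
    have hfb := (finite_ball m R).image (fun g => (c g).norm)
    obtain ⟨R', hR'⟩ := hfb.bddAbove
    refine ⟨R', fun y hy => ?_⟩
    show Ψ (E y) (ι 1) = Ψ (E z) (ι 1)
    rw [map_one]
    refine hR (E y) fun g hg => ?_
    show π (y (c g)) (t g) = π (z (c g)) (t g)
    rw [hy (c g) (hR' ⟨g, hg, rfl⟩)]

/-- if `F_n` embeds in `F_m` and FFIID = FIID for `F_m` then also for `F_n` -/
theorem transfer {ι : FreeGroup (Fin n) →* FreeGroup (Fin m)} (hι : Function.Injective ι)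
    (h : ∀ Q : LCL m, FIID Q → FFIID Q) (Q : LCL n) (hQ : FIID Q) : FFIID Q :=
  ffiid_down hι (h _ (fiid_up hι hQ))

end Pool.Agent.FF891
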