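import Pool.Agent.FF891.Chain

/-!
# FF891.Thin: edge problems without thin pairs of solutions are branching
-/

set_option autoImplicit false

open MeasureTheory

namespace Pool.Agent.FF891

variable {n : ℕ} {E : Type} [Finite E] {C : Set (Fin n × Bool → E)}

/-- any two different elements of `C` differ in at least two directions -/
def Dist2 (C : Set (Fin n × Bool → E)) : Prop :=
  ∀ c ∈ C, ∀ c' ∈ C, c ≠ c' → 2 ≤ Nat.card {s : Fin n × Bool // c s ≠ c' s}

/-- a thin pair: two different solutions which, at every vertex at which they differ, differ in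
exactly two directions -/
def ThinPair (C : Set (Fin n × Bool → E)) (f g : FreeGroup (Fin n) → Fin n × Bool → E) : Prop :=
  (edgeLCL n E C).Solves f ∧ (edgeLCL n E C).Solves g ∧ f ≠ g ∧
    ∀ v, f v ≠ g v → Nat.card {s : Fin n × Bool // f v s ≠ g v s} = 2

/-- two solutions which differ at `1` and are thin in the ball of radius `k` -/
def Fk (C : Set (Fin n × Bool → E)) (k : ℕ) :
    Set ((FreeGroup (Fin n) → Fin n × Bool → E) × (FreeGroup (Fin n) → Fin n × Bool → E)) :=
  {p | (∀ v : FreeGroup (Fin n), (p.1 v ∈ C ∧ ∀ s, p.1 v s = p.1 (v * dir s) (opp s)) ∧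
      (p.2 v ∈ C ∧ ∀ s, p.2 v s = p.2 (v * dir s) (opp s)) ∧ p.1 1 ≠ p.2 1 ∧
      (v.norm ≤ k → p.1 v ≠ p.2 v → Nat.card {s : Fin n × Bool // p.1 v s ≠ p.2 v s} = 2))}

theorem nb_card_eq {f g : FreeGroup (Fin n) → Fin n × Bool → E}
    (hf : (edgeLCL n E C).Solves f) (hg : (edgeLCL n E C).Solves g) (v : FreeGroup (Fin n)) :
    Nat.card {s : Fin n × Bool // f v s ≠ g v s} ≤
      Nat.card {s : Fin n × Bool // v * dir s ∈ {u | f u ≠ g u}} := by
  have hf' := edgeLCL_solves.1 hf
  have hg' := edgeLCL_solves.1 hg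
  refine Nat.card_le_card_of_injective (fun s => ⟨s.1, ?_⟩) ?_
  · intro h2
    apply s.2
    rw [(hf' v).2 s.1, (hg' v).2 s.1, h2]
  · intro a b hab
    exact Subtype.ext (congrArg (fun z => z.1) hab)

theorem fk_nonempty (hC : Dist2 C) {k : ℕ} (h : ¬ Branching (edgeLCL n E C) (fun l => l) k) :
    (Fk C k).Nonempty := by
  unfold Branching at h
  push Not at h
  obtain ⟨f, g, hf, hg, h1, hT⟩ := h
  have hf' := edgeLCL_solves.1 hf
  have hg' := edgeLCL_solves.1 hg
  have h1' : f 1 ≠ g 1 := h1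
  refine ⟨(f, g), fun v => ⟨hf' v, hg' v, h1', fun hv hne => ?_⟩⟩
  have h2 : ∀ t ∈ {u | f u ≠ g u}, 2 ≤ Nat.card {s : Fin n × Bool // t * dir s ∈ {u | f u ≠ g u}} :=
    fun t ht => (hC _ (hf' t).1 _ (hg' t).1 ht).trans (nb_card_eq hf hg t)
  have h3 := hT {u | f u ≠ g u} (fun t ht => ⟨1, by simp, by rw [mul_one]; exact ht⟩) h2 v hne hv
  have h4 := nb_card_eq hf hg v
  have h5 := hC _ (hf' v).1 _ (hg' v).1 hne
  have h6 : Nat.card {s : Fin n × Bool // f v s ≠ g v s} < 3 := lt_of_le_of_lt h4 h3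
  change Nat.card {s : Fin n × Bool // f v s ≠ g v s} = 2
  omega

theorem fk_anti (C : Set (Fin n × Bool → E)) (k : ℕ) : Fk C (k + 1) ⊆ Fk C k :=
  fun _ hp v => ⟨(hp v).1, (hp v).2.1, (hp v).2.2.1, fun hv => (hp v).2.2.2 (by omega)⟩

theorem isClosed_fk [TopologicalSpace E] [DiscreteTopology E] (C : Set (Fin n × Bool → E)) (k : ℕ) :
    IsClosed (Fk C k) := by
  classical
  have c1 : ∀ v : FreeGroup (Fin n), Continuous (fun p : (FreeGroup (Fin n) → Fin n × Bool → E) ×
      (FreeGroup (Fin n) → Fin n × Bool → E) => p.1 v) := fun v =>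
    (continuous_apply v).comp continuous_fst
  have c2 : ∀ v : FreeGroup (Fin n), Continuous (fun p : (FreeGroup (Fin n) → Fin n × Bool → E) ×
      (FreeGroup (Fin n) → Fin n × Bool → E) => p.2 v) := fun v =>
    (continuous_apply v).comp continuous_snd
  have key : ∀ (v u : FreeGroup (Fin n)) (R : (Fin n × Bool → E) → (Fin n × Bool → E) → Prop),
      IsClosed {p : (FreeGroup (Fin n) → Fin n × Bool → E) × (FreeGroup (Fin n) → Fin n × Bool → E) |
        R (p.1 v) (p.2 u)} := fun v u R =>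
    (isClosed_discrete {q : (Fin n × Bool → E) × (Fin n × Bool → E) | R q.1 q.2}).preimage
      ((c1 v).prodMk (c2 u))
  have key1 : ∀ (v u : FreeGroup (Fin n)) (R : (Fin n × Bool → E) → (Fin n × Bool → E) → Prop),
      IsClosed {p : (FreeGroup (Fin n) → Fin n × Bool → E) × (FreeGroup (Fin n) → Fin n × Bool → E) |
        R (p.1 v) (p.1 u)} := fun v u R =>
    (isClosed_discrete {q : (Fin n × Bool → E) × (Fin n × Bool → E) | R q.1 q.2}).preimage
      ((c1 v).prodMk (c1 u))
  have key2 : ∀ (v u : FreeGroup (Fin n)) (R : (Fin n × Bool → E) → (Fin n × Bool → E) → Prop),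
      IsClosed {p : (FreeGroup (Fin n) → Fin n × Bool → E) × (FreeGroup (Fin n) → Fin n × Bool → E) |
        R (p.2 v) (p.2 u)} := fun v u R =>
    (isClosed_discrete {q : (Fin n × Bool → E) × (Fin n × Bool → E) | R q.1 q.2}).preimage
      ((c2 v).prodMk (c2 u))
  have e : Fk C k = ⋂ v : FreeGroup (Fin n),
      (({p | p.1 v ∈ C} ∩ ⋂ s : Fin n × Bool, {p | p.1 v s = p.1 (v * dir s) (opp s)}) ∩
      (({p | p.2 v ∈ C} ∩ ⋂ s : Fin n × Bool, {p | p.2 v s = p.2 (v * dir s) (opp s)}) ∩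
      ({p | p.1 1 ≠ p.2 1} ∩ {p | v.norm ≤ k → p.1 v ≠ p.2 v →
        Nat.card {s : Fin n × Bool // p.1 v s ≠ p.2 v s} = 2}))) := by
    ext p
    simp only [Fk, Set.mem_ofPred_eq, Set.mem_iInter, Set.mem_inter_iff]
  rw [e]
  refine isClosed_iInter fun v => ?_
  refine IsClosed.inter (IsClosed.inter (key1 v v fun a _ => a ∈ C)
    (isClosed_iInter fun s => key1 v (v * dir s) fun a b => a s = b (opp s))) ?_
  refine IsClosed.inter (IsClosed.inter (key2 v v fun a _ => a ∈ C)
    (isClosed_iInter fun s => key2 v (v * dir s) fun a b => a s = b (opp s))) ?_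
  exact IsClosed.inter (key 1 1 fun a b => a ≠ b)
    (key v v fun a b => v.norm ≤ k → a ≠ b → Nat.card {s : Fin n × Bool // a s ≠ b s} = 2)

/-- without thin pairs, edge problems with distance two are branching -/
theorem exists_branching (hC : Dist2 C) (h : ¬ ∃ f g, ThinPair C f g) :
    ∃ k, Branching (edgeLCL n E C) (fun l => l) k := by
  classical
  by_contra hcon
  push Not at hcon
  letI : TopologicalSpace E := ⊥
  haveI : DiscreteTopology E := ⟨rfl⟩
  have h1 := IsCompact.nonempty_iInter_of_sequence_nonempty_isCompact_isClosed (Fk C)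
    (fun k => fk_anti C k) (fun k => fk_nonempty hC (hcon k)) (isClosed_fk C 0).isCompact
    (fun k => isClosed_fk C k)
  obtain ⟨⟨f, g⟩, hp⟩ := h1
  rw [Set.mem_iInter] at hp
  refine h ⟨f, g, edgeLCL_solves.2 fun v => (hp 0 v).1, edgeLCL_solves.2 fun v => (hp 0 v).2.1,
    fun hfg => ?_, fun v hv => (hp v.norm v).2.2.2 le_rfl hv⟩
  exact (hp 0 1).2.2.1 (congrFun hfg 1)

end Pool.Agent.FF891
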