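import Pool.Agent.FF891.Defs
import Pool.Agent.FF891.GW

/-!
# FF891.Tree: the critical forest in the free group

Two generators `a (ι false)`, `a (ι true)`; each vertex `v` has a fair bit `bit (x v)` and points to
its neighbour `v * a (ι (bit (x v)))`. The vertices pointing (in several steps) to `v` form a
critical binary tree, hence a finite tree almost surely.
-/

set_option autoImplicit false

open MeasureTheory

namespace Pool.Agent.FF891

/-- the bit of a vertex -/
noncomputable def bit (t : unitInterval) : Bool := decide (t < ⟨1 / 2, by norm_num, by norm_num⟩)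

theorem measurable_bit : Measurable bit := by
  refine measurable_to_bool ?_
  have h : bit ⁻¹' {true} = Set.Iio (⟨1 / 2, by norm_num, by norm_num⟩ : unitInterval) := by
    ext t
    simp [bit]
  rw [h]
  exact measurableSet_Iio

/-- the law of a bit -/
noncomputable def kap : Measure Bool := (volume : Measure unitInterval).map bit

instance : IsProbabilityMeasure kap := by
  unfold kap
  exact Measure.isProbabilityMeasure_map measurable_bit.aemeasurable

theorem kap_true : kap {true} = ENNReal.ofReal (1 / 2) := by
  unfold kap
  rw [Measure.map_apply measurable_bit (measurableSet_singleton _)]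
  have h : bit ⁻¹' {true} = Set.Iio (⟨1 / 2, by norm_num, by norm_num⟩ : unitInterval) := by
    ext t
    simp [bit]
  rw [h, unitInterval.volume_Iio]

theorem kap_false : kap {false} = ENNReal.ofReal (1 / 2) := by
  have h1 : kap {false} = kap ({true}ᶜ) := by
    congr 1
    ext b
    cases b <;> simp
  rw [h1, prob_compl_eq_one_sub (measurableSet_singleton _), kap_true,
    ← ENNReal.ofReal_one, ← ENNReal.ofReal_sub _ (by norm_num)]
  norm_num

theorem kap_not : kap.map not = kap := by
  refine Measure.ext_of_singleton fun b => ?_
  rw [Measure.map_apply (measurable_of_countable _) (measurableSet_singleton _)]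
  have h : not ⁻¹' {b} = {!b} := by
    ext c
    cases b <;> cases c <;> simp
  rw [h]
  cases b
  · rw [Bool.not_false, kap_true, kap_false]
  · rw [Bool.not_true, kap_true, kap_false]

variable {n : ℕ}

/-- the vertices of the tree below `v` -/
def node (ι : Bool → Fin n) : FreeGroup (Fin n) → List Bool → FreeGroup (Fin n)
  | v, [] => v
  | v, j :: ℓ => node ι (v * (FreeGroup.of (ι j))⁻¹) ℓ

theorem node_mul (ι : Bool → Fin n) (g v : FreeGroup (Fin n)) (ℓ : List Bool) :
    node ι (g * v) ℓ = g * node ι v ℓ := by
  induction ℓ generalizing v with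
  | nil => rfl
  | cons j ℓ ih =>
    simp only [node]
    rw [mul_assoc, ih]

theorem node_eq (ι : Bool → Fin n) (v : FreeGroup (Fin n)) (ℓ : List Bool) :
    node ι v ℓ = v * FreeGroup.mk (ℓ.map fun j => (ι j, false)) := by
  induction ℓ generalizing v with
  | nil =>
    simp only [node, List.map_nil]
    rw [← FreeGroup.one_eq_mk, mul_one]
  | cons j ℓ ih =>
    simp only [node, List.map_cons]
    rw [ih, mul_assoc]
    congr 1

theorem node_norm_le (ι : Bool → Fin n) (v : FreeGroup (Fin n)) (ℓ : List Bool) :
    (node ι v ℓ).norm ≤ v.norm + ℓ.length := by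
  rw [node_eq]
  refine (FreeGroup.norm_mul_le _ _).trans ?_
  have := FreeGroup.norm_mk_le (L₁ := ℓ.map fun j => (ι j, false))
  rw [List.length_map] at this
  omega

theorem node_injective {ι : Bool → Fin n} (hι : Function.Injective ι) (v : FreeGroup (Fin n)) :
    Function.Injective (node ι v) := by
  intro ℓ ℓ' h
  rw [node_eq, node_eq] at h
  have h1 := mul_left_cancel h
  have h2 : ∀ ℓ : List Bool, FreeGroup.IsReduced (ℓ.map fun j => (ι j, false)) := by
    intro ℓ
    induction ℓ with
    | nil => exact FreeGroup.IsReduced.nil
    | cons a ℓ ih =>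
      cases ℓ with
      | nil => exact FreeGroup.IsReduced.singleton
      | cons b ℓ =>
        rw [List.map_cons, List.map_cons, FreeGroup.isReduced_cons_cons]
        exact ⟨fun _ => rfl, ih⟩
  have h3 : ∀ ℓ : List Bool, (FreeGroup.mk (ℓ.map fun j => (ι j, false))).toWord =
      ℓ.map fun j => (ι j, false) := by
    intro ℓ
    rw [FreeGroup.toWord_mk]
    exact (h2 ℓ).reduce_eq
  have h4 := congrArg FreeGroup.toWord h1
  rw [h3, h3] at h4
  refine List.map_injective_iff.2 (fun a b hab => ?_) h4
  exact hι (Prod.ext_iff.1 hab).1

/-- the bits of the tree below `v` -/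
noncomputable def tr (ι : Bool → Fin n) (x : X n) (v : FreeGroup (Fin n)) : List Bool → Bool :=
  fun ℓ => bit (x (node ι v ℓ))

theorem measurable_tr (ι : Bool → Fin n) (v : FreeGroup (Fin n)) :
    Measurable (fun x : X n => tr ι x v) := by
  unfold tr
  exact measurable_pi_lambda _ fun ℓ => measurable_bit.comp (measurable_pi_apply _)

theorem map_tr {ι : Bool → Fin n} (hι : Function.Injective ι) (v : FreeGroup (Fin n)) :
    (mu n).map (fun x => tr ι x v) = nuL kap := by
  have h1 := Measure.map_infinitePi_infinitePi_of_inj
    (P := fun _ : FreeGroup (Fin n) => (volume : Measure unitInterval)) (node_injective hι v)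
  have h2 := Measure.infinitePi_map_pi (fun _ : List Bool => (volume : Measure unitInterval))
    (f := fun _ => bit) (fun _ => measurable_bit)
  have h3 : (fun x : X n => tr ι x v) =
      (fun (z : List Bool → unitInterval) ℓ => bit (z ℓ)) ∘ (fun (x : X n) ℓ => x (node ι v ℓ)) :=
    rfl
  have m1 : Measurable (fun (z : List Bool → unitInterval) (ℓ : List Bool) => bit (z ℓ)) :=
    measurable_pi_lambda _ fun ℓ => measurable_bit.comp (measurable_pi_apply _)
  have m2 : Measurable (fun (x : X n) (ℓ : List Bool) => x (node ι v ℓ)) :=
    measurable_pi_lambda _ fun ℓ => measurable_pi_apply _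
  rw [h3, ← Measure.map_map m1 m2]
  have h4 : (mu n).map (fun (x : X n) (ℓ : List Bool) => x (node ι v ℓ)) =
      Measure.infinitePi (fun _ : List Bool => (volume : Measure unitInterval)) := h1
  rw [h4, h2]
  rfl

theorem real_alive_le {ι : Bool → Fin n} (hι : Function.Injective ι) (v : FreeGroup (Fin n))
    (k : ℕ) : (mu n).real {x | Alive k (tr ι x v)} ≤ 4 / (k + 4) := by
  have h1 := alive_le kap_not k
  rw [← map_tr hι v, map_measureReal_apply (measurable_tr ι v) (measurableSet_alive k)] at h1
  exact h1

end Pool.Agent.FF891
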