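import Pool.Agent.FF891.Tree

/-!
# FF891.Val: values computed along a finite tree

`ch b x₀ x₁` is the value of the edge from a vertex with bit `b` to its parent, if the values of
the incoming edges of the two types are `x₀`, `x₁`; `q j` is the default value of an edge of type
`j` which does not lead to the parent of its origin.
-/

set_option autoImplicit false

open MeasureTheory

namespace Pool.Agent.FF891

variable {Q : Type}

/-- the value of the edge from the root to its parent, computed with the first `k` generations -/
def val (q : Bool → Q) (ch : Bool → Q → Q → Q) : ℕ → (List Bool → Bool) → Q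
  | 0, y => q (y [])
  | k + 1, y => ch (y [])
      (if y [false] = false then val q ch k (fun ℓ => y (false :: ℓ)) else q false)
      (if y [true] = true then val q ch k (fun ℓ => y (true :: ℓ)) else q true)

theorem val_stable (q : Bool → Q) (ch : Bool → Q → Q → Q) (k : ℕ) (y : List Bool → Bool)
    (h : ¬ Alive k y) (m : ℕ) (hm : k ≤ m) : val q ch m y = val q ch k y := by
  induction k generalizing y m with
  | zero => exact absurd trivial h
  | succ k ih =>
    obtain ⟨m, rfl⟩ := Nat.exists_eq_succ_of_ne_zero (show m ≠ 0 by omega)
    simp only [Nat.succ_eq_add_one]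
    simp only [Alive, not_exists, not_and] at h
    simp only [val]
    congr 1
    · split_ifs with h1
      · exact ih _ (h false h1) m (by omega)
      · rfl
    · split_ifs with h1
      · exact ih _ (h true h1) m (by omega)
      · rfl

theorem alive_local (k : ℕ) {y z : List Bool → Bool} (h : ∀ ℓ : List Bool, ℓ.length ≤ k → y ℓ = z ℓ) :
    Alive k y ↔ Alive k z := by
  induction k generalizing y z with
  | zero => simp [Alive]
  | succ k ih =>
    simp only [Alive]
    refine exists_congr fun j => ?_
    rw [h [j] (by simp), ih (y := fun ℓ => y (j :: ℓ)) (z := fun ℓ => z (j :: ℓ))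
      (fun ℓ hℓ => h _ (by simpa using hℓ))]

theorem val_local (q : Bool → Q) (ch : Bool → Q → Q → Q) (k : ℕ) {y z : List Bool → Bool}
    (h : ∀ ℓ : List Bool, ℓ.length ≤ k → y ℓ = z ℓ) : val q ch k y = val q ch k z := by
  induction k generalizing y z with
  | zero =>
    simp only [val]
    rw [h [] (by simp)]
  | succ k ih =>
    simp only [val]
    rw [h [] (by simp), h [false] (by simp), h [true] (by simp),
      ih (y := fun ℓ => y (false :: ℓ)) (z := fun ℓ => z (false :: ℓ))
        (fun ℓ hℓ => h _ (by simpa using hℓ)),
      ih (y := fun ℓ => y (true :: ℓ)) (z := fun ℓ => z (true :: ℓ))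
        (fun ℓ hℓ => h _ (by simpa using hℓ))]

open Classical in
/-- the value of the edge from the root to its parent -/
noncomputable def V (q : Bool → Q) (ch : Bool → Q → Q → Q) (y : List Bool → Bool) : Q :=
  if h : ∃ k, ¬ Alive k y then val q ch (Nat.find h) y else q (y [])

theorem V_eq (q : Bool → Q) (ch : Bool → Q → Q → Q) {k : ℕ} {y : List Bool → Bool}
    (h : ¬ Alive k y) : V q ch y = val q ch k y := by
  classical
  have h' : ∃ k, ¬ Alive k y := ⟨k, h⟩
  unfold V
  rw [dif_pos h']
  exact (val_stable q ch _ y (Nat.find_spec h') k (Nat.find_min' h' h)).symm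

theorem V_eq_none (q : Bool → Q) (ch : Bool → Q → Q → Q) {y : List Bool → Bool}
    (h : ∀ k, Alive k y) : V q ch y = q (y []) := by
  unfold V
  rw [dif_neg]
  simpa using h

theorem V_rec (q : Bool → Q) (ch : Bool → Q → Q → Q) {k : ℕ} {y : List Bool → Bool}
    (h : ¬ Alive k y) : V q ch y = ch (y [])
      (if y [false] = false then V q ch (fun ℓ => y (false :: ℓ)) else q false)
      (if y [true] = true then V q ch (fun ℓ => y (true :: ℓ)) else q true) := by
  cases k with
  | zero => exact absurd trivial h
  | succ k =>
    rw [V_eq q ch h]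
    simp only [Alive, not_exists, not_and] at h
    simp only [val]
    congr 1
    · split_ifs with h1
      · exact (V_eq q ch (h false h1)).symm
      · rfl
    · split_ifs with h1
      · exact (V_eq q ch (h true h1)).symm
      · rfl

theorem val_mem (q : Bool → Q) (ch : Bool → Q → Q → Q) (W : Bool → Set Q) (hq : ∀ b, q b ∈ W b)
    (hch : ∀ b, ∀ x₀ ∈ W false, ∀ x₁ ∈ W true, ch b x₀ x₁ ∈ W b) (k : ℕ) (y : List Bool → Bool) :
    val q ch k y ∈ W (y []) := by
  induction k generalizing y with
  | zero => exact hq _
  | succ k ih =>
    simp only [val]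
    refine hch _ _ ?_ _ ?_
    · split_ifs with h
      · have := ih (fun ℓ => y (false :: ℓ))
        rwa [h] at this
      · exact hq _
    · split_ifs with h
      · have := ih (fun ℓ => y (true :: ℓ))
        rwa [h] at this
      · exact hq _

theorem V_mem (q : Bool → Q) (ch : Bool → Q → Q → Q) (W : Bool → Set Q) (hq : ∀ b, q b ∈ W b)
    (hch : ∀ b, ∀ x₀ ∈ W false, ∀ x₁ ∈ W true, ch b x₀ x₁ ∈ W b) (y : List Bool → Bool) :
    V q ch y ∈ W (y []) := by
  by_cases h : ∃ k, ¬ Alive k y
  · obtain ⟨k, hk⟩ := h
    rw [V_eq q ch hk]
    exact val_mem q ch W hq hch k y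
  · rw [V_eq_none q ch (by simpa using h)]
    exact hq _

theorem measurableSet_val [Finite Q] (q : Bool → Q) (ch : Bool → Q → Q → Q) (k : ℕ) (l : Q) :
    MeasurableSet {y : List Bool → Bool | val q ch k y = l} := by
  let _ : MeasurableSpace Q := ⊤
  have : DiscreteMeasurableSpace Q := ⟨fun _ => trivial⟩
  have h : ∀ k : ℕ, Measurable (fun y : List Bool → Bool => val q ch k y) := by
    intro k
    induction k with
    | zero =>
      simp only [val]
      exact (measurable_of_countable q).comp (measurable_pi_apply _)
    | succ k ih =>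
      have h1 : ∀ j : Bool, Measurable (fun y : List Bool → Bool =>
          val q ch k (fun ℓ => y (j :: ℓ))) := fun j =>
        ih.comp (measurable_pi_lambda _ fun ℓ => measurable_pi_apply _)
      have h2 : Measurable (fun y : List Bool → Bool =>
          (y [], y [false], y [true], val q ch k (fun ℓ => y (false :: ℓ)),
            val q ch k (fun ℓ => y (true :: ℓ)))) :=
        (measurable_pi_apply _).prodMk ((measurable_pi_apply _).prodMk
          ((measurable_pi_apply _).prodMk ((h1 false).prodMk (h1 true))))
      have h3 : Measurable (fun p : Bool × Bool × Bool × Q × Q =>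
          ch p.1 (if p.2.1 = false then p.2.2.2.1 else q false)
            (if p.2.2.1 = true then p.2.2.2.2 else q true)) := measurable_of_countable _
      exact h3.comp h2
  exact h k (measurableSet_singleton l)

theorem measurableSet_V [Finite Q] (q : Bool → Q) (ch : Bool → Q → Q → Q) (l : Q) :
    MeasurableSet {y : List Bool → Bool | V q ch y = l} := by
  have h : {y : List Bool → Bool | V q ch y = l} =
      (⋃ k : ℕ, {y | Alive k y}ᶜ ∩ {y | val q ch k y = l}) ∪
        ((⋂ k : ℕ, {y | Alive k y}) ∩ {y | val q ch 0 y = l}) := by
    ext y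
    simp only [Set.mem_ofPred_eq, Set.mem_union, Set.mem_iUnion, Set.mem_inter_iff,
      Set.mem_compl_iff, Set.mem_iInter]
    by_cases h : ∃ k, ¬ Alive k y
    · obtain ⟨k, hk⟩ := h
      constructor
      · intro h1
        exact Or.inl ⟨k, hk, by rw [← V_eq q ch hk, h1]⟩
      · rintro (⟨m, hm, h1⟩ | ⟨h1, _⟩)
        · rw [V_eq q ch hm, h1]
        · exact absurd (h1 k) hk
    · have h' : ∀ k, Alive k y := by simpa using h
      rw [V_eq_none q ch h']
      constructor
      · intro h1
        exact Or.inr ⟨h', h1⟩
      · rintro (⟨m, hm, _⟩ | ⟨_, h1⟩)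
        · exact absurd (h' m) hm
        · exact h1
  rw [h]
  refine MeasurableSet.union (MeasurableSet.iUnion fun k => ?_) (MeasurableSet.inter ?_ ?_)
  · exact (measurableSet_alive k).compl.inter (measurableSet_val q ch k l)
  · exact MeasurableSet.iInter fun k => measurableSet_alive k
  · exact measurableSet_val q ch 0 l

end Pool.Agent.FF891
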