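import Pool.Agent.FF891.Res

/-!
# FF891.Vol: coding volume of rigid LCL problems

Let `Q` be an LCL problem without constant solution, such that two different solutions always differ
at infinitely many vertices. Resample the label of the vertex `1`: with positive probability the
solution changes, hence it changes at infinitely many vertices. By mass transport, the expected
number of labels which influence the value at `1` is infinite.
-/

set_option autoImplicit false

open MeasureTheory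
open scoped ENNReal

namespace Pool.Agent.FF891

variable {n : ℕ}

/-- two different solutions differ at infinitely many vertices -/
def Rigid (Q : LCL n) : Prop :=
  ∀ f g : FreeGroup (Fin n) → Q.L, Q.Solves f → Q.Solves g → {δ | f δ ≠ g δ}.Finite → f = g

/-- the number of elements of the ball of radius `R` -/
noncomputable def bc (n R : ℕ) : ℕ := Nat.card {g : FreeGroup (Fin n) // g.norm ≤ R}

theorem finite_ball (n R : ℕ) : {g : FreeGroup (Fin n) | g.norm ≤ R}.Finite := by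
  refine Set.Finite.of_finite_image (f := FreeGroup.toWord) ?_ FreeGroup.toWord_injective.injOn
  refine (List.finite_length_le (Fin n × Bool) R).subset ?_
  rintro _ ⟨g, hg, rfl⟩
  exact hg

instance (n R : ℕ) : Finite {g : FreeGroup (Fin n) // g.norm ≤ R} := finite_ball n R

theorem bc_pos (n R : ℕ) : 0 < bc n R := by
  have : Nonempty {g : FreeGroup (Fin n) // g.norm ≤ R} := ⟨⟨1, by simp⟩⟩
  exact Nat.card_pos

theorem bc_add (n a b : ℕ) : bc n (a + b) ≤ bc n a * bc n b := by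
  unfold bc
  rw [← Nat.card_prod]
  have h : ∀ g : {g : FreeGroup (Fin n) // g.norm ≤ a + b},
      ∃ p : {g : FreeGroup (Fin n) // g.norm ≤ a} × {g : FreeGroup (Fin n) // g.norm ≤ b},
        p.1.1 * p.2.1 = g.1 := by
    rintro ⟨g, hg⟩
    refine ⟨⟨⟨FreeGroup.mk (g.toWord.take a), ?_⟩, ⟨FreeGroup.mk (g.toWord.drop a), ?_⟩⟩, ?_⟩
    · refine FreeGroup.norm_mk_le.trans ?_
      rw [List.length_take]
      exact min_le_left _ _
    · refine FreeGroup.norm_mk_le.trans ?_
      rw [List.length_drop]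
      have : g.toWord.length ≤ a + b := hg
      omega
    · simp only [FreeGroup.mul_mk, List.take_append_drop, FreeGroup.mk_toWord]
  choose f hf using h
  refine Nat.card_le_card_of_injective f fun x y hxy => ?_
  apply Subtype.ext
  rw [← hf x, ← hf y, hxy]

theorem tsum_ball (n R : ℕ) :
    ∑' δ : FreeGroup (Fin n), (if δ.norm ≤ R then (1 : ℝ≥0∞) else 0) = bc n R := by
  classical
  have h1 : (fun δ : FreeGroup (Fin n) => if δ.norm ≤ R then (1 : ℝ≥0∞) else 0) =
      Set.indicator {g : FreeGroup (Fin n) | g.norm ≤ R} (fun _ => 1) := by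
    funext δ
    rw [Set.indicator_apply]
    rfl
  rw [h1, ← tsum_subtype]
  have : Fintype {g : FreeGroup (Fin n) | g.norm ≤ R} := (finite_ball n R).fintype
  rw [tsum_fintype, Finset.sum_const, nsmul_eq_mul, mul_one]
  unfold bc
  congr 1
  rw [Finset.card_univ, ← Nat.card_eq_fintype_card]
  rfl

variable {Q : LCL n} {Φ : X n → FreeGroup (Fin n) → Q.L}

/-- the event that resampling the coordinate `1` changes the solution at `δ` -/
def dif (Φ : X n → FreeGroup (Fin n) → Q.L) (δ : FreeGroup (Fin n)) : Set (X n × X n) :=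
  {p | Φ p.1 δ ≠ Φ (rs {1} p.1 p.2) δ}

/-- the event that resampling the coordinate `δ` changes the solution at `1` -/
def dif' (Φ : X n → FreeGroup (Fin n) → Q.L) (δ : FreeGroup (Fin n)) : Set (X n × X n) :=
  {p | Φ p.1 1 ≠ Φ (rs {δ} p.1 p.2) 1}

theorem measurableSet_ne (hΦ : IsFactor Q Φ) (K : Finset (FreeGroup (Fin n)))
    (δ : FreeGroup (Fin n)) : MeasurableSet {p : X n × X n | Φ p.1 δ ≠ Φ (rs K p.1 p.2) δ} := by
  have := Q.fin
  have h : {p : X n × X n | Φ p.1 δ ≠ Φ (rs K p.1 p.2) δ} =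
      (⋃ l : Q.L, (Prod.fst ⁻¹' {x | Φ x δ = l}) ∩
        ((fun p : X n × X n => rs K p.1 p.2) ⁻¹' {x | Φ x δ = l}))ᶜ := by
    ext p
    simp only [Set.mem_ofPred_eq, Set.mem_compl_iff, Set.mem_iUnion, Set.mem_inter_iff,
      Set.mem_preimage, not_exists, not_and]
    constructor
    · intro h l h1 h2
      exact h (h1.trans h2.symm)
    · intro h h'
      exact h _ h' rfl
  rw [h]
  refine (MeasurableSet.iUnion fun l => ?_).compl
  exact (measurable_fst (hΦ.meas δ l)).inter (measurable_rs K (hΦ.meas δ l))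

theorem sh_one {A : Type} (δ : FreeGroup (Fin n)) (f : FreeGroup (Fin n) → A) :
    sh δ⁻¹ f 1 = f δ := by
  rw [sh_apply, inv_inv, mul_one]

theorem sh_rs (δ : FreeGroup (Fin n)) (x y : X n) :
    sh δ⁻¹ (rs {1} x y) = rs {δ⁻¹} (sh δ⁻¹ x) (sh δ⁻¹ y) := by
  classical
  funext a
  simp only [sh_apply, rs, Finset.mem_singleton, inv_inv]
  by_cases h : a = δ⁻¹
  · rw [if_pos h, if_pos (by rw [h, mul_inv_cancel])]
  · rw [if_neg h, if_neg fun h' => h (eq_inv_of_mul_eq_one_right h')]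

/-- mass transport -/
theorem measure_dif (hΦ : IsFactor Q Φ) (δ : FreeGroup (Fin n)) :
    ((mu n).prod (mu n)) (dif Φ δ) = ((mu n).prod (mu n)) (dif' Φ δ⁻¹) := by
  have m1 : MeasurePreserving (Prod.map (sh δ⁻¹) (sh δ⁻¹) : X n × X n → X n × X n)
      ((mu n).prod (mu n)) ((mu n).prod (mu n)) := (mp_sh δ⁻¹).prod (mp_sh δ⁻¹)
  have e := m1.measure_preimage (s := dif' Φ δ⁻¹) (measurableSet_ne hΦ {δ⁻¹} 1).nullMeasurableSet
  rw [← e]
  congr 1
  ext p
  simp only [dif, dif', Set.mem_ofPred_eq, Set.mem_preimage, Prod.map_fst, Prod.map_snd]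
  rw [← sh_rs, hΦ.equi, hΦ.equi, sh_one, sh_one]

theorem measure_dif_le (hΦ : IsFactor Q Φ) {N : X n → ℕ} (hN : Measurable N)
    (hN' : ∀ᵐ x ∂(mu n), Codes Φ x (N x)) (δ : FreeGroup (Fin n)) :
    ((mu n).prod (mu n)) (dif Φ δ) ≤ mu n {x | δ.norm ≤ N x} := by
  classical
  rw [measure_dif hΦ]
  have hm : MeasurableSet {x : X n | δ.norm ≤ N x} := hN measurableSet_Ici
  rw [← (measurePreserving_fst (μ := mu n) (ν := mu n)).measure_preimage hm.nullMeasurableSet]
  apply measure_mono_ae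
  have h1 := (measurePreserving_fst (μ := mu n) (ν := mu n)).quasiMeasurePreserving.ae hN'
  filter_upwards [h1] with p hp
  intro hd
  change δ.norm ≤ N p.1
  by_contra hcon
  apply hd
  symm
  apply hp
  intro a ha
  unfold rs
  rw [if_neg]
  rw [Finset.mem_singleton]
  intro h
  rw [h, FreeGroup.norm_inv_eq] at ha
  omega

/-- if no coordinate has any influence, the solution is constant -/
theorem exists_dif (hc : ∀ l : Q.L, ¬ Q.Solves (fun _ => l)) (hΦ : IsFactor Q Φ) :
    ∃ δ, ((mu n).prod (mu n)) (dif Φ δ) ≠ 0 := by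
  by_contra hcon
  push Not at hcon
  have hfin := Q.fin
  have hJ : ∀ δ, ((mu n).prod (mu n)) (dif' Φ δ) = 0 := by
    intro δ
    have := hcon δ⁻¹
    rwa [measure_dif hΦ, inv_inv] at this
  have h01 : ∀ l : Q.L, mu n {x | Φ x 1 = l} = 0 ∨ mu n {x | Φ x 1 = l} = 1 := by
    intro l
    refine zero_one (hΦ.meas 1 l) fun δ => ?_
    have h1 : ∀ᵐ p ∂((mu n).prod (mu n)), p ∉ dif' Φ δ := measure_eq_zero_iff_ae_notMem.1 (hJ δ)
    filter_upwards [h1] with p hp
    have h2 : Φ p.1 1 = Φ (rs {δ} p.1 p.2) 1 := by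
      by_contra h3
      exact hp h3
    change Φ (rs {δ} p.1 p.2) 1 = l ↔ Φ p.1 1 = l
    rw [h2]
  have hex : ∃ l : Q.L, mu n {x | Φ x 1 = l} = 1 := by
    by_contra h
    push Not at h
    have h0 : ∀ l : Q.L, mu n {x | Φ x 1 = l} = 0 := fun l => (h01 l).resolve_right (h l)
    have h1 : mu n (⋃ l : Q.L, {x | Φ x 1 = l}) = 0 := measure_iUnion_null h0
    have h2 : (⋃ l : Q.L, {x | Φ x 1 = l}) = Set.univ := by
      ext x
      simp
    rw [h2, measure_univ] at h1
    exact one_ne_zero h1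
  obtain ⟨l, hl⟩ := hex
  have hae : ∀ᵐ x ∂(mu n), ∀ δ, Φ x δ = l := by
    rw [ae_all_iff]
    intro δ
    have h1 : ∀ᵐ x ∂(mu n), Φ x 1 = l := (prob_compl_eq_zero_iff (hΦ.meas 1 l)).2 hl
    have h2 := (mp_sh δ⁻¹).quasiMeasurePreserving.ae h1
    filter_upwards [h2] with x hx
    rwa [hΦ.equi, sh_one] at hx
  obtain ⟨x, hx1, hx2⟩ := (hae.and hΦ.sol).exists
  apply hc l
  have h3 : Φ x = fun _ => l := funext hx1
  rwa [h3] at hx2

/-- the difference set of two solutions of a rigid problem has no large gaps -/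
theorem window (hR : Rigid Q) {f g : FreeGroup (Fin n) → Q.L} (hf : Q.Solves f)
    (hg : Q.Solves g) {ρ : ℕ} (h : ∃ δ, f δ ≠ g δ ∧ δ.norm ≤ ρ) :
    ∃ δ, f δ ≠ g δ ∧ ρ ≤ δ.norm ∧ δ.norm ≤ ρ + 2 * Q.r := by
  classical
  by_contra hcon
  push Not at hcon
  obtain ⟨d, hd, hdρ⟩ := h
  have hd' : d.norm < ρ := by
    by_contra h1
    have := hcon d hd (by omega)
    omega
  set F : FreeGroup (Fin n) → Q.L := fun δ => if δ.norm < ρ then g δ else f δ with hF
  have hsol : Q.Solves F := by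
    intro δ
    have key : (∀ s : {g : FreeGroup (Fin n) // g.norm ≤ Q.r}, F (δ * s.1) = g (δ * s.1)) ∨
        (∀ s : {g : FreeGroup (Fin n) // g.norm ≤ Q.r}, F (δ * s.1) = f (δ * s.1)) := by
      by_cases h1 : ∃ s : {g : FreeGroup (Fin n) // g.norm ≤ Q.r},
          f (δ * s.1) ≠ g (δ * s.1) ∧ (δ * s.1).norm < ρ
      · left
        obtain ⟨s, hs1, hs2⟩ := h1
        intro t
        simp only [hF]
        split_ifs with h2
        · rfl
        · by_contra h3
          have h4 := hcon (δ * t.1) h3 (by omega)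
          have h5 : δ * t.1 = (δ * s.1) * (s.1⁻¹ * t.1) := by group
          have h6 := FreeGroup.norm_mul_le (δ * s.1) (s.1⁻¹ * t.1)
          have h7 := FreeGroup.norm_mul_le s.1⁻¹ t.1
          rw [FreeGroup.norm_inv_eq] at h7
          rw [← h5] at h6
          have h8 := s.2
          have h9 := t.2
          omega
      · right
        push Not at h1
        intro t
        simp only [hF]
        split_ifs with h2
        · by_contra h3
          have h4 := h1 t (fun h5 => h3 h5.symm)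
          omega
        · rfl
    rcases key with h1 | h1
    · rw [funext h1]
      exact hg δ
    · rw [funext h1]
      exact hf δ
  have h1 := hR F f hsol hf ((finite_ball n ρ).subset (by
    intro δ hδ
    simp only [Set.mem_ofPred_eq, hF] at hδ ⊢
    by_contra h2
    rw [if_neg (by omega)] at hδ
    exact hδ rfl))
  have h2 := congrFun h1 d
  simp only [hF] at h2
  rw [if_pos hd'] at h2
  exact hd h2.symm

theorem ae_sol2 (hΦ : IsFactor Q Φ) :
    ∀ᵐ p ∂((mu n).prod (mu n)), Q.Solves (Φ p.1) ∧ Q.Solves (Φ (rs {1} p.1 p.2)) := by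
  have h1 := (measurePreserving_fst (μ := mu n) (ν := mu n)).quasiMeasurePreserving.ae hΦ.sol
  have h2 := (mp_rs (n := n) {1}).quasiMeasurePreserving.ae hΦ.sol
  filter_upwards [h1, h2] with p hp1 hp2
  exact ⟨hp1, hp2⟩

theorem vol_top (hR : Rigid Q) (hc : ∀ l : Q.L, ¬ Q.Solves (fun _ => l)) (hΦ : IsFactor Q Φ)
    {N : X n → ℕ} (hN : Measurable N) (hN' : ∀ᵐ x ∂(mu n), Codes Φ x (N x)) :
    ∫⁻ x, (bc n (N x) : ℝ≥0∞) ∂(mu n) = ⊤ := by
  classical
  obtain ⟨δ₀, hδ₀⟩ := exists_dif hc hΦ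
  have h1 : ∫⁻ x, (bc n (N x) : ℝ≥0∞) ∂(mu n) =
      ∑' δ : FreeGroup (Fin n), mu n {x | δ.norm ≤ N x} := by
    have h2 : ∀ x, (bc n (N x) : ℝ≥0∞) =
        ∑' δ : FreeGroup (Fin n), (if δ.norm ≤ N x then (1 : ℝ≥0∞) else 0) :=
      fun x => (tsum_ball n (N x)).symm
    simp_rw [h2]
    have hm : ∀ δ : FreeGroup (Fin n), MeasurableSet {x : X n | δ.norm ≤ N x} :=
      fun δ => hN measurableSet_Ici
    rw [lintegral_tsum]
    · refine tsum_congr fun δ => ?_
      have h3 : (fun x : X n => if δ.norm ≤ N x then (1 : ℝ≥0∞) else 0) =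
          Set.indicator {x | δ.norm ≤ N x} (fun _ => 1) := by
        funext x
        rw [Set.indicator_apply]
        rfl
      rw [h3, lintegral_indicator (hm δ)]
      simp
    · intro δ
      exact (Measurable.ite (hm δ) measurable_const measurable_const).aemeasurable
  have hmd : ∀ δ : FreeGroup (Fin n), MeasurableSet (dif Φ δ) := fun δ => measurableSet_ne hΦ {1} δ
  have h2 : ∑' δ : FreeGroup (Fin n), ((mu n).prod (mu n)) (dif Φ δ) = ⊤ := by
    have h3 : ∑' δ : FreeGroup (Fin n), ((mu n).prod (mu n)) (dif Φ δ) =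
        ∫⁻ p, ∑' δ : FreeGroup (Fin n), Set.indicator (dif Φ δ) (fun _ => (1 : ℝ≥0∞)) p
          ∂((mu n).prod (mu n)) := by
      rw [lintegral_tsum]
      · refine tsum_congr fun δ => ?_
        rw [lintegral_indicator (hmd δ)]
        simp
      · intro δ
        exact (measurable_const.indicator (hmd δ)).aemeasurable
    rw [h3]
    have h4 : ∫⁻ p, Set.indicator (dif Φ δ₀) (fun _ => (⊤ : ℝ≥0∞)) p ∂((mu n).prod (mu n)) = ⊤ := by
      rw [lintegral_indicator (hmd δ₀)]
      simp only [lintegral_const, Measure.restrict_apply_univ]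
      exact ENNReal.top_mul hδ₀
    rw [eq_top_iff, ← h4]
    apply lintegral_mono_ae
    filter_upwards [ae_sol2 hΦ] with p hp
    by_cases hpd : p ∈ dif Φ δ₀
    · have hinf : {δ | Φ p.1 δ ≠ Φ (rs {1} p.1 p.2) δ}.Infinite := by
        intro hfin
        have := hR _ _ hp.1 hp.2 hfin
        exact hpd (congrFun this δ₀)
      have h5 : ∑' δ : FreeGroup (Fin n), Set.indicator (dif Φ δ) (fun _ => (1 : ℝ≥0∞)) p =
          ∑' δ : {δ | Φ p.1 δ ≠ Φ (rs {1} p.1 p.2) δ}, (1 : ℝ≥0∞) := by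
        rw [tsum_subtype {δ | Φ p.1 δ ≠ Φ (rs {1} p.1 p.2) δ} (fun _ => (1 : ℝ≥0∞))]
        refine tsum_congr fun δ => ?_
        rfl
      rw [h5]
      have : Infinite {δ | Φ p.1 δ ≠ Φ (rs {1} p.1 p.2) δ} := hinf.to_subtype
      rw [ENNReal.tsum_const_eq_top_of_ne_zero one_ne_zero]
      exact le_top
    · rw [Set.indicator_of_notMem hpd]
      exact bot_le
  rw [h1, eq_top_iff, ← h2]
  exact ENNReal.tsum_le_tsum fun δ => measure_dif_le hΦ hN hN' δ

theorem vol_tail (hR : Rigid Q) (hc : ∀ l : Q.L, ¬ Q.Solves (fun _ => l)) (hΦ : IsFactor Q Φ)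
    {N : X n → ℕ} (hN : Measurable N) (hN' : ∀ᵐ x ∂(mu n), Codes Φ x (N x)) :
    ∃ c : ℝ, 0 < c ∧ ∀ ρ : ℕ, c ≤ (mu n).real {x | ρ ≤ N x} * bc n ρ := by
  classical
  obtain ⟨δ₀, hδ₀⟩ := exists_dif hc hΦ
  set ν := (mu n).prod (mu n) with hν
  have hc0 : 0 < ν.real (dif Φ δ₀) := by
    rw [Measure.real, ENNReal.toReal_pos_iff]
    exact ⟨pos_iff_ne_zero.2 hδ₀, measure_lt_top _ _⟩
  have hreal : ∀ δ : FreeGroup (Fin n), ν.real (dif Φ δ) ≤ (mu n).real {x | δ.norm ≤ N x} :=
    fun δ => ENNReal.toReal_mono (measure_ne_top _ _) (measure_dif_le hΦ hN hN' δ)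
  have hbig : ∀ ρ : ℕ, δ₀.norm ≤ ρ →
      ν.real (dif Φ δ₀) ≤ bc n (ρ + 2 * Q.r) * (mu n).real {x | ρ ≤ N x} := by
    intro ρ hρ
    have hfb := finite_ball n (ρ + 2 * Q.r)
    set S : Finset (FreeGroup (Fin n)) := hfb.toFinset.filter (fun δ => ρ ≤ δ.norm) with hS
    have hScard : S.card ≤ bc n (ρ + 2 * Q.r) := by
      refine (Finset.card_filter_le _ _).trans (le_of_eq ?_)
      unfold bc
      rw [← Nat.card_eq_card_finite_toFinset hfb]
      rfl
    have h1 : ν.real (dif Φ δ₀) ≤ ν.real (⋃ δ ∈ S, dif Φ δ) := by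
      refine ENNReal.toReal_mono (measure_ne_top _ _) (measure_mono_ae ?_)
      filter_upwards [ae_sol2 hΦ] with p hp
      intro hpd
      obtain ⟨δ, h2, h3, h4⟩ := window hR hp.1 hp.2 (ρ := ρ) ⟨δ₀, hpd, hρ⟩
      have h5 : δ ∈ S := by
        rw [hS, Finset.mem_filter, Set.Finite.mem_toFinset]
        exact ⟨h4, h3⟩
      exact Set.mem_biUnion h5 h2
    refine h1.trans ((measureReal_biUnion_finset_le S _).trans ?_)
    have h2 : ∀ δ ∈ S, ν.real (dif Φ δ) ≤ (mu n).real {x | ρ ≤ N x} := by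
      intro δ hδ
      refine (hreal δ).trans ?_
      refine measureReal_mono (fun x hx => ?_) (measure_ne_top _ _)
      rw [hS, Finset.mem_filter] at hδ
      exact hδ.2.trans hx
    refine (Finset.sum_le_sum h2).trans ?_
    rw [Finset.sum_const, nsmul_eq_mul]
    refine mul_le_mul_of_nonneg_right ?_ measureReal_nonneg
    exact_mod_cast hScard
  set c0 := ν.real (dif Φ δ₀) with hc0def
  set b1 : ℝ := ((bc n (δ₀.norm + 2 * Q.r) : ℕ) : ℝ) with hb1
  set b2 : ℝ := ((bc n (2 * Q.r) : ℕ) : ℝ) with hb2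
  have hb1' : 1 ≤ b1 := by
    rw [hb1]
    exact_mod_cast bc_pos n _
  have hb2' : 1 ≤ b2 := by
    rw [hb2]
    exact_mod_cast bc_pos n _
  refine ⟨c0 / (b1 * b2), by positivity, fun ρ => ?_⟩
  have hbρ : (1 : ℝ) ≤ bc n ρ := by exact_mod_cast bc_pos n ρ
  rw [div_le_iff₀ (by positivity)]
  rcases le_total δ₀.norm ρ with h | h
  · have h1 := hbig ρ h
    have h2 : (bc n (ρ + 2 * Q.r) : ℝ) ≤ bc n ρ * b2 := by
      rw [hb2]
      exact_mod_cast bc_add n ρ (2 * Q.r)
    have h3 : 0 ≤ (mu n).real {x | ρ ≤ N x} := measureReal_nonneg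
    calc c0 ≤ bc n (ρ + 2 * Q.r) * (mu n).real {x | ρ ≤ N x} := h1
      _ ≤ (bc n ρ * b2) * (mu n).real {x | ρ ≤ N x} := mul_le_mul_of_nonneg_right h2 h3
      _ = (mu n).real {x | ρ ≤ N x} * bc n ρ * (1 * b2) := by ring
      _ ≤ (mu n).real {x | ρ ≤ N x} * bc n ρ * (b1 * b2) := by
          refine mul_le_mul_of_nonneg_left ?_ (by positivity)
          exact mul_le_mul_of_nonneg_right hb1' (by positivity)
  · have h1 := hbig δ₀.norm le_rfl
    have h2 : (mu n).real {x | δ₀.norm ≤ N x} ≤ (mu n).real {x | ρ ≤ N x} :=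
      measureReal_mono (fun x hx => h.trans hx) (measure_ne_top _ _)
    have h3 : 0 ≤ (mu n).real {x | ρ ≤ N x} := measureReal_nonneg
    calc c0 ≤ b1 * (mu n).real {x | δ₀.norm ≤ N x} := h1
      _ ≤ b1 * (mu n).real {x | ρ ≤ N x} := mul_le_mul_of_nonneg_left h2 (by positivity)
      _ = (mu n).real {x | ρ ≤ N x} * 1 * (b1 * 1) := by ring
      _ ≤ (mu n).real {x | ρ ≤ N x} * bc n ρ * (b1 * b2) := by
          refine mul_le_mul (mul_le_mul_of_nonneg_left hbρ h3) ?_ (by positivity) (by positivity)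
          exact mul_le_mul_of_nonneg_left hb2' (by positivity)

end Pool.Agent.FF891
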